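import Pool.Agent.PKEp.Scheme

/-!
# Correctness and locality
-/

namespace Pool.Agent.PKEp

open Finset

variable {p m : ℕ}

theorem dec_correct (g : GCi m → ZMod p) (b : ZMod p) (r : ECi m → ZMod p) :
    decT (Sum.elim (genSkT g) (encT (Sum.elim (genPkT g) (Sum.elim (fun _ => b) r)))) = b := by
  set W := gW g with hW
  set t : St m → ZMod p := fun j => g (Sum.inr (Sum.inr (Sum.inl j))) with ht
  set ρ : Row m → St m → ZMod p := fun i j => g (Sum.inr (Sum.inr (Sum.inr (i, j)))) with hρ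
  set r0 : Row m → ZMod p := fun i => r (Sum.inl i) with hr0
  set σ : St m → Row m → ZMod p := fun j i => r (Sum.inr (Sum.inl (j, i))) with hσ
  set τ : Option (Row m × St m) → ZMod p := fun x => r (Sum.inr (Sum.inr x)) with hτ
  have h1 : ∀ x : St m × Row m,
      (Sum.elim (genSkT g) (encT (Sum.elim (genPkT g) (Sum.elim (fun _ => b) r))) :
        SKi m ⊕ CTi m → ZMod p) (Sum.inl (addr (Sum.inl x))) *
      (Sum.elim (genSkT g) (encT (Sum.elim (genPkT g) (Sum.elim (fun _ => b) r))) :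
        SKi m ⊕ CTi m → ZMod p) (Sum.inr (Sum.inl x)) = -t x.1 * ctA W r0 σ x.1 x.2 := by
    intro x
    rfl
  have h2 : ∀ x : Option (Row m × St m),
      (Sum.elim (genSkT g) (encT (Sum.elim (genPkT g) (Sum.elim (fun _ => b) r))) :
        SKi m ⊕ CTi m → ZMod p) (Sum.inl (addr (Sum.inr x))) *
      (Sum.elim (genSkT g) (encT (Sum.elim (genPkT g) (Sum.elim (fun _ => b) r))) :
        SKi m ⊕ CTi m → ZMod p) (Sum.inr (Sum.inr x)) = 1 * ctB (pkP W t ρ) r0 b τ x := by
    intro x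
    rfl
  unfold decT
  rw [Fintype.sum_sum_type]
  rw [sum_congr rfl fun x _ => h1 x, sum_congr rfl fun x _ => h2 x]
  simp only [one_mul]
  have h3 : ∑ x, ctB (pkP W t ρ) r0 b τ x = b + ∑ i, r0 i * ∑ j, W i j * t j := by
    unfold ctB
    rw [sum_sh, Fintype.sum_option, Fintype.sum_prod_type]
    congr 1
    apply sum_congr rfl
    intro i _
    change ∑ j, r0 i * pkP W t ρ i j = _
    rw [← mul_sum]
    congr 1
    unfold pkP
    exact sum_sh _ _
  have h4 : ∑ x : St m × Row m, -t x.1 * ctA W r0 σ x.1 x.2 = -∑ i, r0 i * ∑ j, W i j * t j := by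
    rw [Fintype.sum_prod_type]
    have h5 : ∀ j, ∑ i, -t j * ctA W r0 σ j i = -∑ i, r0 i * (W i j * t j) := by
      intro j
      rw [← mul_sum]
      unfold ctA
      rw [sum_sh, neg_mul, mul_sum]
      congr 1
      apply sum_congr rfl
      intro i _
      ring
    change ∑ j, ∑ i, -t j * ctA W r0 σ j i = _
    rw [sum_congr rfl fun j _ => h5 j, sum_neg_distrib, sum_comm]
    congr 1
    apply sum_congr rfl
    intro i _
    rw [mul_sum]
  rw [h3, h4]
  ring

lemma Dep.mono {ι α : Type} {k k' : ℕ} {f : (ι → ZMod p) → α} (h : Dep k f) (hk : k ≤ k') :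
    Dep k' f := by
  obtain ⟨J, hJ, h⟩ := h
  exact ⟨J, hJ.trans hk, h⟩

lemma dep_list {ι α : Type} (f : (ι → ZMod p) → α) (l : List ι) (k : ℕ) (hk : l.length ≤ k)
    (h : ∀ x x' : ι → ZMod p, (∀ j ∈ l, x j = x' j) → f x = f x') : Dep k f := by
  classical
  refine ⟨l.toFinset, (List.toFinset_card_le l).trans hk, fun x x' hx => h x x' fun j hj => ?_⟩
  exact hx j (List.mem_toFinset.2 hj)

lemma gW_none (g : GCi m → ZMod p) (j : St m) : gW g none j = g (Sum.inl j) := rfl

lemma gW_some (g : GCi m → ZMod p) (q j : St m) :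
    gW g (some q) j = if q.1 < j.1 then g (Sum.inr (Sum.inl (q, j))) else
      if q = j then 1 else 0 := rfl

lemma genPkT_inl (g : GCi m → ZMod p) (q : Row m) (j : St m) :
    genPkT g (Sum.inl (q, j)) = gW g q j := rfl

lemma genPkT_inr (g : GCi m → ZMod p) (q : Row m) (j : St m) :
    genPkT g (Sum.inr (q, j)) = gW g q j * g (Sum.inr (Sum.inr (Sum.inl j))) +
      g (Sum.inr (Sum.inr (Sum.inr (q, j)))) -
      g (Sum.inr (Sum.inr (Sum.inr (q, nx (St m) j)))) := rfl

lemma genSkT_some (g : GCi m → ZMod p) (j : St m) :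
    genSkT g (some j) = -g (Sum.inr (Sum.inr (Sum.inl j))) := rfl

lemma encT_inl (z : PKi m ⊕ Unit ⊕ ECi m → ZMod p) (j : St m) (q : Row m) :
    encT z (Sum.inl (j, q)) = z (Sum.inr (Sum.inr (Sum.inl q))) * z (Sum.inl (Sum.inl (q, j))) +
      z (Sum.inr (Sum.inr (Sum.inr (Sum.inl (j, q))))) -
      z (Sum.inr (Sum.inr (Sum.inr (Sum.inl (j, nx (Row m) q))))) := rfl

lemma encT_none (z : PKi m ⊕ Unit ⊕ ECi m → ZMod p) :
    encT z (Sum.inr none) = z (Sum.inr (Sum.inl ())) +
      z (Sum.inr (Sum.inr (Sum.inr (Sum.inr none)))) -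
      z (Sum.inr (Sum.inr (Sum.inr (Sum.inr (nx (Option (Row m × St m)) none))))) := rfl

lemma encT_some (z : PKi m ⊕ Unit ⊕ ECi m → ZMod p) (q : Row m) (j : St m) :
    encT z (Sum.inr (some (q, j))) =
      z (Sum.inr (Sum.inr (Sum.inl q))) * z (Sum.inl (Sum.inr (q, j))) +
      z (Sum.inr (Sum.inr (Sum.inr (Sum.inr (some (q, j)))))) -
      z (Sum.inr (Sum.inr (Sum.inr (Sum.inr (nx (Option (Row m × St m)) (some (q, j))))))) := rfl

theorem dep_gW (i : Row m) (j : St m) :
    ∃ a : GCi m, ∀ x x' : GCi m → ZMod p, x a = x' a → gW x i j = gW x' i j := by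
  rcases i with _ | q
  · exact ⟨Sum.inl j, fun x x' h => h⟩
  · refine ⟨Sum.inr (Sum.inl (q, j)), fun x x' h => ?_⟩
    rw [gW_some, gW_some, h]

theorem dep_pk (i : PKi m) : Dep 4 (fun g : GCi m → ZMod p => genPkT g i) := by
  rcases i with ⟨q, j⟩ | ⟨q, j⟩
  · obtain ⟨a, ha⟩ := dep_gW (p := p) q j
    refine dep_list _ [a] 4 (by simp) fun x x' h => ?_
    exact ha x x' (h a (by simp))
  · obtain ⟨a, ha⟩ := dep_gW (p := p) q j
    refine dep_list _ [a, Sum.inr (Sum.inr (Sum.inl j)), Sum.inr (Sum.inr (Sum.inr (q, j))),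
      Sum.inr (Sum.inr (Sum.inr (q, nx (St m) j)))] 4 (by simp) fun x x' h => ?_
    rw [genPkT_inr, genPkT_inr, ha x x' (h a (by simp)),
      h (Sum.inr (Sum.inr (Sum.inl j))) (by simp),
      h (Sum.inr (Sum.inr (Sum.inr (q, j)))) (by simp),
      h (Sum.inr (Sum.inr (Sum.inr (q, nx (St m) j)))) (by simp)]

theorem dep_sk (i : SKi m) : Dep 1 (fun g : GCi m → ZMod p => genSkT g i) := by
  rcases i with _ | j
  · exact dep_list _ [] 1 (by simp) fun x x' h => rfl
  · refine dep_list _ [Sum.inr (Sum.inr (Sum.inl j))] 1 (by simp) fun x x' h => ?_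
    rw [genSkT_some, genSkT_some, h _ (by simp)]

theorem dep_ct (i : CTi m) : Dep 4 (fun z : PKi m ⊕ Unit ⊕ ECi m → ZMod p => encT z i) := by
  rcases i with ⟨j, q⟩ | x
  · refine dep_list _ [Sum.inl (Sum.inl (q, j)), Sum.inr (Sum.inr (Sum.inl q)),
      Sum.inr (Sum.inr (Sum.inr (Sum.inl (j, q)))),
      Sum.inr (Sum.inr (Sum.inr (Sum.inl (j, nx (Row m) q))))] 4 (by simp) fun z z' h => ?_
    rw [encT_inl, encT_inl, h (Sum.inl (Sum.inl (q, j))) (by simp),
      h (Sum.inr (Sum.inr (Sum.inl q))) (by simp),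
      h (Sum.inr (Sum.inr (Sum.inr (Sum.inl (j, q))))) (by simp),
      h (Sum.inr (Sum.inr (Sum.inr (Sum.inl (j, nx (Row m) q))))) (by simp)]
  · rcases x with _ | ⟨q, j⟩
    · refine dep_list _ [Sum.inr (Sum.inl ()), Sum.inr (Sum.inr (Sum.inr (Sum.inr none))),
        Sum.inr (Sum.inr (Sum.inr (Sum.inr (nx (Option (Row m × St m)) none))))] 4 (by simp)
        fun z z' h => ?_
      rw [encT_none, encT_none, h (Sum.inr (Sum.inl ())) (by simp),
        h (Sum.inr (Sum.inr (Sum.inr (Sum.inr none)))) (by simp),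
        h (Sum.inr (Sum.inr (Sum.inr (Sum.inr (nx (Option (Row m × St m)) none))))) (by simp)]
    · refine dep_list _ [Sum.inl (Sum.inr (q, j)), Sum.inr (Sum.inr (Sum.inl q)),
        Sum.inr (Sum.inr (Sum.inr (Sum.inr (some (q, j))))),
        Sum.inr (Sum.inr (Sum.inr (Sum.inr (nx (Option (Row m × St m)) (some (q, j))))))] 4
        (by simp) fun z z' h => ?_
      rw [encT_some, encT_some, h (Sum.inl (Sum.inr (q, j))) (by simp),
        h (Sum.inr (Sum.inr (Sum.inl q))) (by simp),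
        h (Sum.inr (Sum.inr (Sum.inr (Sum.inr (some (q, j)))))) (by simp),
        h (Sum.inr (Sum.inr (Sum.inr (Sum.inr (nx (Option (Row m × St m)) (some (q, j)))))))
          (by simp)]

/-- The scheme with words indexed by `Fin`. -/
noncomputable def scheme (p : ℕ) (M : ℕ → ℕ) : PKE p where
  cg n := Fintype.card (GCi (M n))
  ce n := Fintype.card (ECi (M n))
  pk n := Fintype.card (PKi (M n))
  sk n := Fintype.card (SKi (M n))
  ct n := Fintype.card (CTi (M n))
  genPk n g i := genPkT (fun x => g (Fintype.equivFin _ x)) ((Fintype.equivFin _).symm i)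
  genSk n g i := genSkT (fun x => g (Fintype.equivFin _ x)) ((Fintype.equivFin _).symm i)
  enc n z i := encT (fun x => z (Sum.map (Fintype.equivFin _)
    (Sum.map id (Fintype.equivFin _)) x)) ((Fintype.equivFin _).symm i)
  dec n z := decT (fun x => z (Sum.map (Fintype.equivFin _) (Fintype.equivFin _) x))

lemma scheme_dec (M : ℕ → ℕ) (n : ℕ)
    (z : Fin ((scheme p M).sk n) ⊕ Fin ((scheme p M).ct n) → ZMod p) :
    (scheme p M).dec n z = decT (fun x : SKi (M n) ⊕ CTi (M n) =>
      z (Sum.map (Fintype.equivFin _) (Fintype.equivFin _) x)) := rfl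

lemma scheme_enc (M : ℕ → ℕ) (n : ℕ)
    (z : Fin ((scheme p M).pk n) ⊕ Unit ⊕ Fin ((scheme p M).ce n) → ZMod p)
    (i : Fin ((scheme p M).ct n)) :
    (scheme p M).enc n z i = encT (fun x : PKi (M n) ⊕ Unit ⊕ ECi (M n) =>
      z (Sum.map (Fintype.equivFin _) (Sum.map id (Fintype.equivFin _)) x))
        ((Fintype.equivFin (CTi (M n))).symm i) := rfl

/-- What encryption sees, in terms of words indexed by the natural types. -/
lemma enc_arg (M : ℕ → ℕ) (n : ℕ) (g : Fin ((scheme p M).cg n) → ZMod p) (b : ZMod p)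
    (r : Fin ((scheme p M).ce n) → ZMod p) :
    (fun x : PKi (M n) ⊕ Unit ⊕ ECi (M n) =>
      (Sum.elim ((scheme p M).genPk n g) (Sum.elim (fun _ => b) r) :
        Fin ((scheme p M).pk n) ⊕ Unit ⊕ Fin ((scheme p M).ce n) → ZMod p)
        (Sum.map (Fintype.equivFin _) (Sum.map id (Fintype.equivFin _)) x)) =
      Sum.elim (genPkT fun x => g (Fintype.equivFin _ x))
        (Sum.elim (fun _ => b) fun x => r (Fintype.equivFin _ x)) := by
  funext x
  rcases x with x | x | x
  · change genPkT _ ((Fintype.equivFin (PKi (M n))).symm (Fintype.equivFin (PKi (M n)) x)) = _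
    rw [Equiv.symm_apply_apply]
    rfl
  · rfl
  · rfl

lemma ctx_eq (M : ℕ → ℕ) (n : ℕ) (g : Fin ((scheme p M).cg n) → ZMod p) (b : ZMod p)
    (r : Fin ((scheme p M).ce n) → ZMod p) (i : Fin ((scheme p M).ct n)) :
    (scheme p M).ctx n g b r i =
      encT (Sum.elim (genPkT fun x => g (Fintype.equivFin _ x))
        (Sum.elim (fun _ => b) fun x => r (Fintype.equivFin _ x)))
        ((Fintype.equivFin (CTi (M n))).symm i) := by
  unfold PKE.ctx
  rw [scheme_enc, enc_arg]

theorem scheme_perfect (M : ℕ → ℕ) : (scheme p M).Perfect := by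
  intro n g b r
  have h := dec_correct (p := p) (m := M n) (fun x => g (Fintype.equivFin _ x)) b
    (fun x => r (Fintype.equivFin _ x))
  refine Eq.trans ?_ h
  rw [scheme_dec]
  congr 1
  funext x
  rcases x with x | x
  · change genSkT (fun x => g (Fintype.equivFin _ x))
      ((Fintype.equivFin (SKi (M n))).symm (Fintype.equivFin (SKi (M n)) x)) = _
    rw [Equiv.symm_apply_apply]
    rfl
  · change (scheme p M).ctx n g b r (Fintype.equivFin (CTi (M n)) x) = _
    rw [ctx_eq, Equiv.symm_apply_apply]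
    rfl

lemma dep_comp {ι ι' α : Type} (e : ι → ι') {k : ℕ} {f : (ι → ZMod p) → α} (h : Dep k f) :
    Dep k (fun x : ι' → ZMod p => f fun i => x (e i)) := by
  classical
  obtain ⟨J, hJ, h⟩ := h
  refine ⟨J.image e, card_image_le.trans hJ, fun x x' hx => h _ _ fun j hj => ?_⟩
  exact hx (e j) (mem_image_of_mem e hj)

theorem scheme_local (M : ℕ → ℕ) : (scheme p M).Local := by
  intro n
  refine ⟨fun i => ?_, fun i => ?_, fun i => ?_⟩
  · exact dep_comp _ (dep_pk ((Fintype.equivFin (PKi (M n))).symm i))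
  · exact dep_comp _ (dep_sk ((Fintype.equivFin (SKi (M n))).symm i))
  · exact dep_comp _ (dep_ct ((Fintype.equivFin (CTi (M n))).symm i))

theorem scheme_decInner (M : ℕ → ℕ) : (scheme p M).DecInner := by
  intro n
  refine ⟨fun i => Fintype.equivFin (SKi (M n)) (addr ((Fintype.equivFin (CTi (M n))).symm i)),
    fun x => ?_⟩
  rw [scheme_dec]
  unfold decT
  rw [← (Fintype.equivFin (CTi (M n))).symm.sum_comp]
  apply sum_congr rfl
  intro i _
  change x (Sum.inl (Fintype.equivFin (SKi (M n)) (addr ((Fintype.equivFin (CTi (M n))).symm i))))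
    * x (Sum.inr (Fintype.equivFin (CTi (M n)) ((Fintype.equivFin (CTi (M n))).symm i))) = _
  rw [Equiv.apply_symm_apply]

lemma poly_aux (f : ℕ → ℕ) (M : ℕ → ℕ) (hM : ∃ c : ℕ, ∀ n, M n ≤ n ^ c + c)
    (hf : ∀ n, f n ≤ 8 * (M n + 1) ^ 4) : ∃ c : ℕ, ∀ c' ≥ c, ∀ n, f n ≤ n ^ c' + c' := by
  obtain ⟨c, hc⟩ := hM
  refine ⟨8 * c + 11 + 8 * (c + 2) ^ 4, fun c' hc' n => ?_⟩
  refine (hf n).trans ?_
  rcases Nat.lt_or_ge n 2 with hn | hn
  · have h1 : M n ≤ c + 1 := by
      have h2 := hc n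
      have h3 : n ^ c ≤ 1 := by
        calc n ^ c ≤ 1 ^ c := Nat.pow_le_pow_left (by omega) c
          _ = 1 := one_pow c
      omega
    have h4 : (M n + 1) ^ 4 ≤ (c + 2) ^ 4 := Nat.pow_le_pow_left (by omega) 4
    have h5 : 8 * (M n + 1) ^ 4 ≤ 8 * (c + 2) ^ 4 := Nat.mul_le_mul_left _ h4
    omega
  · have h1 : M n + 1 ≤ n ^ (2 * c + 2) := by
      have h2 := hc n
      have h3 : 1 ≤ n ^ c := Nat.one_le_pow _ _ (by omega)
      have h4 : c + 2 ≤ n ^ (c + 2) := by
        calc c + 2 ≤ 2 ^ (c + 2) := Nat.lt_two_pow_self.le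
          _ ≤ n ^ (c + 2) := Nat.pow_le_pow_left hn _
      calc M n + 1 ≤ n ^ c + (c + 1) := by omega
        _ ≤ n ^ c + n ^ c * (c + 1) := Nat.add_le_add_left (Nat.le_mul_of_pos_left _ h3) _
        _ = n ^ c * (c + 2) := by ring
        _ ≤ n ^ c * n ^ (c + 2) := Nat.mul_le_mul_left _ h4
        _ = n ^ (2 * c + 2) := by rw [← pow_add]; congr 1; ring
    calc 8 * (M n + 1) ^ 4 ≤ n ^ 3 * (n ^ (2 * c + 2)) ^ 4 := by
          apply Nat.mul_le_mul
          · calc 8 = 2 ^ 3 := by norm_num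
              _ ≤ n ^ 3 := Nat.pow_le_pow_left hn 3
          · exact Nat.pow_le_pow_left h1 4
      _ = n ^ (8 * c + 11) := by rw [← pow_mul, ← pow_add]; congr 1; ring
      _ ≤ n ^ c' := Nat.pow_le_pow_right (by omega) (by omega)
      _ ≤ n ^ c' + c' := Nat.le_add_right _ _

theorem scheme_poly (M : ℕ → ℕ) (hM : ∃ c : ℕ, ∀ n, M n ≤ n ^ c + c) : (scheme p M).Poly := by
  have hb : ∀ x : ℕ, 1 ≤ (x + 1) ^ 4 ∧ (x + 1) ^ 2 ≤ (x + 1) ^ 4 := by
    intro x
    exact ⟨Nat.one_le_pow _ _ (by omega), Nat.pow_le_pow_right (by omega) (by norm_num)⟩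
  obtain ⟨c1, h1⟩ := poly_aux (scheme p M).cg M hM (by
    intro n
    change Fintype.card (GCi (M n)) ≤ _
    have hb' := hb (M n)
    simp only [GCi, St, Row, Fintype.card_sum, Fintype.card_prod, Fintype.card_fin,
      Fintype.card_option, add_mul, one_mul]
    nlinarith [hb'.1, hb'.2])
  obtain ⟨c2, h2⟩ := poly_aux (scheme p M).ce M hM (by
    intro n
    change Fintype.card (ECi (M n)) ≤ _
    have hb' := hb (M n)
    simp only [ECi, St, Row, Fintype.card_sum, Fintype.card_prod, Fintype.card_fin,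
      Fintype.card_option, add_mul, mul_add, one_mul, mul_one]
    nlinarith [hb'.1, hb'.2])
  obtain ⟨c3, h3⟩ := poly_aux (scheme p M).pk M hM (by
    intro n
    change Fintype.card (PKi (M n)) ≤ _
    have hb' := hb (M n)
    simp only [PKi, St, Row, Fintype.card_sum, Fintype.card_prod, Fintype.card_fin,
      Fintype.card_option]
    nlinarith [hb'.1, hb'.2])
  obtain ⟨c4, h4⟩ := poly_aux (scheme p M).sk M hM (by
    intro n
    change Fintype.card (SKi (M n)) ≤ _
    have hb' := hb (M n)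
    simp only [SKi, St, Fintype.card_prod, Fintype.card_fin, Fintype.card_option]
    nlinarith [hb'.1, hb'.2])
  obtain ⟨c5, h5⟩ := poly_aux (scheme p M).ct M hM (by
    intro n
    change Fintype.card (CTi (M n)) ≤ _
    have hb' := hb (M n)
    simp only [CTi, St, Row, Fintype.card_sum, Fintype.card_prod, Fintype.card_fin,
      Fintype.card_option]
    nlinarith [hb'.1, hb'.2])
  refine ⟨c1 + c2 + c3 + c4 + c5, fun n => ⟨h1 _ (by omega) n, h2 _ (by omega) n,
    h3 _ (by omega) n, h4 _ (by omega) n, h5 _ (by omega) n⟩⟩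

/-- The input of an adversary made from a view and coins. -/
noncomputable def inp {m mA : ℕ} (z : PKi m ⊕ CTi m → ZMod p) (u : Fin mA → ZMod p) :
    Fin (Fintype.card (PKi m)) ⊕ Fin (Fintype.card (CTi m)) ⊕ Fin mA → ZMod p :=
  Sum.elim (fun i => z (Sum.inl ((Fintype.equivFin _).symm i)))
    (Sum.elim (fun i => z (Sum.inr ((Fintype.equivFin _).symm i))) u)

/-- What the adversary sees, in the natural coordinates. -/
noncomputable def viewT (g : GCi m → ZMod p) (r : ECi m → ZMod p) (b : ZMod p) :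
    PKi m ⊕ CTi m → ZMod p :=
  Sum.elim (genPkT g) (encT (Sum.elim (genPkT g) (Sum.elim (fun _ => b) r)))

lemma inp_viewT (M : ℕ → ℕ) (n mA : ℕ) (g : Fin ((scheme p M).cg n) → ZMod p) (b : ZMod p)
    (r : Fin ((scheme p M).ce n) → ZMod p) (u : Fin mA → ZMod p) :
    (Sum.elim ((scheme p M).genPk n g) (Sum.elim ((scheme p M).ctx n g b r) u) :
      Fin ((scheme p M).pk n) ⊕ Fin ((scheme p M).ct n) ⊕ Fin mA → ZMod p) =
      inp (viewT (fun x => g (Fintype.equivFin _ x)) (fun x => r (Fintype.equivFin _ x)) b) u := by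
  funext x
  rcases x with x | x | x
  · rfl
  · exact ctx_eq M n g b r x
  · rfl

lemma real_eq (s : St m → ZMod p) (v : St m → St m → ZMod p) (t : St m → ZMod p)
    (ρ : Row m → St m → ZMod p) (r : Row m → ZMod p) (σ : St m → Row m → ZMod p)
    (τ : Option (Row m × St m) → ZMod p) (b : ZMod p) :
    real s v t ρ r σ τ b =
      viewT (Sum.elim s (Sum.elim (fun x => v x.1 x.2) (Sum.elim t fun x => ρ x.1 x.2)))
        (Sum.elim r (Sum.elim (fun x => σ x.1 x.2) τ)) b := by
  funext x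
  rcases x with (x | x) | (x | x)
  · rfl
  · rfl
  · rfl
  · rfl

/-- Sums over all coins in iterated form. -/
lemma sum_GCi [NeZero p] (F : (GCi m → ZMod p) → ℝ) :
    ∑ g : GCi m → ZMod p, F g = ∑ s : St m → ZMod p, ∑ v : St m → St m → ZMod p,
      ∑ t : St m → ZMod p, ∑ ρ : Row m → St m → ZMod p,
        F (Sum.elim s (Sum.elim (fun x => v x.1 x.2) (Sum.elim t fun x => ρ x.1 x.2))) := by
  rw [sum_arrow]
  apply sum_congr rfl
  intro s _
  rw [sum_arrow, sum_curry]
  apply sum_congr rfl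
  intro v _
  rw [sum_arrow]
  apply sum_congr rfl
  intro t _
  rw [sum_curry]

lemma sum_ECi [NeZero p] (F : (ECi m → ZMod p) → ℝ) :
    ∑ g : ECi m → ZMod p, F g = ∑ r : Row m → ZMod p, ∑ σ : St m → Row m → ZMod p,
      ∑ τ : Option (Row m × St m) → ZMod p,
        F (Sum.elim r (Sum.elim (fun x => σ x.1 x.2) τ)) := by
  rw [sum_arrow]
  apply sum_congr rfl
  intro r _
  rw [sum_arrow, sum_curry]

lemma rel_viewT [NeZero p] (b : ZMod p) (f : (PKi m ⊕ CTi m → ZMod p) → ℝ) :
    ∑ g : GCi m → ZMod p, ∑ r : ECi m → ZMod p, f (viewT g r b) = rel b f := by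
  rw [sum_GCi]
  unfold rel
  apply sum_congr rfl
  intro s _
  apply sum_congr rfl
  intro v _
  apply sum_congr rfl
  intro t _
  apply sum_congr rfl
  intro ρ _
  rw [sum_ECi]
  apply sum_congr rfl
  intro r _
  apply sum_congr rfl
  intro σ _
  apply sum_congr rfl
  intro τ _
  rw [real_eq]

lemma hyb_const [NeZero p] (c : ℝ) :
    hyb (m := m) (0 : ZMod p) 0 (fun _ => c) =
      (p : ℝ) ^ (Fintype.card (GCi m) + Fintype.card (ECi m)) * c := by
  have h1 : hyb (m := m) (0 : ZMod p) 0 (fun _ => c) =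
      ∑ _g : GCi m → ZMod p, ∑ _r : ECi m → ZMod p, c := by
    rw [sum_GCi]
    unfold hyb
    apply sum_congr rfl
    intro s _
    apply sum_congr rfl
    intro v _
    apply sum_congr rfl
    intro t _
    apply sum_congr rfl
    intro ρ _
    rw [sum_ECi]
  rw [h1, sum_const, sum_const, card_univ, card_univ, Fintype.card_fun, Fintype.card_fun,
    ZMod.card, nsmul_eq_mul, nsmul_eq_mul]
  push_cast
  rw [pow_add]
  ring

/-- Renaming the positions of a word. -/
noncomputable def renE (p : ℕ) (α : Type) [Fintype α] :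
    (Fin (Fintype.card α) → ZMod p) ≃ (α → ZMod p) where
  toFun g := fun x => g (Fintype.equivFin α x)
  invFun g := fun i => g ((Fintype.equivFin α).symm i)
  left_inv g := by
    funext i
    simp
  right_inv g := by
    funext i
    simp

lemma pr_num [NeZero p] (M : ℕ → ℕ) (n mA : ℕ)
    (A : (Fin ((scheme p M).pk n) ⊕ Fin ((scheme p M).ct n) ⊕ Fin mA → ZMod p) → Bool)
    (b : ZMod p) :
    (∑ g : Fin ((scheme p M).cg n) → ZMod p, ∑ r : Fin ((scheme p M).ce n) → ZMod p,
      ∑ u : Fin mA → ZMod p, if A (Sum.elim ((scheme p M).genPk n g)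
        (Sum.elim ((scheme p M).ctx n g b r) u)) = true then (1 : ℝ) else 0) =
      rel (m := M n) b (fun z => ∑ u : Fin mA → ZMod p,
        if A (inp z u) = true then (1 : ℝ) else 0) := by
  rw [← rel_viewT]
  refine Fintype.sum_equiv (renE p (GCi (M n))) _ _ fun g => ?_
  refine Fintype.sum_equiv (renE p (ECi (M n))) _ _ fun r => ?_
  refine sum_congr rfl fun u _ => ?_
  rw [inp_viewT]
  rfl

/-- The success probability as a sum over coins. -/
theorem pr_eq [NeZero p] (M : ℕ → ℕ) (n mA : ℕ)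
    (A : (Fin ((scheme p M).pk n) ⊕ Fin ((scheme p M).ct n) ⊕ Fin mA → ZMod p) → Bool)
    (b : ZMod p) :
    (scheme p M).pr n mA A b =
      rel b (fun z => ∑ u : Fin mA → ZMod p, if A (inp z u) = true then (1 : ℝ) else 0) /
        hyb (m := M n) (0 : ZMod p) 0 (fun _ => ∑ _u : Fin mA → ZMod p, (1 : ℝ)) := by
  classical
  unfold PKE.pr
  congr 1
  · rw [← pr_num, Nat.card_eq_fintype_card, Fintype.card_subtype, card_filter]
    push_cast
    rw [Fintype.sum_prod_type]
    refine sum_congr rfl fun g _ => ?_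
    rw [Fintype.sum_prod_type]
  · rw [hyb_const, sum_const, card_univ, Fintype.card_fun, ZMod.card, Fintype.card_fin,
      nsmul_eq_mul, mul_one]
    push_cast
    rw [← pow_add]
    rfl

end Pool.Agent.PKEp
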