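import Pool.Agent.PKEp.PubB
import Pool.Agent.PKEp.Alg

/-!
# The scheme with Boolean words
-/

namespace Pool.Agent.PKEp

open Finset

/-- From `ZMod 2` to `Bool`. -/
def zb (z : ZMod 2) : Bool := decide (z = 1)

/-- From `Bool` to `ZMod 2`. -/
def bz (b : Bool) : ZMod 2 := if b = true then 1 else 0

@[simp] lemma zb_bz (b : Bool) : zb (bz b) = b := by cases b <;> decide

@[simp] lemma bz_zb (z : ZMod 2) : bz (zb z) = z := by revert z; decide

/-- The equivalence. -/
def bze : Bool ≃ ZMod 2 where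
  toFun := bz
  invFun := zb
  left_inv := zb_bz
  right_inv := bz_zb

/-- The Boolean version of a scheme over `ZMod 2`. -/
def toB (S : PKE 2) : ACP.PKE where
  cg := S.cg
  ce := S.ce
  pk := S.pk
  sk := S.sk
  ct := S.ct
  genPk n g i := zb (S.genPk n (fun x => bz (g x)) i)
  genSk n g i := zb (S.genSk n (fun x => bz (g x)) i)
  enc n z i := zb (S.enc n (fun x => bz (z x)) i)
  dec n z := zb (S.dec n (fun x => bz (z x)))

lemma toB_ctx (S : PKE 2) (n : ℕ) (g : Fin (S.cg n) → Bool) (b : Bool) (r : Fin (S.ce n) → Bool)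
    (i : Fin (S.ct n)) :
    (toB S).ctx n g b r i = zb (S.ctx n (fun x => bz (g x)) (bz b) (fun x => bz (r x)) i) := by
  change zb (S.enc n (fun x => bz _) i) = zb (S.enc n _ i)
  congr 2
  funext x
  rcases x with x | x | x
  · exact bz_zb _
  · rfl
  · rfl

theorem toB_perfect (S : PKE 2) (hS : S.Perfect) : (toB S).Perfect := by
  intro n g b r
  have h : (fun x : Fin (S.sk n) ⊕ Fin (S.ct n) =>
      bz ((Sum.elim ((toB S).genSk n g) ((toB S).ctx n g b r) :
        Fin (S.sk n) ⊕ Fin (S.ct n) → Bool) x)) =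
      Sum.elim (S.genSk n (fun x => bz (g x)))
        (S.ctx n (fun x => bz (g x)) (bz b) (fun x => bz (r x))) := by
    funext x
    rcases x with x | x
    · exact bz_zb _
    · exact (congrArg bz (toB_ctx S n g b r x)).trans (bz_zb _)
  exact (congrArg zb ((congrArg (S.dec n) h).trans (hS n _ _ _))).trans (zb_bz b)

lemma depB_of {ι : Type} {k : ℕ} {f : (ι → ZMod 2) → ZMod 2} (h : Dep k f) :
    DepB k (fun x : ι → Bool => zb (f (fun i => bz (x i)))) := by
  obtain ⟨J, hJ, h⟩ := h
  refine ⟨J, hJ, fun x x' hx => ?_⟩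
  change zb _ = zb _
  rw [h (fun i => bz (x i)) (fun i => bz (x' i)) (fun j hj => by rw [hx j hj])]

theorem toB_local (S : PKE 2) (hS : S.Local) : LocalB (toB S) := fun n =>
  ⟨fun i => depB_of ((hS n).1 i), fun i => depB_of ((hS n).2.1 i),
    fun i => depB_of ((hS n).2.2 i)⟩

lemma parity_aux {k l : ℕ} (a : Fin l → Fin k) (x : Fin k ⊕ Fin l → Bool) :
    zb (∑ i, bz (x (Sum.inl (a i))) * bz (x (Sum.inr i))) = true ↔
      Odd (univ.filter fun i => x (Sum.inl (a i)) = true ∧ x (Sum.inr i) = true).card := by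
  have h1 : ∀ i, bz (x (Sum.inl (a i))) * bz (x (Sum.inr i)) =
      if x (Sum.inl (a i)) = true ∧ x (Sum.inr i) = true then 1 else 0 := by
    intro i
    cases x (Sum.inl (a i)) <;> cases x (Sum.inr i) <;> simp [bz]
  simp only [h1]
  rw [sum_boole]
  unfold zb
  rw [decide_eq_true_iff]
  exact ZMod.natCast_eq_one_iff_odd

theorem toB_decParity (S : PKE 2) (hS : S.DecInner) : DecParity (toB S) := by
  intro n
  obtain ⟨a, ha⟩ := hS n
  refine ⟨a, fun x => ?_⟩
  exact (iff_of_eq (congrArg (fun z => zb z = true) (ha _))).trans (parity_aux a x)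

theorem toB_poly (S : PKE 2) (hS : S.Poly) : PolyB (toB S) := hS

theorem toB_pr (S : PKE 2) (n m : ℕ)
    (A : (Fin ((toB S).pk n) ⊕ Fin ((toB S).ct n) ⊕ Fin m → Bool) → Bool) (b : Bool) :
    (toB S).pr n m A b = S.pr n m (fun z => A (fun i => zb (z i))) (bz b) := by
  classical
  unfold ACP.PKE.pr PKE.pr
  congr 1
  rw [Nat.card_eq_fintype_card, Fintype.card_subtype]
  norm_cast
  refine card_bij' (fun t _ => (fun x => bz (t.1 x), fun x => bz (t.2.1 x), fun x => bz (t.2.2 x)))
    (fun t _ => (fun x => zb (t.1 x), fun x => zb (t.2.1 x), fun x => zb (t.2.2 x)))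
    ?_ ?_ ?_ ?_
  · intro t ht
    simp only [mem_filter, mem_univ, true_and] at ht ⊢
    rw [← ht]
    congr 1
    funext i
    rcases i with i | i | i
    · rfl
    · exact (toB_ctx S n t.1 b t.2.1 i).symm
    · exact zb_bz _
  · intro t ht
    simp only [mem_filter, mem_univ, true_and] at ht ⊢
    rw [← ht]
    congr 1
    funext i
    rcases i with i | i | i
    · change zb (S.genPk n (fun x => bz (zb (t.1 x))) i) = zb (S.genPk n t.1 i)
      simp only [bz_zb]
    · change (toB S).ctx n _ b _ i = zb (S.ctx n t.1 (bz b) t.2.1 i)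
      rw [toB_ctx]
      simp only [bz_zb]
    · rfl
  · intro t _
    simp
  · intro t _
    simp

end Pool.Agent.PKEp
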