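import Pool.Agent.PKEp.Pub

/-!
# Approximation of constant-depth circuits with modular gates by polynomials of low degree
-/

namespace Pool.Agent.PKEp

open Finset

section powers

variable {p : ℕ} {Z : Type} {A : Submodule (ZMod p) (Z → ZMod p)}

private lemma one_mem_pw (h1 : (1 : Z → ZMod p) ∈ A) (k : ℕ) : (1 : Z → ZMod p) ∈ A ^ k := by
  have := Submodule.pow_mem_pow A h1 k
  rwa [one_pow] at this

private lemma pw_mono (h1 : (1 : Z → ZMod p) ∈ A) {k m : ℕ} (h : k ≤ m) : A ^ k ≤ A ^ m := by
  obtain ⟨r, rfl⟩ := Nat.exists_eq_add_of_le h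
  intro x hx
  rw [pow_add, ← mul_one x]
  exact Submodule.mul_mem_mul hx (one_mem_pw h1 r)

private lemma prod_mem_pw {κ : Type} (s : Finset κ) (x : κ → Z → ZMod p)
    (hx : ∀ i ∈ s, x i ∈ A) : ∏ i ∈ s, x i ∈ A ^ s.card := by
  classical
  induction s using Finset.induction_on with
  | empty => simp [Submodule.mem_one]; exact ⟨1, by simp⟩
  | insert i s hi ih =>
    rw [Finset.prod_insert hi, Finset.card_insert_of_notMem hi, pow_succ']
    exact Submodule.mul_mem_mul (hx i (mem_insert_self i s))
      (ih fun j hj => hx j (mem_insert_of_mem hj))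

end powers

/-! ### Choice of the subsets -/

private lemma half_zero {p : ℕ} [Fact p.Prime] {t : ℕ} (b : Fin t → Bool) {i0 : Fin t}
    (h : b i0 = true) :
    2 * (univ.filter fun S : Finset (Fin t) =>
      ∑ i ∈ S, (if b i = true then (1 : ZMod p) else 0) = 0).card ≤ 2 ^ t := by
  classical
  set φ : Finset (Fin t) → ZMod p := fun S => ∑ i ∈ S, (if b i = true then (1 : ZMod p) else 0)
    with hφ
  set P := univ.filter fun S : Finset (Fin t) => φ S = 0 with hP
  set Q := univ.filter fun S : Finset (Fin t) => φ S ≠ 0 with hQ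
  have hPQ : P.card + Q.card = 2 ^ t := by
    have := Finset.card_filter_add_card_filter_not (s := (univ : Finset (Finset (Fin t))))
      (fun S => φ S = 0)
    rw [card_univ, Fintype.card_finset, Fintype.card_fin] at this
    exact this
  set f : Finset (Fin t) → Finset (Fin t) := fun S => if i0 ∈ S then S.erase i0 else insert i0 S
    with hf
  have hle : P.card ≤ Q.card := by
    refine Finset.card_le_card_of_injOn f ?_ ?_
    · intro S hS
      have hS' : φ S = 0 := by
        have := mem_coe.1 hS
        rw [hP, mem_filter] at this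
        exact this.2
      refine mem_coe.2 ?_
      rw [hQ, mem_filter]
      refine ⟨mem_univ _, ?_⟩
      by_cases hi : i0 ∈ S
      · have e1 : f S = S.erase i0 := by rw [hf]; simp only [if_pos hi]
        have e2 : φ S = 1 + φ (S.erase i0) := by
          simp only [hφ]
          rw [← Finset.add_sum_erase S _ hi, if_pos h]
        rw [e1]
        intro h0
        rw [h0, hS'] at e2
        exact one_ne_zero (by rw [add_zero] at e2; exact e2.symm : (1 : ZMod p) = 0)
      · have e1 : f S = insert i0 S := by rw [hf]; simp only [if_neg hi]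
        have e2 : φ (insert i0 S) = 1 + φ S := by
          simp only [hφ]
          rw [Finset.sum_insert hi, if_pos h]
        rw [e1, e2, hS', add_zero]
        exact one_ne_zero
    · intro S _ T _ hST
      have key : ∀ S, f (f S) = S := by
        intro S
        by_cases hi : i0 ∈ S
        · have e1 : f S = S.erase i0 := by rw [hf]; simp only [if_pos hi]
          rw [e1]
          have e2 : f (S.erase i0) = insert i0 (S.erase i0) := by
            rw [hf]; simp only [if_neg (notMem_erase i0 S)]
          rw [e2, insert_erase hi]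
        · have e1 : f S = insert i0 S := by rw [hf]; simp only [if_neg hi]
          rw [e1]
          have e2 : f (insert i0 S) = (insert i0 S).erase i0 := by
            rw [hf]; simp only [if_pos (mem_insert_self i0 S)]
          rw [e2, erase_insert hi]
      rw [← key S, ← key T, hST]
  have : 2 * P.card ≤ 2 ^ t := by omega
  exact this

private lemma one_set {p : ℕ} [Fact p.Prime] {Z : Type} [Fintype Z] {t : ℕ} (b : Fin t → Z → Bool)
    (Y : Finset Z) (hY : ∀ z ∈ Y, ∃ i, b i z = true) : ∃ S : Finset (Fin t),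
    (Y.filter fun z => ∑ i ∈ S, (if b i z = true then (1 : ZMod p) else 0) = 0).card * 2 ≤
      Y.card := by
  classical
  by_contra hcon
  push Not at hcon
  have h1 : ∑ _S : Finset (Fin t), Y.card < ∑ S : Finset (Fin t),
      (Y.filter fun z => ∑ i ∈ S, (if b i z = true then (1 : ZMod p) else 0) = 0).card * 2 :=
    Finset.sum_lt_sum_of_nonempty ⟨∅, mem_univ _⟩ fun S _ => hcon S
  rw [Finset.sum_const, card_univ, Fintype.card_finset, Fintype.card_fin, smul_eq_mul,
    ← Finset.sum_mul] at h1
  have h2 : ∑ S : Finset (Fin t),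
      (Y.filter fun z => ∑ i ∈ S, (if b i z = true then (1 : ZMod p) else 0) = 0).card =
      ∑ z ∈ Y, (univ.filter fun S : Finset (Fin t) =>
        ∑ i ∈ S, (if b i z = true then (1 : ZMod p) else 0) = 0).card := by
    simp only [Finset.card_filter]
    exact Finset.sum_comm
  rw [h2] at h1
  have h3 : (∑ z ∈ Y, (univ.filter fun S : Finset (Fin t) =>
        ∑ i ∈ S, (if b i z = true then (1 : ZMod p) else 0) = 0).card) * 2 ≤
      ∑ _z ∈ Y, 2 ^ t := by
    rw [Finset.sum_mul]
    refine Finset.sum_le_sum fun z hz => ?_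
    obtain ⟨i0, hi0⟩ := hY z hz
    have := half_zero (p := p) (fun i => b i z) hi0
    rw [mul_comm]
    exact this
  rw [Finset.sum_const, smul_eq_mul] at h3
  rw [mul_comm (2 ^ t)] at h1
  omega

private lemma many_sets {p : ℕ} [Fact p.Prime] {Z : Type} [Fintype Z] {t : ℕ}
    (b : Fin t → Z → Bool) : ∀ l : ℕ, ∃ S : Fin l → Finset (Fin t),
    (univ.filter fun z => (∃ i, b i z = true) ∧
      ∀ j, ∑ i ∈ S j, (if b i z = true then (1 : ZMod p) else 0) = 0).card * 2 ^ l ≤
        Fintype.card Z := by
  classical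
  intro l
  induction l with
  | zero =>
    refine ⟨fun _ => ∅, ?_⟩
    rw [pow_zero, mul_one]
    exact Finset.card_le_univ _
  | succ l ih =>
    obtain ⟨S, hS⟩ := ih
    set Y := univ.filter fun z => (∃ i, b i z = true) ∧
      ∀ j, ∑ i ∈ S j, (if b i z = true then (1 : ZMod p) else 0) = 0 with hY
    obtain ⟨T, hT⟩ := one_set (p := p) b Y fun z hz => by
      rw [hY, mem_filter] at hz
      exact hz.2.1
    refine ⟨Fin.snoc S T, ?_⟩
    have hsub : (univ.filter fun z => (∃ i, b i z = true) ∧
        ∀ j, ∑ i ∈ (Fin.snoc S T : Fin (l + 1) → Finset (Fin t)) j,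
          (if b i z = true then (1 : ZMod p) else 0) = 0) ⊆
        Y.filter fun z => ∑ i ∈ T, (if b i z = true then (1 : ZMod p) else 0) = 0 := by
      intro z hz
      rw [mem_filter] at hz
      rw [mem_filter, hY, mem_filter]
      refine ⟨⟨mem_univ _, hz.2.1, fun j => ?_⟩, ?_⟩
      · have := hz.2.2 j.castSucc
        rwa [Fin.snoc_castSucc] at this
      · have := hz.2.2 (Fin.last l)
        rwa [Fin.snoc_last] at this
    have h1 := Finset.card_le_card hsub
    calc _ ≤ (Y.filter fun z =>
          ∑ i ∈ T, (if b i z = true then (1 : ZMod p) else 0) = 0).card * 2 ^ (l + 1) :=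
          Nat.mul_le_mul_right _ h1
      _ = ((Y.filter fun z =>
          ∑ i ∈ T, (if b i z = true then (1 : ZMod p) else 0) = 0).card * 2) * 2 ^ l := by
          rw [pow_succ]; ring
      _ ≤ Y.card * 2 ^ l := Nat.mul_le_mul_right _ hT
      _ ≤ Fintype.card Z := hS

/-! ### The gates -/

section gates

variable {p : ℕ} [Fact p.Prime] {Z : Type} [Fintype Z] {B : Submodule (ZMod p) (Z → ZMod p)}

private lemma ind_pow (x : ZMod p) : 1 - x ^ (p - 1) = if x = 0 then 1 else 0 := by
  by_cases hx : x = 0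
  · rw [if_pos hx, hx, zero_pow, sub_zero]
    have := (Fact.out : p.Prime).two_le
    omega
  · rw [if_neg hx, ZMod.pow_card_sub_one_eq_one hx, sub_self]

private lemma or_gate (h1 : (1 : Z → ZMod p) ∈ B) {t : ℕ} (b : Fin t → Z → Bool)
    (G : Fin t → Z → ZMod p) (hG : ∀ i, G i ∈ B) (l : ℕ) :
    ∃ h ∈ B ^ ((p - 1) * l), (univ.filter fun z =>
      (∀ i, G i z = if b i z = true then 1 else 0) ∧
        h z ≠ if (∃ i, b i z = true) then 1 else 0).card * 2 ^ l ≤ Fintype.card Z := by
  classical
  obtain ⟨S, hS⟩ := many_sets (p := p) b l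
  refine ⟨1 - ∏ j : Fin l, (1 - (∑ i ∈ S j, G i) ^ (p - 1)), ?_, ?_⟩
  · refine Submodule.sub_mem _ (one_mem_pw h1 _) ?_
    have h2 := prod_mem_pw (A := B ^ (p - 1)) (univ : Finset (Fin l))
      (fun j => 1 - (∑ i ∈ S j, G i) ^ (p - 1)) fun j _ =>
        Submodule.sub_mem _ (one_mem_pw h1 _)
          (Submodule.pow_mem_pow B (Submodule.sum_mem _ fun i _ => hG i) _)
    rw [card_univ, Fintype.card_fin, ← pow_mul] at h2
    exact h2
  · refine le_trans (Nat.mul_le_mul_right _ (Finset.card_le_card ?_)) hS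
    intro z hz
    rw [mem_filter] at hz ⊢
    obtain ⟨_, hz1, hz2⟩ := hz
    have e1 : (1 - ∏ j : Fin l, (1 - (∑ i ∈ S j, G i) ^ (p - 1)) : Z → ZMod p) z =
        1 - ∏ j : Fin l, (if ∑ i ∈ S j, (if b i z = true then (1 : ZMod p) else 0) = 0
          then 1 else 0) := by
      simp only [Pi.sub_apply, Pi.one_apply, Finset.prod_apply, Pi.pow_apply, Finset.sum_apply]
      congr 1
      refine Finset.prod_congr rfl fun j _ => ?_
      rw [ind_pow]
      have : ∑ i ∈ S j, G i z = ∑ i ∈ S j, (if b i z = true then (1 : ZMod p) else 0) :=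
        Finset.sum_congr rfl fun i _ => hz1 i
      rw [this]
    rw [e1] at hz2
    refine ⟨mem_univ _, ?_, ?_⟩
    · by_contra hno
      apply hz2
      rw [if_neg hno, Finset.prod_eq_one, sub_self]
      intro j _
      rw [if_pos]
      refine Finset.sum_eq_zero fun i _ => ?_
      rw [if_neg]
      exact fun h => hno ⟨i, h⟩
    · by_contra hno
      push Not at hno
      obtain ⟨j, hj⟩ := hno
      have h0 : ∏ j : Fin l, (if ∑ i ∈ S j, (if b i z = true then (1 : ZMod p) else 0) = 0
          then (1 : ZMod p) else 0) = 0 :=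
        Finset.prod_eq_zero (mem_univ j) (if_neg hj)
      apply hz2
      rw [h0, sub_zero, if_pos]
      by_contra hno'
      apply hj
      refine Finset.sum_eq_zero fun i _ => ?_
      rw [if_neg]
      exact fun h => hno' ⟨i, h⟩

private lemma and_gate (h1 : (1 : Z → ZMod p) ∈ B) {t : ℕ} (b : Fin t → Z → Bool)
    (G : Fin t → Z → ZMod p) (hG : ∀ i, G i ∈ B) (l : ℕ) :
    ∃ h ∈ B ^ ((p - 1) * l), (univ.filter fun z =>
      (∀ i, G i z = if b i z = true then 1 else 0) ∧
        h z ≠ if (∀ i, b i z = true) then 1 else 0).card * 2 ^ l ≤ Fintype.card Z := by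
  classical
  obtain ⟨h, hh, hc⟩ := or_gate h1 (fun i z => !(b i z)) (fun i => 1 - G i)
    (fun i => Submodule.sub_mem _ h1 (hG i)) l
  refine ⟨1 - h, Submodule.sub_mem _ (one_mem_pw h1 _) hh, ?_⟩
  refine le_trans (Nat.mul_le_mul_right _ (Finset.card_le_card ?_)) hc
  intro z hz
  rw [mem_filter] at hz ⊢
  obtain ⟨_, hz1, hz2⟩ := hz
  refine ⟨mem_univ _, ?_, ?_⟩
  · intro i
    rw [Pi.sub_apply, Pi.one_apply, hz1 i]
    cases b i z <;> simp
  · intro h3
    apply hz2
    rw [Pi.sub_apply, Pi.one_apply, h3]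
    by_cases h4 : ∀ i, b i z = true
    · rw [if_pos h4, if_neg, sub_zero]
      rintro ⟨i, hi⟩
      rw [h4 i] at hi
      exact absurd hi (by simp)
    · rw [if_neg h4, if_pos, sub_self]
      push Not at h4
      obtain ⟨i, hi⟩ := h4
      refine ⟨i, ?_⟩
      cases hb : b i z
      · rfl
      · exact absurd hb hi

private lemma mod_gate (h1 : (1 : Z → ZMod p) ∈ B) {t : ℕ} (b : Fin t → Z → Bool)
    (G : Fin t → Z → ZMod p) (hG : ∀ i, G i ∈ B) (a : ZMod p) :
    ∃ h ∈ B ^ (p - 1), ∀ z, (∀ i, G i z = if b i z = true then 1 else 0) →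
      h z = if ((univ.filter fun i => b i z = true).card : ZMod p) = a then 1 else 0 := by
  classical
  refine ⟨1 - (∑ i, G i - a • (1 : Z → ZMod p)) ^ (p - 1), ?_, ?_⟩
  · exact Submodule.sub_mem _ (one_mem_pw h1 _) (Submodule.pow_mem_pow B
      (Submodule.sub_mem _ (Submodule.sum_mem _ fun i _ => hG i) (Submodule.smul_mem _ _ h1)) _)
  · intro z hz
    have e1 : (∑ i, G i - a • (1 : Z → ZMod p)) z =
        ((univ.filter fun i => b i z = true).card : ZMod p) - a := by
      rw [Pi.sub_apply, Finset.sum_apply, Pi.smul_apply, Pi.one_apply, smul_eq_mul, mul_one,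
        Finset.sum_congr rfl fun i _ => hz i, Finset.sum_boole]
    rw [Pi.sub_apply, Pi.one_apply, Pi.pow_apply, e1, ind_pow]
    simp only [sub_eq_zero]

end gates

private lemma lit_mem {p : ℕ} [Fact p.Prime] {Z : Type} {A : Submodule (ZMod p) (Z → ZMod p)}
    (h1 : (1 : Z → ZMod p) ∈ A) {ψ : Z → ZMod p} (hψ : ψ ∈ A) (T : ZMod p → Bool) :
    (fun z => if T (ψ z) = true then (1 : ZMod p) else 0) ∈ A ^ (p - 1) := by
  classical
  have e : (fun z => if T (ψ z) = true then (1 : ZMod p) else 0) =
      ∑ c : ZMod p, (if T c = true then (1 : ZMod p) else 0) •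
        (1 - (ψ - c • (1 : Z → ZMod p)) ^ (p - 1)) := by
    funext z
    rw [Finset.sum_apply]
    simp only [Pi.smul_apply, Pi.sub_apply, Pi.one_apply, Pi.pow_apply, smul_eq_mul, mul_one,
      ind_pow, sub_eq_zero]
    rw [Finset.sum_eq_single (ψ z)]
    · simp
    · intro c _ hc
      rw [show (if ψ z = c then (1 : ZMod p) else 0) = 0 from if_neg fun h => hc h.symm,
        mul_zero]
    · intro h
      exact absurd (mem_univ _) h
  rw [e]
  exact Submodule.sum_mem _ fun c _ => Submodule.smul_mem _ _ (Submodule.sub_mem _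
    (one_mem_pw h1 _) (Submodule.pow_mem_pow A
      (Submodule.sub_mem _ hψ (Submodule.smul_mem _ _ h1)) _))

/-- Razborov-Smolensky: a circuit over functions which, after the substitution `Ψ`, lie in the
subspace `A` (which contains the constants) agrees with an element of a power of `A` outside a
small set. -/
theorem approx_gen {q : ℕ} [Fact q.Prime] {Z X : Type} [Fintype Z]
    (A : Submodule (ZMod q) (Z → ZMod q)) (h1 : (1 : Z → ZMod q) ∈ A) (Ψ : Z → X)
    (B : Set (X → Bool)) (hB : ∀ f ∈ B, (fun z => if f (Ψ z) = true then (1 : ZMod q) else 0) ∈ A)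
    (s d l : ℕ) (hl : 1 ≤ l) (f : X → Bool) (hf : f ∈ AC q B s d) :
    ∃ g ∈ A ^ (((q - 1) * l) ^ d),
      (univ.filter fun z => g z ≠ if f (Ψ z) = true then 1 else 0).card * 2 ^ l ≤
        (s + 1) ^ d * Fintype.card Z := by
  induction d generalizing f with
  | zero =>
    rw [pow_zero, pow_one, pow_zero, one_mul]
    refine ⟨_, hB f hf, ?_⟩
    have : (univ.filter fun z => (if f (Ψ z) = true then (1 : ZMod q) else 0) ≠
        if f (Ψ z) = true then 1 else 0) = ∅ := by
      rw [Finset.filter_eq_empty_iff]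
      intro z _ h
      exact h rfl
    rw [this]
    simp
  | succ d ih =>
    classical
    obtain ⟨t, g, ht, hg, hcase⟩ := hf
    choose G hG1 hG2 using fun i => ih (g i) (hg i)
    set a := ((q - 1) * l) ^ d with ha
    have ha' : ((q - 1) * l) ^ (d + 1) = a * ((q - 1) * l) := by
      rw [ha, pow_succ]
    have h1a : (1 : Z → ZMod q) ∈ A ^ a := one_mem_pw h1 _
    set Bad := univ.filter fun z => ¬ ∀ i, G i z = if g i (Ψ z) = true then 1 else 0 with hBad
    have hBd : Bad.card * 2 ^ l ≤ t * ((s + 1) ^ d * Fintype.card Z) := by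
      have hsub : Bad ⊆ (univ : Finset (Fin t)).biUnion fun i =>
          univ.filter fun z => G i z ≠ if g i (Ψ z) = true then 1 else 0 := by
        intro z hz
        rw [hBad, mem_filter] at hz
        have hz2 := hz.2
        push Not at hz2
        obtain ⟨i, hi⟩ := hz2
        rw [mem_biUnion]
        exact ⟨i, mem_univ _, mem_filter.2 ⟨mem_univ _, hi⟩⟩
      calc Bad.card * 2 ^ l ≤ (∑ i : Fin t,
            (univ.filter fun z => G i z ≠ if g i (Ψ z) = true then 1 else 0).card) * 2 ^ l :=
            Nat.mul_le_mul_right _ ((Finset.card_le_card hsub).trans Finset.card_biUnion_le)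
        _ = ∑ i : Fin t,
            (univ.filter fun z => G i z ≠ if g i (Ψ z) = true then 1 else 0).card * 2 ^ l :=
            Finset.sum_mul _ _ _
        _ ≤ ∑ _i : Fin t, (s + 1) ^ d * Fintype.card Z := Finset.sum_le_sum fun i _ => hG2 i
        _ = t * ((s + 1) ^ d * Fintype.card Z) := by
            rw [Finset.sum_const, card_univ, Fintype.card_fin, smul_eq_mul]
    -- the final count
    have fin : ∀ h : Z → ZMod q, (univ.filter fun z =>
        (∀ i, G i z = if g i (Ψ z) = true then 1 else 0) ∧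
          h z ≠ if f (Ψ z) = true then 1 else 0).card * 2 ^ l ≤ Fintype.card Z →
        (univ.filter fun z => h z ≠ if f (Ψ z) = true then 1 else 0).card * 2 ^ l ≤
          (s + 1) ^ (d + 1) * Fintype.card Z := by
      intro h hh
      have hsub : (univ.filter fun z => h z ≠ if f (Ψ z) = true then 1 else 0) ⊆
          Bad ∪ univ.filter fun z => (∀ i, G i z = if g i (Ψ z) = true then 1 else 0) ∧
            h z ≠ if f (Ψ z) = true then 1 else 0 := by
        intro z hz
        rw [mem_filter] at hz
        rw [mem_union, hBad, mem_filter, mem_filter]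
        by_cases hz2 : ∀ i, G i z = if g i (Ψ z) = true then 1 else 0
        · exact Or.inr ⟨mem_univ _, hz2, hz.2⟩
        · exact Or.inl ⟨mem_univ _, hz2⟩
      have h2 := (Finset.card_le_card hsub).trans (Finset.card_union_le _ _)
      have h3 : 1 ≤ (s + 1) ^ d := Nat.one_le_pow _ _ (Nat.succ_pos _)
      calc _ ≤ (Bad.card + (univ.filter fun z =>
            (∀ i, G i z = if g i (Ψ z) = true then 1 else 0) ∧
              h z ≠ if f (Ψ z) = true then 1 else 0).card) * 2 ^ l :=
            Nat.mul_le_mul_right _ h2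
        _ ≤ t * ((s + 1) ^ d * Fintype.card Z) + Fintype.card Z := by
            rw [add_mul]
            exact Nat.add_le_add hBd hh
        _ ≤ s * ((s + 1) ^ d * Fintype.card Z) + (s + 1) ^ d * Fintype.card Z := by
            refine Nat.add_le_add (Nat.mul_le_mul_right _ ht) ?_
            exact Nat.le_mul_of_pos_left _ h3
        _ = (s + 1) ^ (d + 1) * Fintype.card Z := by ring
    rcases hcase with hor | hand | ⟨c, hmod⟩
    · obtain ⟨h, hh, hc⟩ := or_gate h1a (fun i z => g i (Ψ z)) G hG1 l
      refine ⟨h, ?_, fin h ?_⟩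
      · rw [ha', pow_mul]; exact hh
      · refine le_trans (le_of_eq ?_) hc
        congr 2
        ext z
        rw [mem_filter, mem_filter]
        simp only [hor (Ψ z)]
    · obtain ⟨h, hh, hc⟩ := and_gate h1a (fun i z => g i (Ψ z)) G hG1 l
      refine ⟨h, ?_, fin h ?_⟩
      · rw [ha', pow_mul]; exact hh
      · refine le_trans (le_of_eq ?_) hc
        congr 2
        ext z
        rw [mem_filter, mem_filter]
        simp only [hand (Ψ z)]
    · obtain ⟨h, hh, hc⟩ := mod_gate h1a (fun i z => g i (Ψ z)) G hG1 c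
      refine ⟨h, ?_, fin h ?_⟩
      · rw [ha', ← mul_assoc, mul_comm (a * (q - 1)) l, mul_comm l, pow_mul, pow_mul]
        have : (A ^ a) ^ (q - 1) ≤ (A ^ a) ^ ((q - 1) * l) :=
          pw_mono h1a (Nat.le_mul_of_pos_right _ hl)
        rw [← pow_mul (A ^ a)]
        exact this hh
      · have : (univ.filter fun z => (∀ i, G i z = if g i (Ψ z) = true then 1 else 0) ∧
            h z ≠ if f (Ψ z) = true then 1 else 0) = ∅ := by
          rw [Finset.filter_eq_empty_iff]
          rintro z _ ⟨h4, h5⟩
          apply h5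
          rw [hc z h4]
          simp only [hmod (Ψ z)]
        rw [this]
        simp

/-- The same for words over `ZMod p`. -/
theorem approx {p : ℕ} [Fact p.Prime] {Z ι : Type} [Fintype Z]
    (A : Submodule (ZMod p) (Z → ZMod p)) (h1 : (1 : Z → ZMod p) ∈ A) (Ψ : Z → ι → ZMod p)
    (hΨ : ∀ i, (fun z => Ψ z i) ∈ A) (s d l : ℕ) (hl : 1 ≤ l) (f : (ι → ZMod p) → Bool)
    (hf : f ∈ AC p (lits p ι) s d) :
    ∃ g ∈ A ^ ((p - 1) * ((p - 1) * l) ^ d),
      (univ.filter fun z => g z ≠ if f (Ψ z) = true then 1 else 0).card * 2 ^ l ≤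
        (s + 1) ^ d * Fintype.card Z := by
  rw [pow_mul]
  refine approx_gen (A ^ (p - 1)) (one_mem_pw h1 _) Ψ (lits p ι) ?_ s d l hl f hf
  rintro f (⟨i, T, rfl⟩ | ⟨b, rfl⟩)
  · exact lit_mem h1 (hΨ i) T
  · have : (fun _ : Z => if b = true then (1 : ZMod p) else 0) =
        (if b = true then (1 : ZMod p) else 0) • (1 : Z → ZMod p) := by
      funext z
      rw [Pi.smul_apply, Pi.one_apply, smul_eq_mul, mul_one]
    rw [this]
    exact Submodule.smul_mem _ _ (one_mem_pw h1 _)

end Pool.Agent.PKEp
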