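import Pool.Agent.PKEp.EmbB

/-!
# The distance of the real and the lossy hybrid
-/

namespace Pool.Agent.PKEp

open Finset

set_option synthInstance.maxSize 5000

variable {p m : ℕ}

/-- All coins. -/
abbrev Om (p m mA : ℕ) : Type :=
  (St m → ZMod p) × (St m → St m → ZMod p) × (St m → ZMod p) × (Row m → St m → ZMod p) ×
    (Row m → ZMod p) × (St m → Row m → ZMod p) × (Option (Row m × St m) → ZMod p) ×
      (Fin mA → ZMod p)

/-- The view made from the program. -/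
noncomputable def vw {mA : ℕ} (h : ℕ) (b : ZMod p) (z : Finset (Fin m) × Om p m mA) :
    PKi m ⊕ CTi m → ZMod p :=
  view (WX z.1 z.2.1 z.2.2.1) (yX h z.1 z.2.1 z.2.2.1 z.2.2.2.1) z.2.2.2.2.1 z.2.2.2.2.2.1
    z.2.2.2.2.2.2.1 z.2.2.2.2.2.2.2.1 b

lemma vw_aff {mA : ℕ} (h : ℕ) (b : ZMod p) (ω : Om p m mA) (i : PKi m ⊕ CTi m) :
    (fun x => vw h b (x, ω) i) ∈ Aff p m :=
  view_aff h ω.1 ω.2.1 ω.2.2.1 ω.2.2.2.1 ω.2.2.2.2.1 ω.2.2.2.2.2.1 ω.2.2.2.2.2.2.1 b i

lemma hyb_card [NeZero p] (mA : ℕ) :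
    hyb (m := m) (0 : ZMod p) 0 (fun _ => ∑ _u : Fin mA → ZMod p, (1 : ℝ)) =
      Fintype.card (Om p m mA) := by
  have : (Fintype.card (Om p m mA) : ℝ) = ∑ _ω : Om p m mA, (1 : ℝ) := by
    rw [sum_const, card_univ, nsmul_eq_mul, mul_one]
  rw [this]
  unfold hyb
  simp only [Fintype.sum_prod_type]

lemma hyb_vw [NeZero p] (h : ℕ) (hm : h < m) (mA : ℕ) (b : ZMod p) (x : Finset (Fin m))
    (G : (PKi m ⊕ CTi m → ZMod p) → (Fin mA → ZMod p) → ℝ) :
    hyb (if h < x.card then 1 else 0) b (fun z => ∑ u, G z u) =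
      ∑ ω : Om p m mA, G (vw h b (x, ω)) ω.2.2.2.2.2.2.2 := by
  rw [hyb_X h hm x b]
  simp only [Fintype.sum_prod_type]
  rfl

/-- From the number of agreements to the distance of two averages. -/
theorem two_counts [Fact p.Prime] {Ω ι : Type} [Fintype Ω] (h s d l : ℕ) (hl : 1 ≤ l)
    (Ψ : Finset (Fin (2 * h + 1)) × Ω → ι → ZMod p)
    (haff : ∀ i ω, (fun x => Ψ (x, ω) i) ∈ Aff p (2 * h + 1)) (f : (ι → ZMod p) → Bool)
    (hf : f ∈ AC p (lits p ι) s d) (H0 H1 : ℝ)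
    (hx : ∀ x : Finset (Fin (2 * h + 1)),
      (∑ ω : Ω, if f (Ψ (x, ω)) = true then (1 : ℝ) else 0) = if h < x.card then H1 else H0) :
    |H0 - H1| ≤ 2 * ((((p - 1) * ((p - 1) * l) ^ d : ℕ) : ℝ) * ((2 * h + 1).choose h : ℝ) /
      2 ^ (2 * h + 1) + (((s + 1) ^ d : ℕ) : ℝ) / 2 ^ l) * Fintype.card Ω := by
  classical
  obtain ⟨c1, c2⟩ := count_bound h s d l hl Ψ haff f hf
  have hn : ∀ x : Finset (Fin (2 * h + 1)),
      (∑ ω : Ω, if ¬ f (Ψ (x, ω)) = true then (1 : ℝ) else 0) =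
      Fintype.card Ω - ∑ ω : Ω, if f (Ψ (x, ω)) = true then (1 : ℝ) else 0 := by
    intro x
    rw [eq_sub_iff_add_eq, ← sum_add_distrib]
    have : (Fintype.card Ω : ℝ) = ∑ _ω : Ω, (1 : ℝ) := by
      rw [sum_const, card_univ, nsmul_eq_mul, mul_one]
    rw [this]
    refine sum_congr rfl fun ω _ => ?_
    by_cases hc : f (Ψ (x, ω)) = true
    · rw [if_neg (not_not.2 hc), if_pos hc, zero_add]
    · rw [if_pos hc, if_neg hc, add_zero]
  have hmaj := maj_half h
  have hmaj' : (univ.filter fun x : Finset (Fin (2 * h + 1)) => ¬ h < x.card).card =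
      2 ^ (2 * h) := by
    have h2 := card_filter_add_card_filter_not (s := (univ : Finset (Finset (Fin (2 * h + 1)))))
      (fun x => h < x.card)
    rw [card_univ, Fintype.card_finset, Fintype.card_fin, hmaj, pow_succ] at h2
    omega
  have split : ∀ (F G : ℝ) (P : Finset (Fin (2 * h + 1)) × Ω → Prop) [DecidablePred P],
      (∀ x : Finset (Fin (2 * h + 1)), (∑ ω : Ω, if P (x, ω) then (1 : ℝ) else 0) =
        if h < x.card then F else G) →
      ((univ.filter fun z : Finset (Fin (2 * h + 1)) × Ω => P z).card : ℝ) =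
        2 ^ (2 * h) * F + 2 ^ (2 * h) * G := by
    intro F G P _ hP
    rw [← sum_boole, Fintype.sum_prod_type]
    simp only [hP]
    rw [sum_ite, sum_const, sum_const, hmaj, hmaj', nsmul_eq_mul, nsmul_eq_mul]
    push_cast
    ring
  have n1 := split H1 (Fintype.card Ω - H0)
    (fun z => (f (Ψ z) = true ↔ h < z.1.card)) (by
      intro x
      have := hx x
      by_cases hmx : h < x.card
      · rw [if_pos hmx] at this ⊢
        rw [← this]
        exact sum_congr rfl fun ω _ => if_congr (iff_true_right hmx) rfl rfl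
      · rw [if_neg hmx] at this ⊢
        rw [← this, ← hn x]
        exact sum_congr rfl fun ω _ => if_congr (iff_false_right hmx) rfl rfl)
  have n0 := split (Fintype.card Ω - H1) H0
    (fun z => ¬ (f (Ψ z) = true ↔ h < z.1.card)) (by
      intro x
      have := hx x
      by_cases hmx : h < x.card
      · rw [if_pos hmx] at this ⊢
        rw [← this, ← hn x]
        exact sum_congr rfl fun ω _ => if_congr (not_congr (iff_true_right hmx)) rfl rfl
      · rw [if_neg hmx] at this ⊢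
        rw [← this]
        exact sum_congr rfl fun ω _ => if_congr
          ((not_congr (iff_false_right hmx)).trans not_not) rfl rfl)
  have b1 : ((univ.filter fun z : Finset (Fin (2 * h + 1)) × Ω =>
      (f (Ψ z) = true ↔ h < z.1.card)).card : ℝ) * 2 ^ l ≤ Fintype.card Ω * (bd p h s d l : ℝ) := by
    exact_mod_cast c1
  have b0 : ((univ.filter fun z : Finset (Fin (2 * h + 1)) × Ω =>
      ¬ (f (Ψ z) = true ↔ h < z.1.card)).card : ℝ) * 2 ^ l ≤
      Fintype.card Ω * (bd p h s d l : ℝ) := by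
    exact_mod_cast c2
  rw [n1] at b1
  rw [n0] at b0
  have hbd : (bd p h s d l : ℝ) = (2 ^ (2 * h) + (((p - 1) * ((p - 1) * l) ^ d : ℕ) : ℝ) *
      ((2 * h + 1).choose h : ℝ)) * 2 ^ l + (((s + 1) ^ d : ℕ) : ℝ) * 2 ^ (2 * h + 1) := by
    unfold bd
    push_cast
    ring
  rw [hbd] at b1 b0
  generalize (((p - 1) * ((p - 1) * l) ^ d : ℕ) : ℝ) = DD at *
  generalize ((2 * h + 1).choose h : ℝ) = CC at *
  generalize (((s + 1) ^ d : ℕ) : ℝ) = SS at *
  generalize (Fintype.card Ω : ℝ) = O at *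
  have hp1 : (0 : ℝ) < 2 ^ (2 * h) := by positivity
  have hp2 : (0 : ℝ) < 2 ^ l := by positivity
  have key : ∀ y : ℝ, 2 ^ (2 * h) * y * 2 ^ l ≤
      O * (DD * CC * 2 ^ l + SS * 2 ^ (2 * h + 1)) →
      y ≤ 2 * (DD * CC / 2 ^ (2 * h + 1) + SS / 2 ^ l) * O := by
    intro y hy
    have e1 : 2 * (DD * CC / 2 ^ (2 * h + 1) + SS / 2 ^ l) * O =
        O * (DD * CC * 2 ^ l + SS * 2 ^ (2 * h + 1)) / (2 ^ (2 * h) * 2 ^ l) := by
      rw [pow_succ]
      field_simp
    rw [e1, le_div_iff₀ (by positivity)]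
    linarith
  rw [abs_le]
  constructor
  · have := key (H1 - H0) (by linear_combination b1)
    linarith
  · have := key (H0 - H1) (by linear_combination b0)
    linarith

theorem emb [Fact p.Prime] {ι : Type} (h mA s d l : ℕ) (hl : 1 ≤ l) (b : ZMod p)
    (inp : (PKi (2 * h + 1) ⊕ CTi (2 * h + 1) → ZMod p) → (Fin mA → ZMod p) → ι → ZMod p)
    (hinp : ∀ i, (∃ j, ∀ z u, inp z u i = z j) ∨ ∃ j, ∀ z u, inp z u i = u j)
    (f : (ι → ZMod p) → Bool) (hf : f ∈ AC p (lits p ι) s d) :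
    |hyb 0 b (fun z => ∑ u : Fin mA → ZMod p, if f (inp z u) = true then (1 : ℝ) else 0) -
      hyb 1 b (fun z => ∑ u : Fin mA → ZMod p, if f (inp z u) = true then (1 : ℝ) else 0)| ≤
    2 * ((((p - 1) * ((p - 1) * l) ^ d : ℕ) : ℝ) * ((2 * h + 1).choose h : ℝ) /
      2 ^ (2 * h + 1) + (((s + 1) ^ d : ℕ) : ℝ) / 2 ^ l) *
      hyb (m := 2 * h + 1) (0 : ZMod p) 0 (fun _ => ∑ _u : Fin mA → ZMod p, (1 : ℝ)) := by
  classical
  rw [hyb_card]
  refine two_counts (Ω := Om p (2 * h + 1) mA) h s d l hl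
    (fun z => inp (vw h b z) z.2.2.2.2.2.2.2.2) ?_ f hf _ _ ?_
  · intro i ω
    rcases hinp i with ⟨j, hj⟩ | ⟨j, hj⟩
    · simp only [hj]
      exact vw_aff h b ω j
    · simp only [hj]
      exact const_mem_Aff p _
  · intro x
    have := hyb_vw h (by omega) mA b x (fun z u => if f (inp z u) = true then (1 : ℝ) else 0)
    rw [← this]
    by_cases hmx : h < x.card
    · rw [if_pos hmx, if_pos hmx]
    · rw [if_neg hmx, if_neg hmx]

end Pool.Agent.PKEp
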