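import Pool.Agent.PKEp.Gen
import Pool.Agent.PKEp.EmbC
import Pool.Agent.PKEp.AlgB
import Pool.Agent.ACP.Zero
import Pool.Agent.ACS.Depth
import Pool.Agent.ACS.Guess
import Pool.Agent.ACS.Clos

/-!
# The parity of the labels along a path is the value of a layered program
-/

namespace Pool.Agent.PKEp

open Finset ACP

set_option synthInstance.maxSize 5000

variable {k N m : ℕ}

/-- The layer and the slot of a state, if it has them. -/
def dst (k N : ℕ) {m : ℕ} (q : St m) : Option (Fin (k + 1) × Fin N) :=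
  if h : q.1.1 < k + 1 ∧ q.2.1 < N then some (⟨q.1.1, h.1⟩, ⟨q.2.1, h.2⟩) else none

/-- The state of a layer and a slot. -/
def est (hk : k ≤ m) (hN : N ≤ m + 1) (y : Fin (k + 1) × Fin N) : St m :=
  (⟨y.1.1, lt_of_lt_of_le y.1.2 (Nat.succ_le_succ hk)⟩, ⟨y.2.1, lt_of_lt_of_le y.2.2 hN⟩)

lemma dst_est (hk : k ≤ m) (hN : N ≤ m + 1) (y : Fin (k + 1) × Fin N) :
    dst k N (est hk hN y) = some y := by
  unfold dst est
  rw [dif_pos ⟨y.1.2, y.2.2⟩]

lemma est_of_dst (hk : k ≤ m) (hN : N ≤ m + 1) {q : St m} {y : Fin (k + 1) × Fin N}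
    (h : dst k N q = some y) : q = est hk hN y := by
  unfold dst at h
  split_ifs at h with h1
  rw [Option.some.injEq] at h
  subst h
  rfl

lemma dst_fst {q : St m} {y : Fin (k + 1) × Fin N} (h : dst k N q = some y) : q.1.1 = y.1.1 := by
  unfold dst at h
  split_ifs at h with h1
  rw [Option.some.injEq] at h
  subst h
  rfl

/-- A sum over the states is a sum over layers and slots. -/
lemma sum_dst (hk : k ≤ m) (hN : N ≤ m + 1) (G : Fin (k + 1) × Fin N → ZMod 2) :
    ∑ q : St m, (dst k N q).elim 0 G = ∑ y, G y := by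
  symm
  refine Finset.sum_of_injOn (est hk hN) ?_ ?_ ?_ ?_
  · intro y _ y' _ h
    have h1 := dst_est hk hN y
    rw [h, dst_est hk hN y'] at h1
    exact (Option.some.inj h1).symm
  · intro y _
    exact mem_coe.2 (mem_univ _)
  · intro q _ hq
    cases hd : dst k N q with
    | none => rfl
    | some y =>
      exfalso
      apply hq
      rw [est_of_dst hk hN hd]
      exact ⟨y, mem_coe.2 (mem_univ _), rfl⟩
  · intro y _
    rw [dst_est]
    rfl

/-- The label as a number. -/
def lb (x : Inp k (Fin N)) (i : Fin (k + 1)) (u : Fin N) : ZMod 2 := if x.2 i u = true then 1 else 0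

/-- There is an edge from `y` to `y'`. -/
def edg (x : Inp k (Fin N)) (y y' : Fin (k + 1) × Fin N) : Prop :=
  y'.1.1 = y.1.1 + 1 ∧ (x.1 y'.1).symm y'.2 = (x.1 y.1).symm y.2

instance (x : Inp k (Fin N)) (y y' : Fin (k + 1) × Fin N) : Decidable (edg x y y') := by
  unfold edg; infer_instance

/-- The matrix of the program. -/
def cU (x : Inp k (Fin N)) (q q' : St m) : ZMod 2 :=
  (if q = q' then 1 else 0) -
    (dst k N q).elim 0 fun y => (dst k N q').elim 0 fun y' => if edg x y y' then 1 else 0

/-- The right hand side. -/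
def cu (x : Inp k (Fin N)) (q : St m) : ZMod 2 := (dst k N q).elim 0 fun y => lb x y.1 y.2

/-- The start. -/
def ca (j : Fin N) (x : Inp k (Fin N)) (q : St m) : ZMod 2 :=
  (dst k N q).elim 0 fun y => if y.1 = 0 ∧ y.2 = x.1 0 j then 1 else 0

/-- The parity of the labels on the path with name `ν` from layer `i` on. -/
def wN (x : Inp k (Fin N)) (i : ℕ) (ν : Fin N) : ZMod 2 :=
  ∑ i' : Fin (k + 1), if i ≤ i'.1 then lb x i' (x.1 i' ν) else 0

/-- The solution. -/
def cw (x : Inp k (Fin N)) (q : St m) : ZMod 2 :=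
  (dst k N q).elim 0 fun y => wN x y.1.1 ((x.1 y.1).symm y.2)

lemma wN_succ (x : Inp k (Fin N)) (i : Fin (k + 1)) (ν : Fin N) :
    wN x i.1 ν = lb x i (x.1 i ν) + wN x (i.1 + 1) ν := by
  unfold wN
  have h1 : ∀ i' : Fin (k + 1), (if i.1 ≤ i'.1 then lb x i' (x.1 i' ν) else 0) =
      (if i' = i then lb x i (x.1 i ν) else 0) +
        (if i.1 + 1 ≤ i'.1 then lb x i' (x.1 i' ν) else 0) := by
    intro i'
    by_cases h2 : i' = i
    · subst h2
      rw [if_pos le_rfl, if_pos rfl, if_neg (by omega), add_zero]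
    · have h3 : i'.1 ≠ i.1 := fun h => h2 (Fin.ext h)
      rw [if_neg h2, zero_add]
      by_cases h4 : i.1 ≤ i'.1
      · rw [if_pos h4, if_pos (by omega)]
      · rw [if_neg h4, if_neg (by omega)]
  rw [sum_congr rfl fun i' _ => h1 i', sum_add_distrib, sum_ite_eq' univ i, if_pos (mem_univ _)]

lemma wN_last (x : Inp k (Fin N)) (ν : Fin N) {i : ℕ} (hi : k + 1 ≤ i) : wN x i ν = 0 := by
  unfold wN
  refine sum_eq_zero fun i' _ => if_neg ?_
  have := i'.2
  omega

theorem cU_cw (hk : k ≤ m) (hN : N ≤ m + 1) (x : Inp k (Fin N)) (q : St m) :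
    ∑ q', cU x q q' * cw x q' = cu x q := by
  unfold cU
  simp only [sub_mul, sum_sub_distrib, ite_mul, one_mul, zero_mul, sum_ite_eq, mem_univ, if_true]
  cases hd : dst k N q with
  | none =>
    simp only [Option.elim_none, zero_mul, sum_const_zero, sub_zero]
    unfold cw cu
    rw [hd]
    rfl
  | some y =>
    simp only [Option.elim_some]
    set ν := (x.1 y.1).symm y.2 with hν
    have hcw : cw x q = wN x y.1.1 ν := by
      unfold cw
      rw [hd]
      rfl
    have hcu : cu x q = lb x y.1 y.2 := by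
      unfold cu
      rw [hd]
      rfl
    have h1 : ∀ q' : St m, ((dst k N q').elim 0 fun y' => if edg x y y' then (1 : ZMod 2) else 0) *
        cw x q' = (dst k N q').elim 0 fun y' =>
          if edg x y y' then wN x y'.1.1 ((x.1 y'.1).symm y'.2) else 0 := by
      intro q'
      unfold cw
      cases dst k N q' with
      | none => simp
      | some y' => simp
    rw [sum_congr rfl fun q' _ => h1 q', sum_dst hk hN, Fintype.sum_prod_type]
    have h2 : ∀ i' : Fin (k + 1), (∑ u' : Fin N, if edg x y (i', u') then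
        wN x i'.1 ((x.1 i').symm u') else 0) =
        if i'.1 = y.1.1 + 1 then wN x i'.1 ν else 0 := by
      intro i'
      by_cases h3 : i'.1 = y.1.1 + 1
      · rw [if_pos h3, sum_eq_single (x.1 i' ν)]
        · have h4 : edg x y (i', x.1 i' ν) := ⟨h3, Equiv.symm_apply_apply _ _⟩
          rw [if_pos h4, Equiv.symm_apply_apply]
        · intro u' _ hne
          refine if_neg fun h4 => hne ?_
          have h5 : (x.1 i').symm u' = ν := h4.2
          rw [← h5, Equiv.apply_symm_apply]
        · intro h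
          exact absurd (mem_univ _) h
      · rw [if_neg h3]
        exact sum_eq_zero fun u' _ => if_neg fun h4 => h3 h4.1
    rw [sum_congr rfl fun i' _ => h2 i', hcw, hcu, wN_succ x y.1 ν]
    have h3 : x.1 y.1 ν = y.2 := Equiv.apply_symm_apply _ _
    rw [h3]
    by_cases h4 : y.1.1 + 1 < k + 1
    · rw [sum_eq_single (⟨y.1.1 + 1, h4⟩ : Fin (k + 1))]
      · rw [if_pos rfl]
        ring
      · intro i' _ hne
        exact if_neg fun h => hne (Fin.ext h)
      · intro h
        exact absurd (mem_univ _) h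
    · rw [sum_eq_zero, wN_last x ν (by omega)]
      · ring
      · intro i' _
        refine if_neg fun h => h4 ?_
        have := i'.2
        omega

/-- The value of the program. -/
def cpar (j : Fin N) (x : Inp k (Fin N)) : ZMod 2 := ∑ i : Fin (k + 1), lb x i (x.1 i j)

theorem ca_cw (hk : k ≤ m) (hN : N ≤ m + 1) (j : Fin N) (x : Inp k (Fin N)) :
    ∑ q : St m, ca j x q * cw x q = cpar j x := by
  have h1 : ∀ q : St m, ca j x q * cw x q = (dst k N q).elim 0 fun y =>
      if y.1 = 0 ∧ y.2 = x.1 0 j then wN x y.1.1 ((x.1 y.1).symm y.2) else 0 := by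
    intro q
    unfold ca cw
    cases dst k N q with
    | none => simp
    | some y => simp
  rw [sum_congr rfl fun q _ => h1 q, sum_dst hk hN, sum_eq_single ((0, x.1 0 j) : Fin (k + 1) × Fin N)]
  · rw [if_pos ⟨rfl, rfl⟩, Equiv.symm_apply_apply]
    unfold wN cpar
    refine sum_congr rfl fun i _ => if_pos ?_
    exact Nat.zero_le _
  · rintro ⟨i, u⟩ _ hne
    refine if_neg ?_
    rintro ⟨h2, h3⟩
    exact hne (Prod.ext h2 h3)
  · intro h
    exact absurd (mem_univ _) h

theorem cU_tri (x : Inp k (Fin N)) : Tri (cU x : St m → St m → ZMod 2) := by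
  constructor
  · intro q
    unfold cU
    rw [if_pos rfl]
    cases hd : dst k N q with
    | none => simp
    | some y =>
      have : ¬ edg x y y := fun h => by
        have := h.1
        omega
      simp [this]
  · intro q q' h hne
    unfold cU
    rw [if_neg hne]
    cases hd : dst k N q with
    | none => simp
    | some y =>
      cases hd' : dst k N q' with
      | none => simp
      | some y' =>
        have : ¬ edg x y y' := fun h' => by
          apply h
          rw [Fin.lt_def, dst_fst hd, dst_fst hd', h'.1]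
          omega
        simp [this]

lemma chi_cpar (j : Fin N) (x : Inp k (Fin N)) : chi j x = if cpar j x = 0 then 1 else -1 := by
  unfold chi cpar
  have key : ∀ S : Finset (Fin (k + 1)), (∏ i ∈ S, (if x.2 i (x.1 i j) = true then (-1 : ℝ) else 1)) =
      if ∑ i ∈ S, lb x i (x.1 i j) = 0 then 1 else -1 := by
    intro S
    induction S using Finset.induction_on with
    | empty => simp
    | insert a S ha ih =>
      rw [prod_insert ha, sum_insert ha, ih]
      unfold lb
      have h01 : ∀ z : ZMod 2, z = 0 ∨ z = 1 := by decide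
      rcases h01 (∑ i ∈ S, if x.2 i (x.1 i j) = true then (1 : ZMod 2) else 0) with h | h
      · rw [h]
        by_cases h2 : x.2 a (x.1 a j) = true
        · simp [h2]
        · simp [h2]
      · rw [h]
        by_cases h2 : x.2 a (x.1 a j) = true
        · have : (1 : ZMod 2) + 1 = 0 := by decide
          simp [h2, this]
        · simp [h2]
  exact key univ

/-! ### Every position of the view is a decision tree of depth two -/

lemma sdt_two {V : Type} (j : V) (q1 q2 : Qry k V) (f : Inp k V → Bool)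
    (h : ∀ x x', x.1 0 j = x'.1 0 j → ans x q1 = ans x' q1 → ans x q2 = ans x' q2 →
      f x = f x') : f ∈ SDT k V j 2 := by
  classical
  let G : V → V ⊕ Bool → V ⊕ Bool → Bool := fun u a1 a2 =>
    if hx : ∃ x : Inp k V, x.1 0 j = u ∧ ans x q1 = a1 ∧ ans x q2 = a2 then f hx.choose else false
  refine ⟨fun u x => G u (ans x q1) (ans x q2), fun u => ?_, fun x => ?_⟩
  · refine Or.inr ⟨q1, fun a1 x => G u a1 (ans x q2), fun a1 => ?_, fun x => rfl⟩
    exact Or.inr ⟨q2, fun a2 _ => G u a1 a2, fun a2 => ⟨G u a1 a2, fun _ => rfl⟩, fun x => rfl⟩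
  · have hx : ∃ x' : Inp k V, x'.1 0 j = x.1 0 j ∧ ans x' q1 = ans x q1 ∧ ans x' q2 = ans x q2 :=
      ⟨x, rfl, rfl, rfl⟩
    change f x = if hx : ∃ x' : Inp k V, x'.1 0 j = x.1 0 j ∧ ans x' q1 = ans x q1 ∧
      ans x' q2 = ans x q2 then f hx.choose else false
    rw [dif_pos hx]
    obtain ⟨h1, h2, h3⟩ := hx.choose_spec
    exact (h _ _ h1 h2 h3).symm

/-- The two queries for a column. -/
def q1 (y : Fin (k + 1) × Fin N) : Qry k (Fin N) :=
  if h : y.1.1 = 0 then Qry.lab y.1 y.2 else Qry.inn ⟨y.1.1 - 1, by have := y.1.2; omega⟩ y.2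

/-- The second query. -/
def q2 (y : Fin (k + 1) × Fin N) : Qry k (Fin N) := Qry.lab y.1 y.2

lemma ans_q2 {x x' : Inp k (Fin N)} {y : Fin (k + 1) × Fin N} (h : ans x (q2 y) = ans x' (q2 y)) :
    x.2 y.1 y.2 = x'.2 y.1 y.2 := Sum.inr.inj h

lemma ans_q1 {x x' : Inp k (Fin N)} {y : Fin (k + 1) × Fin N} (h : ans x (q1 y) = ans x' (q1 y))
    (z : Fin (k + 1) × Fin N) : edg x z y ↔ edg x' z y := by
  unfold edg
  by_cases h0 : y.1.1 = z.1.1 + 1
  · have h1 : y.1.1 ≠ 0 := by omega
    unfold q1 at h
    rw [dif_neg h1] at h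
    have h2 := Sum.inl.inj h
    have e1 : (Fin.castSucc ⟨y.1.1 - 1, by have := y.1.2; omega⟩ : Fin (k + 1)) = z.1 := by
      apply Fin.ext
      simp only [Fin.val_castSucc]
      omega
    have e2 : (Fin.succ ⟨y.1.1 - 1, by have := y.1.2; omega⟩ : Fin (k + 1)) = y.1 := by
      apply Fin.ext
      simp only [Fin.val_succ]
      omega
    rw [e1, e2] at h2
    constructor
    · rintro ⟨_, h3⟩
      refine ⟨h0, ?_⟩
      rw [h3, Equiv.apply_symm_apply] at h2
      rw [h2, Equiv.symm_apply_apply]
    · rintro ⟨_, h3⟩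
      refine ⟨h0, ?_⟩
      rw [h3, Equiv.apply_symm_apply] at h2
      rw [← h2, Equiv.symm_apply_apply]
  · constructor
    · rintro ⟨h1, _⟩
      exact absurd h1 h0
    · rintro ⟨h1, _⟩
      exact absurd h1 h0

/-- The view as a function of the input of the parity. -/
noncomputable def cview (j : Fin N) (x : Inp k (Fin N)) (s : St m → ZMod 2)
    (v : St m → St m → ZMod 2) (t : St m → ZMod 2) (ρ : Row m → St m → ZMod 2)
    (r : Row m → ZMod 2) (σ : St m → Row m → ZMod 2) (τ : Option (Row m × St m) → ZMod 2)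
    (b : ZMod 2) : PKi m ⊕ CTi m → ZMod 2 :=
  lview (ca j x) (cU x) (cu x) s v t ρ r σ τ b

theorem cview_sdt (j : Fin N) (s : St m → ZMod 2)
    (v : St m → St m → ZMod 2) (t : St m → ZMod 2) (ρ : Row m → St m → ZMod 2)
    (r : Row m → ZMod 2) (σ : St m → Row m → ZMod 2) (τ : Option (Row m × St m) → ZMod 2)
    (b : ZMod 2) (i : PKi m ⊕ CTi m) (F : ZMod 2 → Bool) :
    (fun x : Inp k (Fin N) => F (cview j x s v t ρ r σ τ b i)) ∈ SDT k (Fin N) j 2 := by
  have hq : ∃ y : Fin (k + 1) × Fin N, ∀ j' ∈ colOf i, ∀ y', dst k N j' = some y' → y' = y := by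
    have y0 : Fin (k + 1) × Fin N := (0, j)
    cases hc : colOf i with
    | none => exact ⟨y0, fun j' hj' => absurd hj' (by simp)⟩
    | some j1 =>
      cases hd : dst k N j1 with
      | none =>
        refine ⟨y0, fun j' hj' y' hy' => ?_⟩
        rw [Option.mem_def, Option.some.injEq] at hj'
        rw [← hj', hd] at hy'
        exact absurd hy' (by simp)
      | some y =>
        refine ⟨y, fun j' hj' y' hy' => ?_⟩
        rw [Option.mem_def, Option.some.injEq] at hj'
        rw [← hj', hd, Option.some.injEq] at hy'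
        exact hy'.symm
  obtain ⟨y, hy⟩ := hq
  refine sdt_two j (q1 y) (q2 y) _ fun x x' h0 h1 h2 => ?_
  unfold cview
  rw [lview_congr i (fun j' hj' => ?_)]
  cases hd : dst k N j' with
  | none =>
    refine ⟨?_, ?_, fun q => ?_⟩
    · unfold ca; rw [hd]; rfl
    · unfold cu; rw [hd]; rfl
    · unfold cU; rw [hd]; rfl
  | some y' =>
    have hyy := hy j' hj' y' hd
    subst hyy
    refine ⟨?_, ?_, fun q => ?_⟩
    · unfold ca; rw [hd, h0]
    · unfold cu lb; rw [hd]
      simp only [Option.elim_some]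
      rw [ans_q2 h2]
    · unfold cU; rw [hd]
      congr 1
      cases dst k N q with
      | none => rfl
      | some z =>
        simp only [Option.elim_some]
        by_cases h3 : edg x z y'
        · rw [if_pos h3, if_pos ((ans_q1 h1 z).1 h3)]
        · rw [if_neg h3, if_neg (fun h4 => h3 ((ans_q1 h1 z).2 h4))]

end Pool.Agent.PKEp
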