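import Mathlib

/-!
# The final numbers
-/

namespace Pool.Agent.PKEp

lemma num_polylog (C A B d : ℕ) : ∃ n₀ : ℕ, ∀ n ≥ n₀, C * (A + B * Nat.log 2 n) ^ d ≤ n := by
  have h := (Real.isLittleO_pow_log_id_atTop (n := d))
  set c : ℝ := 1 / ((C : ℝ) * (A + 2 * B) ^ d + 1) with hc
  have hden : 0 < (C : ℝ) * (A + 2 * B) ^ d + 1 := by positivity
  have hcpos : 0 < c := by
    rw [hc]
    positivity
  have h1 := (h.def hcpos)
  have h2 := tendsto_natCast_atTop_atTop (R := ℝ) |>.eventually h1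
  have h3 : ∀ᶠ n : ℕ in Filter.atTop, 3 ≤ n := Filter.eventually_ge_atTop 3
  obtain ⟨n₀, hn₀⟩ := Filter.eventually_atTop.1 (h2.and h3)
  refine ⟨n₀, fun n hn => ?_⟩
  obtain ⟨h4, h5⟩ := hn₀ n hn
  have hnpos : (0 : ℝ) < n := by
    have : (3 : ℝ) ≤ n := by exact_mod_cast h5
    linarith
  have hlog1 : 1 ≤ Real.log n := by
    rw [Real.le_log_iff_exp_le hnpos]
    have h6 : Real.exp 1 < 3 := by
      have := Real.exp_one_lt_d9
      linarith
    have h7 : (3 : ℝ) ≤ n := by exact_mod_cast h5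
    linarith
  have hlog2 : (Nat.log 2 n : ℝ) ≤ 2 * Real.log n := by
    have h6 : (Nat.log 2 n : ℝ) ≤ Real.logb 2 n := by
      have := Real.natLog_le_logb n 2
      exact_mod_cast this
    have h7 : Real.logb 2 n = Real.log n / Real.log 2 := rfl
    rw [h7] at h6
    have h8 : (1 : ℝ) / 2 ≤ Real.log 2 := by
      have := Real.log_two_gt_d9
      linarith
    have h9 : Real.log n / Real.log 2 ≤ Real.log n / (1 / 2) :=
      div_le_div_of_nonneg_left (by linarith) (by norm_num) h8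
    calc (Nat.log 2 n : ℝ) ≤ Real.log n / Real.log 2 := h6
      _ ≤ Real.log n / (1 / 2) := h9
      _ = 2 * Real.log n := by ring
  have h10 : ((A : ℝ) + B * Nat.log 2 n) ≤ (A + 2 * B) * Real.log n := by
    have hA : (A : ℝ) ≤ A * Real.log n := le_mul_of_one_le_right (by positivity) hlog1
    have hB : (B : ℝ) * Nat.log 2 n ≤ B * (2 * Real.log n) :=
      mul_le_mul_of_nonneg_left hlog2 (by positivity)
    nlinarith
  have h11 : ((A : ℝ) + B * Nat.log 2 n) ^ d ≤ ((A + 2 * B) * Real.log n) ^ d :=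
    pow_le_pow_left₀ (by positivity) h10 d
  have h12 : Real.log n ^ d ≤ c * n := by
    have : ‖Real.log n ^ d‖ = Real.log n ^ d := by
      rw [Real.norm_of_nonneg]
      positivity
    have h13 : ‖(id (n : ℝ) : ℝ)‖ = n := by
      rw [id, Real.norm_of_nonneg]
      positivity
    rw [this, h13] at h4
    exact h4
  have h14 : (C : ℝ) * ((A : ℝ) + B * Nat.log 2 n) ^ d ≤ n := by
    calc (C : ℝ) * ((A : ℝ) + B * Nat.log 2 n) ^ d
        ≤ C * (((A + 2 * B) * Real.log n) ^ d) := mul_le_mul_of_nonneg_left h11 (by positivity)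
      _ = (C * (A + 2 * B) ^ d) * Real.log n ^ d := by rw [mul_pow]; ring
      _ ≤ (C * (A + 2 * B) ^ d) * (c * n) := mul_le_mul_of_nonneg_left h12 (by positivity)
      _ ≤ ((C : ℝ) * (A + 2 * B) ^ d + 1) * (c * n) := by
          apply mul_le_mul_of_nonneg_right _ (by positivity)
          linarith
      _ = n := by
          rw [hc]
          field_simp
  exact_mod_cast h14

/-- The choice of the number `l` of rounds. Here `h = n ^ (2 e + 2)`, the fan-in is `2 ^ k`. -/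
theorem num (p d e : ℕ) (hp : 2 ≤ p) : ∃ n₀ : ℕ, ∀ n ≥ n₀, ∀ k : ℕ, k ^ (2 * d) ≤ n →
    ∃ l : ℕ, 1 ≤ l ∧
      4 * ((((p - 1) * ((p - 1) * l) ^ d : ℕ) : ℝ) / Real.sqrt (2 * (n ^ (2 * e + 2) : ℕ) + 3) +
        (((2 ^ k + 1) ^ d : ℕ) : ℝ) / 2 ^ l) ≤ 1 / (n : ℝ) ^ e := by
  set P := (p - 1) * (p - 1) ^ d with hP
  obtain ⟨n₁, hn₁⟩ := num_polylog (16 * P * 2 ^ d) (d + 3 + e) e d
  refine ⟨n₁ + (32 * P * 2 ^ d * (d ^ d + 1)) ^ 2 + 1, fun n hn k hk => ?_⟩
  have hna : n₁ ≤ n := by omega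
  have hnb : (32 * P * 2 ^ d * (d ^ d + 1)) ^ 2 ≤ n := by omega
  have hnc : 1 ≤ n := by omega
  set L := 3 + e * (Nat.log 2 n + 1) with hL
  refine ⟨(k + 1) * d + L, by omega, ?_⟩
  set l := (k + 1) * d + L with hl
  have hnpos : (0 : ℝ) < n := by exact_mod_cast hnc
  -- the second term
  have h1 : (2 ^ k + 1) ^ d ≤ 2 ^ ((k + 1) * d) := by
    rw [pow_mul]
    apply Nat.pow_le_pow_left
    have : 1 ≤ 2 ^ k := Nat.one_le_two_pow
    rw [pow_succ]
    omega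
  have h2 : 8 * n ^ e ≤ 2 ^ L := by
    have h3 : n ≤ 2 ^ (Nat.log 2 n + 1) := (Nat.lt_pow_succ_log_self (by norm_num) n).le
    calc 8 * n ^ e ≤ 2 ^ 3 * (2 ^ (Nat.log 2 n + 1)) ^ e :=
          Nat.mul_le_mul (by norm_num) (Nat.pow_le_pow_left h3 e)
      _ = 2 ^ L := by
          rw [hL, pow_add 2 3, ← pow_mul 2 (Nat.log 2 n + 1) e, mul_comm e]
  have h3 : (((2 ^ k + 1) ^ d : ℕ) : ℝ) / 2 ^ l ≤ 1 / (8 * (n : ℝ) ^ e) := by
    rw [div_le_div_iff₀ (by positivity) (by positivity)]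
    have : (2 ^ k + 1) ^ d * (8 * n ^ e) ≤ 1 * 2 ^ l := by
      rw [one_mul, hl, pow_add]
      exact Nat.mul_le_mul h1 h2
    exact_mod_cast this
  -- the first term
  have h4 : l ^ d ≤ 2 ^ d * ((d * k) ^ d + (d + 3 + e + e * Nat.log 2 n) ^ d) := by
    have h5 : l = d * k + (d + 3 + e + e * Nat.log 2 n) := by
      rw [hl, hL]
      ring
    rw [h5]
    set a := d * k
    set b := d + 3 + e + e * Nat.log 2 n
    rcases le_total a b with h6 | h6
    · calc (a + b) ^ d ≤ (2 * b) ^ d := Nat.pow_le_pow_left (by omega) d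
        _ = 2 ^ d * b ^ d := mul_pow _ _ _
        _ ≤ _ := Nat.mul_le_mul_left _ (Nat.le_add_left _ _)
    · calc (a + b) ^ d ≤ (2 * a) ^ d := Nat.pow_le_pow_left (by omega) d
        _ = 2 ^ d * a ^ d := mul_pow _ _ _
        _ ≤ _ := Nat.mul_le_mul_left _ (Nat.le_add_right _ _)
  have h7 : k ^ d ≤ Nat.sqrt n := by
    rw [Nat.le_sqrt, ← pow_two, ← pow_mul, mul_comm d 2]
    exact hk
  have h8 : 32 * P * 2 ^ d * (d ^ d + 1) ≤ Nat.sqrt n := by
    rw [Nat.le_sqrt, ← pow_two]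
    exact hnb
  have h9 : Nat.sqrt n * Nat.sqrt n ≤ n := Nat.sqrt_le n
  have h10 : 16 * P * 2 ^ d * (d * k) ^ d * 2 ≤ n := by
    calc 16 * P * 2 ^ d * (d * k) ^ d * 2 = (32 * P * 2 ^ d * d ^ d) * k ^ d := by
          rw [mul_pow]; ring
      _ ≤ (32 * P * 2 ^ d * (d ^ d + 1)) * k ^ d :=
          Nat.mul_le_mul_right _ (Nat.mul_le_mul_left _ (Nat.le_succ _))
      _ ≤ Nat.sqrt n * Nat.sqrt n := Nat.mul_le_mul h8 h7
      _ ≤ n := h9
  have h11 := hn₁ n hna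
  have h12 : 8 * P * l ^ d ≤ n := by
    have h13 : 8 * P * l ^ d ≤ 8 * P * (2 ^ d * ((d * k) ^ d +
        (d + 3 + e + e * Nat.log 2 n) ^ d)) := Nat.mul_le_mul_left _ h4
    nlinarith
  have h14 : (n : ℝ) ^ (e + 1) ≤ Real.sqrt (2 * (n ^ (2 * e + 2) : ℕ) + 3) := by
    apply Real.le_sqrt_of_sq_le
    push_cast
    rw [← pow_mul, show (e + 1) * 2 = 2 * e + 2 by ring]
    have : (0 : ℝ) ≤ (n : ℝ) ^ (2 * e + 2) := by positivity
    linarith
  have h15 : (((p - 1) * ((p - 1) * l) ^ d : ℕ) : ℝ) / Real.sqrt (2 * (n ^ (2 * e + 2) : ℕ) + 3)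
      ≤ 1 / (8 * (n : ℝ) ^ e) := by
    have h16 : (p - 1) * ((p - 1) * l) ^ d = P * l ^ d := by
      rw [hP, mul_pow]
      ring
    rw [h16]
    calc ((P * l ^ d : ℕ) : ℝ) / Real.sqrt (2 * (n ^ (2 * e + 2) : ℕ) + 3)
        ≤ ((P * l ^ d : ℕ) : ℝ) / (n : ℝ) ^ (e + 1) :=
          div_le_div_of_nonneg_left (by positivity) (by positivity) h14
      _ ≤ 1 / (8 * (n : ℝ) ^ e) := by
          rw [div_le_div_iff₀ (by positivity) (by positivity)]
          have h17 : (P * l ^ d) * (8 * n ^ e) ≤ 1 * n ^ (e + 1) := by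
            calc (P * l ^ d) * (8 * n ^ e) = (8 * P * l ^ d) * n ^ e := by ring
              _ ≤ n * n ^ e := Nat.mul_le_mul_right _ h12
              _ = 1 * n ^ (e + 1) := by ring
          exact_mod_cast h17
  have h18 : 4 * (1 / (8 * (n : ℝ) ^ e) + 1 / (8 * (n : ℝ) ^ e)) = 1 / (n : ℝ) ^ e := by
    field_simp
    norm_num
  rw [← h18]
  linarith

end Pool.Agent.PKEp
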