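import Pool.Agent.PKEp.Chi
import Pool.Agent.PKEp.Num

/-!
# Security of the key against constant-depth circuits with few symmetric gates
-/

namespace Pool.Agent.PKEp

open Finset ACP ACS

set_option synthInstance.maxSize 5000

lemma sdt_const {k : ℕ} {V : Type} (j : V) (b : Bool) : (fun _ : Inp k V => b) ∈ SDT k V j 2 :=
  ⟨fun _ _ => b, fun _ => Or.inl (Or.inl ⟨b, fun _ => rfl⟩), fun _ => rfl⟩

/-- The correlations. -/
theorem corr2 (c d e : ℕ) : ∃ n₀ : ℕ, ∀ n ≥ n₀,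
    ∀ f ∈ SyAC (SDT n (Fin (n + 1)) 0 2) ((n + 1) ^ (2 * c + 2)) d (c * Nat.log 2 n),
      |∑ x, chi (0 : Fin (n + 1)) x * (if f x = true then (1 : ℝ) else 0)| ≤
        1 / ((n + 1 : ℕ) : ℝ) ^ e * Fintype.card (Inp n (Fin (n + 1))) := by
  classical
  obtain ⟨κ, n₁, hcorr⟩ := corrS d 2 (2 * c + 2) (e + c)
  obtain ⟨n₂, hn₂⟩ := num_polylog κ 2 c 1
  refine ⟨n₁ + n₂ + 1, fun n hn f hf => ?_⟩
  have hn1 : 1 ≤ n := by omega
  have hk : κ * (c * Nat.log 2 n + 1 + 1) ≤ n := by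
    have := hn₂ n (by omega)
    rw [pow_one] at this
    calc κ * (c * Nat.log 2 n + 1 + 1) = κ * (2 + c * Nat.log 2 n) := by ring
      _ ≤ n := this
  have hM : c * Nat.log 2 n + 1 ≤ (n + 1) ^ (2 * c + 2) := by
    have h3 : Nat.log 2 n ≤ n := Nat.log_le_self 2 n
    have h4 : c ≤ (n + 1) ^ c := by
      have : c ≤ 2 ^ c := Nat.lt_two_pow_self.le
      exact this.trans (Nat.pow_le_pow_left (by omega) c)
    have h5 : c * Nat.log 2 n + 1 ≤ (n + 1) ^ (c + 1) := by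
      have h6 : c * Nat.log 2 n ≤ (n + 1) ^ c * n := Nat.mul_le_mul h4 h3
      have h7 : 1 ≤ (n + 1) ^ c := Nat.one_le_pow _ _ (by omega)
      rw [pow_succ, mul_add, mul_one]
      omega
    exact h5.trans (Nat.pow_le_pow_right (by omega) (by omega))
  have hs1 : 1 ≤ (n + 1) ^ (2 * c + 2) := Nat.one_le_pow _ _ (by omega)
  obtain ⟨P, hP, hPf⟩ := SyAC_guess hs1 (sdt_const (0 : Fin (n + 1))) hf
  have hpos : (0 : ℝ) < ((n + 1 : ℕ) : ℝ) := by positivity
  have h3 : ∀ γ, |∑ x, chi (0 : Fin (n + 1)) x * (if P γ x = true then (1 : ℝ) else 0)| ≤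
      1 / ((n + 1 : ℕ) : ℝ) ^ (e + c) * Fintype.card (Inp n (Fin (n + 1))) := by
    intro γ
    have h4 := hcorr (n + 1) (by omega) n _ hk hM _ le_rfl 0 _ (hP γ)
    rw [div_mul_eq_mul_div, one_mul, le_div_iff₀ (by positivity)]
    convert h4
  have h4 : ∑ x, chi (0 : Fin (n + 1)) x * (if f x = true then (1 : ℝ) else 0) =
      ∑ γ, ∑ x, chi (0 : Fin (n + 1)) x * (if P γ x = true then (1 : ℝ) else 0) := by
    rw [Finset.sum_comm]
    refine Finset.sum_congr rfl fun x _ => ?_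
    rw [hPf, Finset.mul_sum]
  rw [h4]
  refine (Finset.abs_sum_le_sum_abs _ _).trans ((Finset.sum_le_sum fun γ _ => h3 γ).trans ?_)
  rw [Finset.sum_const, Finset.card_univ, nsmul_eq_mul, Fintype.card_fun, Fintype.card_bool,
    Fintype.card_fin, ← mul_assoc]
  refine mul_le_mul_of_nonneg_right ?_ (Nat.cast_nonneg _)
  have h5 : ((2 ^ (c * Nat.log 2 n) : ℕ) : ℝ) ≤ ((n + 1 : ℕ) : ℝ) ^ c := by
    have h6 : 2 ^ (c * Nat.log 2 n) ≤ (n + 1) ^ c := by
      rw [mul_comm, pow_mul]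
      exact Nat.pow_le_pow_left ((Nat.pow_log_le_self 2 (by omega)).trans (by omega)) c
    exact_mod_cast h6
  rw [mul_one_div, div_le_div_iff₀ (by positivity) (by positivity), one_mul, pow_add, mul_comm]
  exact mul_le_mul_of_nonneg_left h5 (by positivity)

/-- The bits of the adversary's input, as functions of the input of the parity. -/
noncomputable def cphi {k N m mA : ℕ} {ι : Type} (j : Fin N)
    (inp : (PKi m ⊕ CTi m → ZMod 2) → (Fin mA → ZMod 2) → ι → ZMod 2) (b : ZMod 2)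
    (ω : Om 2 m mA) (x : Inp k (Fin N)) (i : ι) : Bool :=
  zb (inp (cview j x ω.1 ω.2.1 ω.2.2.1 ω.2.2.2.1 ω.2.2.2.2.1 ω.2.2.2.2.2.1 ω.2.2.2.2.2.2.1 b)
    ω.2.2.2.2.2.2.2 i)

lemma hyb_cview {k N m : ℕ} (hk : k ≤ m) (hN : N ≤ m + 1) (j : Fin N) (mA : ℕ) (b : ZMod 2)
    (x : Inp k (Fin N)) (G : (PKi m ⊕ CTi m → ZMod 2) → (Fin mA → ZMod 2) → ℝ) :
    hyb (cpar j x) b (fun z => ∑ u, G z u) =
      ∑ ω : Om 2 m mA, G (cview j x ω.1 ω.2.1 ω.2.2.1 ω.2.2.2.1 ω.2.2.2.2.1 ω.2.2.2.2.2.1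
        ω.2.2.2.2.2.2.1 b) ω.2.2.2.2.2.2.2 := by
  rw [← ca_cw hk hN j x, hyb_lview (ca j x) (cU x) (cu x) (cw x) (cU_tri x) (cU_cw hk hN x) b]
  simp only [Fintype.sum_prod_type]
  rfl

theorem embS (c d e : ℕ) : ∃ n₀ : ℕ, ∀ n ≥ n₀, ∀ m : ℕ, n ≤ m → ∀ (mA : ℕ) (b : ZMod 2)
    {ι : Type} (inp : (PKi m ⊕ CTi m → ZMod 2) → (Fin mA → ZMod 2) → ι → ZMod 2)
    (_ : ∀ i, (∃ j, ∀ z u, inp z u i = z j) ∨ ∃ j, ∀ z u, inp z u i = u j)
    (A : (ι → Bool) → Bool) (_ : A ∈ SyAC (ACP.lits ι) (n ^ c + c) d (c * Nat.log 2 n)),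
    |hyb 0 b (fun z => ∑ u : Fin mA → ZMod 2,
        if A (fun i => zb (inp z u i)) = true then (1 : ℝ) else 0) -
      hyb 1 b (fun z => ∑ u : Fin mA → ZMod 2,
        if A (fun i => zb (inp z u i)) = true then (1 : ℝ) else 0)| ≤
    1 / (n : ℝ) ^ e *
      hyb (m := m) (0 : ZMod 2) 0 (fun _ => ∑ _u : Fin mA → ZMod 2, (1 : ℝ)) := by
  classical
  obtain ⟨n₁, hcorr⟩ := corr2 c d (e + 1)
  refine ⟨n₁ + 1, fun n hn m hm mA b ι inp hinp A hA => ?_⟩
  have hn1 : 1 ≤ n := by omega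
  have hs : n ^ c + c ≤ (n + 1) ^ (2 * c + 2) := by
    have h1 : n ^ c ≤ (n + 1) ^ c := Nat.pow_le_pow_left (by omega) c
    have h2 : c + 1 ≤ (n + 1) ^ c := by
      have : c + 1 ≤ 2 ^ c := Nat.lt_two_pow_self
      exact this.trans (Nat.pow_le_pow_left (by omega) c)
    have h3 : 1 ≤ (n + 1) ^ c := Nat.one_le_pow _ _ (by omega)
    have h4 : n ^ c + c ≤ (n + 1) ^ (2 * c) := by
      rw [two_mul, pow_add]
      nlinarith
    exact h4.trans (Nat.pow_le_pow_right (by omega) (by omega))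
  have hs1 : 1 ≤ (n + 1) ^ (2 * c + 2) := Nat.one_le_pow _ _ (by omega)
  have hA' : A ∈ SyAC (ACP.lits ι) ((n + 1) ^ (2 * c + 2)) d (c * Nat.log 2 n) :=
    SyAC_mono_s hs hA
  set j : Fin (n + 1) := 0 with hj
  set F : (PKi m ⊕ CTi m → ZMod 2) → (Fin mA → ZMod 2) → ℝ := fun z u =>
    if A (fun i => zb (inp z u i)) = true then (1 : ℝ) else 0 with hF
  set H0 : ℝ := hyb (m := m) 0 b (fun z => ∑ u, F z u) with hH0
  set H1 : ℝ := hyb (m := m) 1 b (fun z => ∑ u, F z u) with hH1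
  set I : ℝ := ((Fintype.card (Inp n (Fin (n + 1))) : ℕ) : ℝ) with hI
  have hIpos : 0 < I := by
    have : Nonempty (Inp n (Fin (n + 1))) := ⟨(fun _ => Equiv.refl _, fun _ _ => false)⟩
    rw [hI]
    exact_mod_cast Fintype.card_pos
  rw [hyb_card]
  -- the correlation for fixed coins
  have h1 : ∀ ω : Om 2 m mA, |∑ x : Inp n (Fin (n + 1)), chi j x *
      (if A (cphi j inp b ω x) = true then (1 : ℝ) else 0)| ≤
      1 / ((n + 1 : ℕ) : ℝ) ^ (e + 1) * I := by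
    intro ω
    refine hcorr n (by omega) (fun x => A (cphi j inp b ω x)) ?_
    have h2 := SyAC_subst (B' := SDT n (Fin (n + 1)) 0 2) (d' := 0) hs1
      (fun (x : Inp n (Fin (n + 1))) => cphi j inp b ω x) ?_ hA'
    · rwa [zero_add] at h2
    · have hpos : ∀ (i : ι) (F' : ZMod 2 → Bool), (fun x : Inp n (Fin (n + 1)) =>
          F' (inp (cview j x ω.1 ω.2.1 ω.2.2.1 ω.2.2.2.1 ω.2.2.2.2.1 ω.2.2.2.2.2.1
            ω.2.2.2.2.2.2.1 b) ω.2.2.2.2.2.2.2 i)) ∈ SDT n (Fin (n + 1)) 0 2 := by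
        intro i F'
        rcases hinp i with ⟨i', hi'⟩ | ⟨i', hi'⟩
        · simp only [hi']
          exact cview_sdt j _ _ _ _ _ _ _ b i' F'
        · simp only [hi']
          exact sdt_const _ _
      rintro g (⟨i, rfl⟩ | ⟨i, rfl⟩ | ⟨c', rfl⟩)
      · exact hpos i zb
      · exact hpos i fun z => !zb z
      · exact sdt_const _ _
  -- the average over the coins
  have h2 : ∀ x : Inp n (Fin (n + 1)), (∑ ω : Om 2 m mA,
      if A (cphi j inp b ω x) = true then (1 : ℝ) else 0) = if cpar j x = 0 then H0 else H1 := by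
    intro x
    have h3 := hyb_cview (k := n) (N := n + 1) hm (by omega) j mA b x F
    have h4 : (∑ ω : Om 2 m mA, if A (cphi j inp b ω x) = true then (1 : ℝ) else 0) =
        hyb (cpar j x) b (fun z => ∑ u, F z u) := h3.symm
    rw [h4]
    have h01 : ∀ z : ZMod 2, z = 0 ∨ z = 1 := by decide
    rcases h01 (cpar j x) with h | h
    · rw [h, if_pos rfl]
    · rw [h, if_neg (by decide)]
  set P := (univ.filter fun x : Inp n (Fin (n + 1)) => cpar j x = 0).card with hP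
  set Q := (univ.filter fun x : Inp n (Fin (n + 1)) => ¬ cpar j x = 0).card with hQ
  have hPQ : (P : ℝ) + Q = I := by
    have := card_filter_add_card_filter_not (s := (univ : Finset (Inp n (Fin (n + 1)))))
      (fun x => cpar j x = 0)
    rw [hI, ← card_univ, ← this]
    push_cast
    rfl
  have hchi : ∀ (a0 a1 : ℝ), ∑ x : Inp n (Fin (n + 1)), chi j x *
      (if cpar j x = 0 then a0 else a1) = P * a0 - Q * a1 := by
    intro a0 a1
    have h3 : ∀ x : Inp n (Fin (n + 1)), chi j x * (if cpar j x = 0 then a0 else a1) =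
        if cpar j x = 0 then a0 else -a1 := by
      intro x
      rw [chi_cpar]
      split_ifs <;> ring
    rw [sum_congr rfl fun x _ => h3 x, sum_ite, sum_const, sum_const, nsmul_eq_mul, nsmul_eq_mul]
    ring
  have hPQ2 : (P : ℝ) = Q := by
    have h3 := hchi 1 1
    have h4 := zero_corr (k := n) j (T := 0) (Nat.succ_pos n) (f := fun _ => true)
      ⟨fun _ _ => true, fun _ => ⟨true, fun _ => rfl⟩, fun _ => rfl⟩
    simp only [if_true] at h4
    simp only [ite_self] at h3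
    rw [h4] at h3
    linarith
  have h5 : ∑ x : Inp n (Fin (n + 1)), chi j x * (∑ ω : Om 2 m mA,
      if A (cphi j inp b ω x) = true then (1 : ℝ) else 0) = I / 2 * (H0 - H1) := by
    rw [sum_congr rfl fun x _ => by rw [h2 x], hchi, ← hPQ2]
    have : (P : ℝ) = I / 2 := by linarith
    rw [this]
    ring
  have h6 : |I / 2 * (H0 - H1)| ≤ Fintype.card (Om 2 m mA) *
      (1 / ((n + 1 : ℕ) : ℝ) ^ (e + 1) * I) := by
    rw [← h5]
    have h7 : ∑ x : Inp n (Fin (n + 1)), chi j x * (∑ ω : Om 2 m mA,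
        if A (cphi j inp b ω x) = true then (1 : ℝ) else 0) = ∑ ω : Om 2 m mA,
          ∑ x : Inp n (Fin (n + 1)), chi j x *
            (if A (cphi j inp b ω x) = true then (1 : ℝ) else 0) := by
      simp only [mul_sum]
      exact sum_comm
    rw [h7]
    refine (abs_sum_le_sum_abs _ _).trans ((sum_le_sum fun ω _ => h1 ω).trans ?_)
    rw [sum_const, card_univ, nsmul_eq_mul]
  have h8 : |H0 - H1| ≤ 2 * (1 / ((n + 1 : ℕ) : ℝ) ^ (e + 1)) * Fintype.card (Om 2 m mA) := by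
    rw [abs_mul, abs_of_pos (by positivity)] at h6
    have h9 : I * |H0 - H1| ≤ I * (2 * (1 / ((n + 1 : ℕ) : ℝ) ^ (e + 1)) *
        Fintype.card (Om 2 m mA)) := by nlinarith
    exact le_of_mul_le_mul_left h9 hIpos
  refine h8.trans ?_
  refine mul_le_mul_of_nonneg_right ?_ (Nat.cast_nonneg _)
  have hne : (0 : ℝ) < (n : ℝ) ^ e := by positivity
  rw [mul_one_div, div_le_div_iff₀ (by positivity) hne, one_mul]
  have h10 : 2 * n ^ e ≤ (n + 1) ^ (e + 1) := by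
    calc 2 * n ^ e ≤ (n + 1) * (n + 1) ^ e :=
          Nat.mul_le_mul (by omega) (Nat.pow_le_pow_left (by omega) e)
      _ = (n + 1) ^ (e + 1) := by ring
  exact_mod_cast h10

end Pool.Agent.PKEp
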