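import Mathlib

/-!
# Smolensky's bound: polynomials of low degree do not compute majority
-/

namespace Pool.Agent.PKEp

open Finset

/-- Affine functions on the cube (the subsets of `Fin m`). -/
def Aff (p m : ℕ) : Submodule (ZMod p) (Finset (Fin m) → ZMod p) :=
  Submodule.span (ZMod p)
    (insert 1 (Set.range fun (i : Fin m) (x : Finset (Fin m)) => if i ∈ x then (1 : ZMod p) else 0))

/-- The coordinate function with values `0, 1`. -/
def smXv (p m : ℕ) (i : Fin m) : Finset (Fin m) → ZMod p := fun x => if i ∈ x then 1 else 0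

/-- Multilinear monomials. -/
def smMono (p m : ℕ) (I : Finset (Fin m)) : Finset (Fin m) → ZMod p :=
  fun x => if I ⊆ x then 1 else 0

/-- The span of the monomials of degree at most `D`. -/
def smG (p m D : ℕ) : Submodule (ZMod p) (Finset (Fin m) → ZMod p) :=
  Submodule.span (ZMod p) (smMono p m '' {I | I.card ≤ D})

lemma sm_one_mem (p m : ℕ) : (1 : Finset (Fin m) → ZMod p) ∈ Aff p m :=
  Submodule.subset_span (Set.mem_insert _ _)

lemma sm_xv_mem (p m : ℕ) (i : Fin m) : smXv p m i ∈ Aff p m :=
  Submodule.subset_span (Set.mem_insert_of_mem _ ⟨i, rfl⟩)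

lemma sm_one_le (p m : ℕ) : (1 : Submodule (ZMod p) (Finset (Fin m) → ZMod p)) ≤ Aff p m := by
  rw [Submodule.one_le]
  exact sm_one_mem p m

lemma sm_pow_mono (p m : ℕ) {a b : ℕ} (h : a ≤ b) : Aff p m ^ a ≤ Aff p m ^ b :=
  pow_le_pow_right' (sm_one_le p m) h

lemma sm_mono_mul_xv (p m : ℕ) (I : Finset (Fin m)) (i : Fin m) :
    smMono p m I * smXv p m i = smMono p m (insert i I) := by
  funext x
  rw [Pi.mul_apply]
  unfold smMono smXv
  by_cases h : i ∈ x
  · by_cases h2 : I ⊆ x
    · have h3 : insert i I ⊆ x := insert_subset h h2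
      simp [h, h2, h3]
    · have h3 : ¬ insert i I ⊆ x := fun h4 => h2 ((subset_insert i I).trans h4)
      simp [h2, h3]
  · have h3 : ¬ insert i I ⊆ x := fun h4 => h (h4 (mem_insert_self i I))
    simp [h, h3]

lemma sm_mono_mem (p m : ℕ) (I : Finset (Fin m)) : smMono p m I ∈ Aff p m ^ I.card := by
  induction I using Finset.induction_on with
  | empty =>
    rw [card_empty, pow_zero]
    have : smMono p m ∅ = 1 := by
      funext x
      simp [smMono]
    rw [this]
    exact Submodule.one_le.1 le_rfl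
  | insert a s ha ih =>
    rw [card_insert_of_notMem ha, pow_succ, ← sm_mono_mul_xv]
    exact Submodule.mul_mem_mul ih (sm_xv_mem p m a)

lemma sm_pow_le (p m D : ℕ) : Aff p m ^ D ≤ smG p m D := by
  induction D with
  | zero =>
    rw [pow_zero, Submodule.one_le]
    apply Submodule.subset_span
    exact ⟨∅, by simp, by funext x; simp [smMono]⟩
  | succ D ih =>
    rw [pow_succ]
    refine (mul_le_mul' ih le_rfl).trans ?_
    unfold smG Aff
    rw [Submodule.span_mul_span, Submodule.span_le]
    rintro _ ⟨_, ⟨I, hI, rfl⟩, g, hg, rfl⟩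
    rw [Set.mem_insert_iff] at hg
    rcases hg with rfl | ⟨i, rfl⟩
    · apply Submodule.subset_span
      refine ⟨I, Nat.le_succ_of_le hI, ?_⟩
      simp
    · apply Submodule.subset_span
      refine ⟨insert i I, ?_, (sm_mono_mul_xv p m I i).symm⟩
      exact (card_insert_le i I).trans (Nat.succ_le_succ hI)

lemma sm_finrank (p m D : ℕ) [Fact p.Prime] :
    Module.finrank (ZMod p) (Aff p m ^ D : Submodule (ZMod p) (Finset (Fin m) → ZMod p))
      ≤ ∑ i ∈ range (D + 1), m.choose i := by
  classical
  refine (Submodule.finrank_mono (sm_pow_le p m D)).trans ?_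
  set T : Finset (Finset (Fin m)) := univ.filter fun I => I.card ≤ D with hT
  have h2 : (smMono p m '' {I | I.card ≤ D}) = ((T.image (smMono p m) : Finset _) : Set _) := by
    ext g
    simp [hT]
  unfold smG
  rw [h2]
  refine (finrank_span_finset_le_card _).trans ?_
  refine card_image_le.trans ?_
  have h3 : T ⊆ (range (D + 1)).biUnion fun i => powersetCard i univ := by
    intro I hI
    simp only [hT, mem_filter, mem_univ, true_and] at hI
    simp only [mem_biUnion, mem_range, mem_powersetCard, subset_univ, true_and]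
    exact ⟨I.card, Nat.lt_succ_of_le hI, rfl⟩
  refine (card_le_card h3).trans ?_
  refine card_biUnion_le.trans ?_
  apply le_of_eq
  apply sum_congr rfl
  intro i _
  rw [card_powersetCard, card_univ, Fintype.card_fin]

/-- Every function is a function of degree `≤ h` on the ball of radius `h`. -/
lemma sm_ball (p m : ℕ) (f : Finset (Fin m) → ZMod p) (h : ℕ) :
    ∃ P ∈ Aff p m ^ h, ∀ x, x.card ≤ h → P x = f x := by
  classical
  induction h with
  | zero =>
    refine ⟨fun _ => f ∅, ?_, ?_⟩
    · rw [pow_zero, Submodule.mem_one]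
      exact ⟨f ∅, by funext x; simp⟩
    · intro x hx
      rw [card_eq_zero.1 (Nat.le_zero.1 hx)]
  | succ h ih =>
    obtain ⟨P, hP, hPx⟩ := ih
    refine ⟨P + ∑ I ∈ powersetCard (h + 1) univ, (f I - P I) • smMono p m I, ?_, ?_⟩
    · refine Submodule.add_mem _ (sm_pow_mono p m (Nat.le_succ h) hP) ?_
      refine Submodule.sum_mem _ fun I hI => Submodule.smul_mem _ _ ?_
      rw [mem_powersetCard] at hI
      rw [← hI.2]
      exact sm_mono_mem p m I
    · intro x hx
      rw [Pi.add_apply, Finset.sum_apply]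
      rcases Nat.lt_or_ge h x.card with h1 | h1
      · have hc : x.card = h + 1 := le_antisymm hx h1
        rw [Finset.sum_eq_single x]
        · rw [Pi.smul_apply, smMono, if_pos (Subset.refl _), smul_eq_mul, mul_one]
          ring
        · intro I hI hne
          rw [mem_powersetCard] at hI
          rw [Pi.smul_apply, smMono, if_neg, smul_zero]
          intro hsub
          exact hne (eq_of_subset_of_card_le hsub (by rw [hc, hI.2]))
        · intro hn
          exfalso
          apply hn
          rw [mem_powersetCard]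
          exact ⟨subset_univ _, hc⟩
      · rw [Finset.sum_eq_zero, add_zero, hPx x h1]
        intro I hI
        rw [mem_powersetCard] at hI
        rw [Pi.smul_apply, smMono, if_neg, smul_zero]
        intro hsub
        have := card_le_card hsub
        omega

/-- Composition with the complement, as an algebra map. -/
def smCmp (p m : ℕ) : (Finset (Fin m) → ZMod p) →ₐ[ZMod p] (Finset (Fin m) → ZMod p) where
  toFun g := fun x => g xᶜ
  map_one' := rfl
  map_mul' _ _ := rfl
  map_zero' := rfl
  map_add' _ _ := rfl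
  commutes' _ := rfl

lemma sm_cmp_Aff (p m : ℕ) : (Aff p m).map (smCmp p m).toLinearMap ≤ Aff p m := by
  rw [Submodule.map_le_iff_le_comap]
  unfold Aff
  rw [Submodule.span_le]
  intro g hg
  rw [Set.mem_insert_iff] at hg
  rcases hg with rfl | ⟨i, rfl⟩
  · exact sm_one_mem p m
  · have : (smCmp p m) (smXv p m i) = 1 - smXv p m i := by
      funext x
      change (if i ∈ xᶜ then (1 : ZMod p) else 0) = 1 - (if i ∈ x then (1 : ZMod p) else 0)
      by_cases hx : i ∈ x
      · simp [hx]
      · simp [hx]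
    change (smCmp p m) (smXv p m i) ∈ Aff p m
    rw [this]
    exact Submodule.sub_mem _ (sm_one_mem p m) (sm_xv_mem p m i)

lemma sm_cmp_pow (p m D : ℕ) {g : Finset (Fin m) → ZMod p} (hg : g ∈ Aff p m ^ D) :
    (smCmp p m) g ∈ Aff p m ^ D := by
  have h1 : (Aff p m ^ D).map (smCmp p m).toLinearMap
      = ((Aff p m).map (smCmp p m).toLinearMap) ^ D := Submodule.map_pow _ _ _
  have h2 : ((Aff p m).map (smCmp p m).toLinearMap) ^ D ≤ Aff p m ^ D :=
    pow_le_pow_left' (sm_cmp_Aff p m) D
  exact h2 (h1 ▸ Submodule.mem_map_of_mem hg)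

/-- On the points where a function of degree `≤ D` agrees with majority every function has
degree `≤ h + D`. -/
lemma sm_spanning (p h D : ℕ) (g : Finset (Fin (2 * h + 1)) → ZMod p)
    (hg : g ∈ Aff p (2 * h + 1) ^ D) (f : Finset (Fin (2 * h + 1)) → ZMod p) :
    ∃ P ∈ Aff p (2 * h + 1) ^ (h + D), ∀ x, (g x = if h < x.card then 1 else 0) →
      P x = f x := by
  obtain ⟨P0, h0, h0x⟩ := sm_ball p (2 * h + 1) f h
  obtain ⟨Q, hQ, hQx⟩ := sm_ball p (2 * h + 1) (fun x => f xᶜ) h
  set P1 := (smCmp p (2 * h + 1)) Q with hP1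
  have h1 : P1 ∈ Aff p (2 * h + 1) ^ h := sm_cmp_pow _ _ _ hQ
  refine ⟨P0 + (P1 - P0) * g, ?_, ?_⟩
  · refine Submodule.add_mem _ (sm_pow_mono _ _ (Nat.le_add_right h D) h0) ?_
    rw [pow_add]
    exact Submodule.mul_mem_mul (Submodule.sub_mem _ h1 h0) hg
  · intro x hx
    rw [Pi.add_apply, Pi.mul_apply, Pi.sub_apply, hx]
    by_cases hm : h < x.card
    · rw [if_pos hm]
      have h2 : xᶜ.card ≤ h := by
        rw [card_compl, Fintype.card_fin]
        omega
      have h3 : P1 x = f x := by
        have h4 := hQx _ h2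
        rw [compl_compl] at h4
        exact h4
      rw [h3]
      ring
    · rw [if_neg hm, h0x x (not_lt.1 hm)]
      ring

/-- A polynomial of degree `D` agrees with majority in at most
`2 ^ (2 h) + D * binomial (2 h + 1) h` points. -/
theorem smolensky {p : ℕ} [Fact p.Prime] (h D : ℕ) (g : Finset (Fin (2 * h + 1)) → ZMod p)
    (hg : g ∈ Aff p (2 * h + 1) ^ D) :
    (univ.filter fun x => g x = if h < x.card then 1 else 0).card ≤
      2 ^ (2 * h) + D * (2 * h + 1).choose h := by
  classical
  set S := univ.filter fun x : Finset (Fin (2 * h + 1)) => g x = if h < x.card then 1 else 0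
    with hS
  have hSx : ∀ x ∈ S, (g x = if h < x.card then 1 else 0) := by
    intro x hx
    simpa only [hS, mem_filter, mem_univ, true_and] using hx
  let R : (Aff p (2 * h + 1) ^ (h + D) : Submodule (ZMod p) _) →ₗ[ZMod p] (S → ZMod p) :=
    { toFun := fun P x => P.1 x.1
      map_add' := fun _ _ => rfl
      map_smul' := fun _ _ => rfl }
  have hR : Function.Surjective R := by
    intro u
    obtain ⟨P, hP, hPx⟩ := sm_spanning p h D g hg (fun x => if hx : x ∈ S then u ⟨x, hx⟩ else 0)
    refine ⟨⟨P, hP⟩, ?_⟩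
    funext x
    change P x.1 = u x
    rw [hPx x.1 (hSx x.1 x.2)]
    simp
  have h1 : Module.finrank (ZMod p) (S → ZMod p)
      ≤ Module.finrank (ZMod p) (Aff p (2 * h + 1) ^ (h + D) : Submodule (ZMod p) _) :=
    LinearMap.finrank_le_finrank_of_surjective hR
  rw [Module.finrank_fintype_fun_eq_card, Fintype.card_coe] at h1
  refine h1.trans ((sm_finrank _ _ _).trans ?_)
  have h2 : ∑ i ∈ range (h + D + 1), (2 * h + 1).choose i
      = ∑ i ∈ range (h + 1), (2 * h + 1).choose i
        + ∑ i ∈ range D, (2 * h + 1).choose (h + 1 + i) := by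
    rw [show h + D + 1 = (h + 1) + D by ring, sum_range_add]
  rw [h2, Nat.sum_range_choose_halfway]
  have h3 : ∑ i ∈ range D, (2 * h + 1).choose (h + 1 + i) ≤ D * (2 * h + 1).choose h := by
    calc _ ≤ ∑ _i ∈ range D, (2 * h + 1).choose h := by
          apply sum_le_sum
          intro i _
          have := Nat.choose_le_middle (h + 1 + i) (2 * h + 1)
          rwa [show (2 * h + 1) / 2 = h by omega] at this
      _ = _ := by rw [sum_const, card_range, smul_eq_mul]
  have h4 : (4 : ℕ) ^ h = 2 ^ (2 * h) := by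
    rw [pow_mul]
    norm_num
  omega

/-- Upper bound for the central binomial coefficient. -/
lemma sm_central (n : ℕ) : (2 * n + 1) * n.centralBinom ^ 2 ≤ 16 ^ n := by
  induction n with
  | zero => simp
  | succ n ih =>
    have h1 := Nat.succ_mul_centralBinom_succ n
    have h2 : (n + 1) ^ 2 * ((2 * (n + 1) + 1) * (n + 1).centralBinom ^ 2)
        ≤ (n + 1) ^ 2 * 16 ^ (n + 1) := by
      calc (n + 1) ^ 2 * ((2 * (n + 1) + 1) * (n + 1).centralBinom ^ 2)
          = (2 * n + 3) * ((n + 1) * (n + 1).centralBinom) ^ 2 := by ring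
        _ = (2 * n + 3) * (2 * (2 * n + 1) * n.centralBinom) ^ 2 := by rw [h1]
        _ = (4 * (2 * n + 3) * (2 * n + 1)) * ((2 * n + 1) * n.centralBinom ^ 2) := by ring
        _ ≤ (4 * (2 * n + 3) * (2 * n + 1)) * 16 ^ n := Nat.mul_le_mul_left _ ih
        _ ≤ (n + 1) ^ 2 * 16 ^ (n + 1) := by
          rw [pow_succ 16 n]
          nlinarith [Nat.zero_le (16 ^ n)]
    exact Nat.le_of_mul_le_mul_left h2 (by positivity)

/-- The middle binomial coefficient. -/
theorem choose_mid (h : ℕ) : (2 * h + 3) * (2 * h + 1).choose h ^ 2 ≤ (2 ^ (2 * h + 1)) ^ 2 := by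
  have h1 := sm_central (h + 1)
  have h2 : (h + 1).centralBinom = 2 * (2 * h + 1).choose h := by
    rw [Nat.centralBinom_eq_two_mul_choose, show 2 * (h + 1) = (2 * h + 1) + 1 by ring,
      Nat.choose_succ_succ, Nat.choose_symm_half h]
    ring
  rw [h2] at h1
  have h3 : (16 : ℕ) ^ (h + 1) = 4 * (2 ^ (2 * h + 1)) ^ 2 := by
    have h4 : (2 : ℕ) ^ (4 * h) = 16 ^ h := by
      rw [pow_mul]
      norm_num
    rw [← pow_mul, show (2 * h + 1) * 2 = 4 * h + 2 by ring, pow_add 2, h4, pow_succ 16 h]
    ring
  rw [h3] at h1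
  nlinarith [h1]

end Pool.Agent.PKEp
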