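import Pool.Agent.PKEp.Scheme
import Pool.Agent.PKEp.Approx
import Pool.Agent.PKEp.Smol

/-!
# The embedding of majority
-/

namespace Pool.Agent.PKEp

open Finset

variable {p m : ℕ}

/-- The matrix made from the program on the input `x`. -/
def WX (x : Finset (Fin m)) (s : St m → ZMod p) (v : St m → St m → ZMod p) :
    Row m → St m → ZMod p
  | none, j => a0 p j + ∑ q, s q * U p x q j
  | some q, j => ∑ k, Vv v q k * U p x k j

/-- The additional term of the last column. -/
def cX (h : ℕ) (s : St m → ZMod p) (v : St m → St m → ZMod p) : Row m → ZMod p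
  | none => ∑ q, s q * acc p h q
  | some q => ∑ k, Vv v q k * acc p h k

/-- The last column. -/
def yX (h : ℕ) (x : Finset (Fin m)) (s : St m → ZMod p) (v : St m → St m → ZMod p)
    (t : St m → ZMod p) (i : Row m) : ZMod p :=
  ∑ j, WX x s v i j * t j + cX h s v i

/-- Change of the coins `s`. -/
def sX (x : Finset (Fin m)) (s : St m → ZMod p) (j : St m) : ZMod p :=
  a0 p j + ∑ q, s q * U p x q j

/-- Change of the coins `v`. -/
def vX (x : Finset (Fin m)) (v : St m → St m → ZMod p) (q j : St m) : ZMod p :=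
  if q.1 < j.1 then ∑ k, Vv v q k * U p x k j else v q j

/-- Change of the coins `t`. -/
def tX (h : ℕ) (x : Finset (Fin m)) (t : St m → ZMod p) (j : St m) : ZMod p := t j + w p h x j

lemma WW_X (x : Finset (Fin m)) (s : St m → ZMod p) (v : St m → St m → ZMod p) :
    WW (sX x s) (vX x v) = WX x s v := by
  funext i j
  cases i with
  | none => rfl
  | some q =>
    change Vv (vX x v) q j = ∑ k, Vv v q k * U p x k j
    have hT := (Vv_tri v).mul (U_tri p x)
    unfold Vv vX
    by_cases h : q.1 < j.1
    · rw [if_pos h, if_pos h]; rfl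
    · rw [if_neg h]
      by_cases hq : q = j
      · rw [if_pos hq, ← hq]; exact (hT.1 q).symm
      · rw [if_neg hq]; exact (hT.2 q j h hq).symm

lemma yy_X (h : ℕ) (hm : h < m) (x : Finset (Fin m)) (s : St m → ZMod p)
    (v : St m → St m → ZMod p) (t : St m → ZMod p) :
    yy (WX x s v) (tX h x t) (if h < x.card then 1 else 0) = yX h x s v t := by
  funext i
  unfold yy yX tX
  simp only [mul_add, sum_add_distrib]
  rw [add_sub_assoc]
  congr 1
  cases i with
  | none =>
    rw [if_pos rfl]
    simp only [WX, cX, add_mul, sum_add_distrib]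
    rw [a0_w p h x, add_sub_right_comm, sub_self, zero_add]
    simp only [sum_mul]
    rw [sum_comm]
    refine sum_congr rfl fun q _ => ?_
    rw [← U_w p h hm x q, mul_sum]
    exact sum_congr rfl fun j _ => by ring
  | some q =>
    rw [if_neg (by simp), sub_zero]
    simp only [WX, cX, sum_mul]
    rw [sum_comm]
    refine sum_congr rfl fun k _ => ?_
    rw [← U_w p h hm x k, mul_sum]
    exact sum_congr rfl fun j _ => by ring

lemma sX_bij [NeZero p] (x : Finset (Fin m)) :
    Function.Bijective (sX x : (St m → ZMod p) → St m → ZMod p) := by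
  rw [← Finite.injective_iff_bijective]
  intro s s' h
  refine (U_tri p x).inj ?_
  funext j
  have := congrFun h j
  exact add_left_cancel this

lemma vX_bij [NeZero p] (x : Finset (Fin m)) :
    Function.Bijective (vX x : (St m → St m → ZMod p) → St m → St m → ZMod p) := by
  rw [← Finite.injective_iff_bijective]
  intro v v' h
  funext q j
  by_cases hq : q.1 < j.1
  · have hrow : Vv v q = Vv v' q := by
      refine (U_tri p x).inj ?_
      funext j
      by_cases hj : q.1 < j.1
      · have := congrFun (congrFun h q) j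
        simp only [vX, if_pos hj] at this
        exact this
      · have h1 := (Vv_tri v).mul (U_tri p x)
        have h2 := (Vv_tri v').mul (U_tri p x)
        by_cases hqj : q = j
        · subst hqj
          exact (h1.1 q).trans (h2.1 q).symm
        · exact (h1.2 q j hj hqj).trans (h2.2 q j hj hqj).symm
    have := congrFun hrow j
    simp only [Vv, if_pos hq] at this
    exact this
  · have := congrFun (congrFun h q) j
    simp only [vX, if_neg hq] at this
    exact this

lemma tX_bij (h : ℕ) (x : Finset (Fin m)) :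
    Function.Bijective (tX h x : (St m → ZMod p) → St m → ZMod p) := by
  have : (tX h x : (St m → ZMod p) → St m → ZMod p) = Equiv.addRight (w p h x) := by
    funext t j; rfl
  rw [this]
  exact Equiv.bijective _

/-- For every input `x` the coins can be changed so that the key with `β = Maj x` is the key
made from the program. -/
theorem hyb_X [NeZero p] (h : ℕ) (hm : h < m) (x : Finset (Fin m)) (b : ZMod p)
    (f : (PKi m ⊕ CTi m → ZMod p) → ℝ) :
    hyb (if h < x.card then 1 else 0) b f =
      ∑ s : St m → ZMod p, ∑ v : St m → St m → ZMod p, ∑ t : St m → ZMod p,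
        ∑ ρ : Row m → St m → ZMod p, ∑ r : Row m → ZMod p, ∑ σ : St m → Row m → ZMod p,
          ∑ τ : Option (Row m × St m) → ZMod p, f (view (WX x s v) (yX h x s v t) ρ r σ τ b) := by
  unfold hyb
  rw [← (sX_bij x).sum_comp]
  refine sum_congr rfl fun s _ => ?_
  rw [← (vX_bij x).sum_comp]
  refine sum_congr rfl fun v _ => ?_
  rw [← (tX_bij h x).sum_comp]
  refine sum_congr rfl fun t _ => ?_
  rw [WW_X, yy_X h hm]

/-! ### Everything is affine in `x` -/

lemma Aff_sum {p m : ℕ} {J : Type} (S : Finset J) (g : J → Finset (Fin m) → ZMod p)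
    (hg : ∀ j ∈ S, g j ∈ Aff p m) : (fun x => ∑ j ∈ S, g j x) ∈ Aff p m := by
  have : (fun x => ∑ j ∈ S, g j x) = ∑ j ∈ S, g j := by
    funext x; rw [Finset.sum_apply]
  rw [this]
  exact Submodule.sum_mem _ hg

lemma Aff_mul {p m : ℕ} (c : ZMod p) (g : Finset (Fin m) → ZMod p) (hg : g ∈ Aff p m) :
    (fun x => c * g x) ∈ Aff p m :=
  Submodule.smul_mem _ c hg

lemma Aff_mul' {p m : ℕ} (c : ZMod p) (g : Finset (Fin m) → ZMod p) (hg : g ∈ Aff p m) :
    (fun x => g x * c) ∈ Aff p m := by
  simpa only [mul_comm] using Aff_mul c g hg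

lemma Aff_add {p m : ℕ} (g g' : Finset (Fin m) → ZMod p) (hg : g ∈ Aff p m)
    (hg' : g' ∈ Aff p m) : (fun x => g x + g' x) ∈ Aff p m :=
  Submodule.add_mem _ hg hg'

lemma Aff_sub {p m : ℕ} (g g' : Finset (Fin m) → ZMod p) (hg : g ∈ Aff p m)
    (hg' : g' ∈ Aff p m) : (fun x => g x - g' x) ∈ Aff p m :=
  Submodule.sub_mem _ hg hg'

lemma WX_aff (s : St m → ZMod p) (v : St m → St m → ZMod p) (i : Row m) (j : St m) :
    (fun x => WX x s v i j) ∈ Aff p m := by
  cases i with
  | none =>
    exact Aff_add _ _ (const_mem_Aff p _) (Aff_sum _ _ fun q _ => Aff_mul _ _ (U_mem_Aff p q j))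
  | some q => exact Aff_sum _ _ fun k _ => Aff_mul _ _ (U_mem_Aff p k j)

lemma yX_aff (h : ℕ) (s : St m → ZMod p) (v : St m → St m → ZMod p) (t : St m → ZMod p)
    (i : Row m) : (fun x => yX h x s v t i) ∈ Aff p m :=
  Aff_add _ _ (Aff_sum _ _ fun j _ => Aff_mul' _ _ (WX_aff s v i j)) (const_mem_Aff p _)

lemma sh_aff {T : Type} [Fintype T] [DecidableEq T] (x₀ : T) (g : Finset (Fin m) → ZMod p)
    (hg : g ∈ Aff p m) (τ : T → ZMod p) (y : T) :
    (fun x => sh (conc x₀ (g x)) τ y) ∈ Aff p m := by
  unfold sh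
  refine Aff_sub _ _ (Aff_add _ _ ?_ (const_mem_Aff p _)) (const_mem_Aff p _)
  unfold conc
  by_cases h : y = x₀
  · simpa only [if_pos h] using hg
  · simpa only [if_neg h] using const_mem_Aff p 0

lemma view_aff (h : ℕ) (s : St m → ZMod p) (v : St m → St m → ZMod p) (t : St m → ZMod p)
    (ρ : Row m → St m → ZMod p) (r : Row m → ZMod p) (σ : St m → Row m → ZMod p)
    (τ : Option (Row m × St m) → ZMod p) (b : ZMod p) (i : PKi m ⊕ CTi m) :
    (fun x => view (WX x s v) (yX h x s v t) ρ r σ τ b i) ∈ Aff p m := by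
  rcases i with (i | i) | (i | i)
  · exact WX_aff s v i.1 i.2
  · exact sh_aff _ _ (yX_aff h s v t i.1) _ _
  · exact sh_aff _ _ (Aff_sum _ _ fun k _ => Aff_mul _ _ (WX_aff s v k i.1)) _ _
  · exact sh_aff _ _ (Aff_add _ _ (Aff_sum _ _ fun k _ => Aff_mul _ _ (yX_aff h s v t k))
      (const_mem_Aff p _)) _ _

end Pool.Agent.PKEp
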