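import Pool.Agent.PKEp.Emb

/-!
# The counting bound
-/

namespace Pool.Agent.PKEp

open Finset

variable {p m : ℕ}

/-- Functions on `X × Ω` all of whose fibres are affine. -/
def fib (p m : ℕ) (Ω : Type) : Submodule (ZMod p) (Finset (Fin m) × Ω → ZMod p) where
  carrier := {g | ∀ ω, (fun x => g (x, ω)) ∈ Aff p m}
  add_mem' := fun ha hb ω => Submodule.add_mem _ (ha ω) (hb ω)
  zero_mem' := fun _ => Submodule.zero_mem _
  smul_mem' := fun c _ ha ω => Submodule.smul_mem _ c (ha ω)

/-- Restriction to a fibre. -/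
def res (p m : ℕ) {Ω : Type} (ω : Ω) :
    (Finset (Fin m) × Ω → ZMod p) →ₐ[ZMod p] (Finset (Fin m) → ZMod p) where
  toFun g x := g (x, ω)
  map_one' := rfl
  map_mul' _ _ := rfl
  map_zero' := rfl
  map_add' _ _ := rfl
  commutes' _ := rfl

lemma fib_pow {Ω : Type} {D : ℕ} {g : Finset (Fin m) × Ω → ZMod p} (hg : g ∈ fib p m Ω ^ D)
    (ω : Ω) : (fun x => g (x, ω)) ∈ Aff p m ^ D := by
  have h1 : (fib p m Ω).map (res p m ω).toLinearMap ≤ Aff p m := by
    rintro _ ⟨a, ha, rfl⟩
    exact ha ω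
  have h2 : (fib p m Ω ^ D).map (res p m ω).toLinearMap ≤ Aff p m ^ D := by
    rw [Submodule.map_pow]
    exact pow_le_pow_left' h1 D
  exact h2 ⟨g, hg, rfl⟩

lemma one_mem_fib (Ω : Type) : (1 : Finset (Fin m) × Ω → ZMod p) ∈ fib p m Ω :=
  fun _ => one_mem_Aff p

lemma maj_half (h : ℕ) :
    (univ.filter fun x : Finset (Fin (2 * h + 1)) => h < x.card).card = 2 ^ (2 * h) := by
  have h1 : (univ.filter fun x : Finset (Fin (2 * h + 1)) => h < x.card).card =
      (univ.filter fun x : Finset (Fin (2 * h + 1)) => ¬ h < x.card).card := by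
    refine card_bij' (fun x _ => xᶜ) (fun x _ => xᶜ) ?_ ?_ (fun x _ => compl_compl x)
      (fun x _ => compl_compl x)
    · intro x hx
      simp only [mem_filter, mem_univ, true_and, card_compl, Fintype.card_fin] at hx ⊢
      omega
    · intro x hx
      simp only [mem_filter, mem_univ, true_and, card_compl, Fintype.card_fin] at hx ⊢
      have := card_le_univ x
      rw [Fintype.card_fin] at this
      omega
  have h2 := card_filter_add_card_filter_not (s := (univ : Finset (Finset (Fin (2 * h + 1)))))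
    (fun x => h < x.card)
  rw [← h1, card_univ, Fintype.card_finset, Fintype.card_fin] at h2
  rw [pow_succ] at h2
  omega

/-- The numerical bound for the number of agreements, times `2 ^ l`. -/
def bd (p h s d l : ℕ) : ℕ :=
  (2 ^ (2 * h) + ((p - 1) * ((p - 1) * l) ^ d) * (2 * h + 1).choose h) * 2 ^ l +
    (s + 1) ^ d * 2 ^ (2 * h + 1)

lemma agree_le [Fact p.Prime] {Ω : Type} [Fintype Ω] (h D : ℕ)
    (g : Finset (Fin (2 * h + 1)) × Ω → ZMod p) (hg : g ∈ fib p (2 * h + 1) Ω ^ D) :
    (univ.filter fun z : Finset (Fin (2 * h + 1)) × Ω =>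
      g z = if h < z.1.card then 1 else 0).card ≤
      Fintype.card Ω * (2 ^ (2 * h) + D * (2 * h + 1).choose h) := by
  classical
  rw [card_filter, Fintype.sum_prod_type_right]
  refine (sum_le_card_nsmul univ _ (2 ^ (2 * h) + D * (2 * h + 1).choose h) ?_).trans ?_
  · intro ω _
    rw [← card_filter]
    exact smolensky h D (fun x => g (x, ω)) (fib_pow hg ω)
  · rw [card_univ, smul_eq_mul]

theorem count_bound [Fact p.Prime] {Ω ι : Type} [Fintype Ω] (h s d l : ℕ) (hl : 1 ≤ l)
    (Ψ : Finset (Fin (2 * h + 1)) × Ω → ι → ZMod p)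
    (hΨ : ∀ i ω, (fun x => Ψ (x, ω) i) ∈ Aff p (2 * h + 1)) (f : (ι → ZMod p) → Bool)
    (hf : f ∈ AC p (lits p ι) s d) :
    (univ.filter fun z : Finset (Fin (2 * h + 1)) × Ω =>
      (f (Ψ z) = true ↔ h < z.1.card)).card * 2 ^ l ≤ Fintype.card Ω * bd p h s d l ∧
    (univ.filter fun z : Finset (Fin (2 * h + 1)) × Ω =>
      ¬ (f (Ψ z) = true ↔ h < z.1.card)).card * 2 ^ l ≤ Fintype.card Ω * bd p h s d l := by
  classical
  obtain ⟨g, hg, hgf⟩ := approx (fib p (2 * h + 1) Ω) (one_mem_fib Ω) Ψ (fun i ω => hΨ i ω)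
    s d l hl f hf
  set D := (p - 1) * ((p - 1) * l) ^ d with hD
  rw [Fintype.card_prod, Fintype.card_finset, Fintype.card_fin] at hgf
  have hone : (1 : Finset (Fin (2 * h + 1)) × Ω → ZMod p) ∈ fib p (2 * h + 1) Ω ^ D := by
    have : (1 : Submodule (ZMod p) (Finset (Fin (2 * h + 1)) × Ω → ZMod p)) ≤
        fib p (2 * h + 1) Ω := by
      rw [Submodule.one_le]
      exact one_mem_fib Ω
    have h2 := pow_le_pow_left' this D
    rw [one_pow] at h2
    exact Submodule.one_le.1 h2
  have hg' : 1 - g ∈ fib p (2 * h + 1) Ω ^ D := Submodule.sub_mem _ hone hg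
  have a1 := agree_le h D g hg
  have a2 := agree_le h D (1 - g) hg'
  set E := (univ.filter fun z : Finset (Fin (2 * h + 1)) × Ω =>
    g z ≠ if f (Ψ z) = true then 1 else 0) with hE
  have fin : ∀ (N G : Finset (Finset (Fin (2 * h + 1)) × Ω)), N ⊆ G ∪ E →
      G.card ≤ Fintype.card Ω * (2 ^ (2 * h) + D * (2 * h + 1).choose h) →
      N.card * 2 ^ l ≤ Fintype.card Ω * bd p h s d l := by
    intro N G hN hG
    have h1 : N.card ≤ G.card + E.card := (card_le_card hN).trans (card_union_le _ _)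
    calc N.card * 2 ^ l ≤ (G.card + E.card) * 2 ^ l := Nat.mul_le_mul_right _ h1
      _ = G.card * 2 ^ l + E.card * 2 ^ l := by ring
      _ ≤ (Fintype.card Ω * (2 ^ (2 * h) + D * (2 * h + 1).choose h)) * 2 ^ l +
          (s + 1) ^ d * (2 ^ (2 * h + 1) * Fintype.card Ω) :=
        Nat.add_le_add (Nat.mul_le_mul_right _ hG) hgf
      _ = Fintype.card Ω * bd p h s d l := by
        unfold bd
        rw [← hD]
        ring
  constructor
  · refine fin _ _ (fun z hz => ?_) a1
    rw [mem_filter] at hz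
    rw [mem_union, mem_filter, mem_filter]
    by_cases he : g z = if f (Ψ z) = true then 1 else 0
    · left
      refine ⟨mem_univ _, ?_⟩
      rw [he]
      by_cases hm : h < z.1.card
      · rw [if_pos hm, if_pos (hz.2.2 hm)]
      · rw [if_neg hm, if_neg (fun hh => hm (hz.2.1 hh))]
    · exact Or.inr ⟨mem_univ _, he⟩
  · refine fin _ _ (fun z hz => ?_) a2
    rw [mem_filter] at hz
    rw [mem_union, mem_filter, mem_filter]
    by_cases he : g z = if f (Ψ z) = true then 1 else 0
    · left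
      refine ⟨mem_univ _, ?_⟩
      rw [Pi.sub_apply, Pi.one_apply, he]
      by_cases hm : h < z.1.card
      · have : ¬ f (Ψ z) = true := fun hh => hz.2 (iff_of_true hh hm)
        rw [if_pos hm, if_neg this, sub_zero]
      · have : f (Ψ z) = true := by
          by_contra hh
          exact hz.2 (iff_of_false hh hm)
        rw [if_neg hm, if_pos this, sub_self]
    · exact Or.inr ⟨mem_univ _, he⟩

end Pool.Agent.PKEp
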