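import Pool.Agent.PKEp.EmbJ

/-!
# Security with explicit bounds
-/

namespace Pool.Agent.PKEp

set_option synthInstance.maxSize 5000

open Finset

variable {p : ℕ}

/-- The choice of the number of rounds, with explicit bounds. -/
theorem numE (q d e n k c : ℕ) (hn : 1 ≤ n)
    (hc : c * (q * (d * (k + 1) + e * (Nat.log 2 n + 1) + 3)) ^ d ≤ n ^ 3) :
    4 * (((c * ((q - 1) * (d * (k + 1) + e * (Nat.log 2 n + 1) + 3)) ^ d : ℕ) : ℝ) /
        Real.sqrt (2 * (32 * n ^ (2 * e + 6) : ℕ) + 3) +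
      (((2 ^ k + 1) ^ d : ℕ) : ℝ) / 2 ^ (d * (k + 1) + e * (Nat.log 2 n + 1) + 3)) ≤
      1 / (n : ℝ) ^ e := by
  set l := d * (k + 1) + e * (Nat.log 2 n + 1) + 3 with hl
  have hnpos : (0 : ℝ) < n := by exact_mod_cast hn
  -- the second term
  have h1 : (2 ^ k + 1) ^ d ≤ 2 ^ (d * (k + 1)) := by
    rw [mul_comm d, pow_mul]
    apply Nat.pow_le_pow_left
    have : 1 ≤ 2 ^ k := Nat.one_le_two_pow
    rw [pow_succ]
    omega
  have h2 : 8 * n ^ e ≤ 2 ^ (e * (Nat.log 2 n + 1) + 3) := by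
    have h3 : n ≤ 2 ^ (Nat.log 2 n + 1) := (Nat.lt_pow_succ_log_self (by norm_num) n).le
    calc 8 * n ^ e ≤ 2 ^ 3 * (2 ^ (Nat.log 2 n + 1)) ^ e :=
          Nat.mul_le_mul (by norm_num) (Nat.pow_le_pow_left h3 e)
      _ = 2 ^ (e * (Nat.log 2 n + 1) + 3) := by
          rw [← pow_mul 2 (Nat.log 2 n + 1) e, ← pow_add, mul_comm e, add_comm]
  have h3 : (((2 ^ k + 1) ^ d : ℕ) : ℝ) / 2 ^ l ≤ 1 / (8 * (n : ℝ) ^ e) := by
    rw [div_le_div_iff₀ (by positivity) (by positivity)]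
    have : (2 ^ k + 1) ^ d * (8 * n ^ e) ≤ 1 * 2 ^ l := by
      rw [one_mul, hl, add_assoc, pow_add 2 (d * (k + 1))]
      exact Nat.mul_le_mul h1 h2
    exact_mod_cast this
  -- the first term
  have h13 : c * ((q - 1) * l) ^ d ≤ n ^ 3 := by
    refine le_trans (Nat.mul_le_mul_left _ (Nat.pow_le_pow_left ?_ _)) hc
    exact Nat.mul_le_mul_right _ (Nat.sub_le q 1)
  have h14 : 8 * (n : ℝ) ^ (e + 3) ≤ Real.sqrt (2 * (32 * n ^ (2 * e + 6) : ℕ) + 3) := by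
    apply Real.le_sqrt_of_sq_le
    push_cast
    rw [mul_pow, ← pow_mul, show (e + 3) * 2 = 2 * e + 6 by ring]
    linarith
  have h15 : ((c * ((q - 1) * l) ^ d : ℕ) : ℝ) /
      Real.sqrt (2 * (32 * n ^ (2 * e + 6) : ℕ) + 3) ≤ 1 / (8 * (n : ℝ) ^ e) := by
    calc ((c * ((q - 1) * l) ^ d : ℕ) : ℝ) / Real.sqrt (2 * (32 * n ^ (2 * e + 6) : ℕ) + 3)
        ≤ ((c * ((q - 1) * l) ^ d : ℕ) : ℝ) / (8 * (n : ℝ) ^ (e + 3)) :=
          div_le_div_of_nonneg_left (by positivity) (by positivity) h14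
      _ ≤ 1 / (8 * (n : ℝ) ^ e) := by
          rw [div_le_div_iff₀ (by positivity) (by positivity)]
          have h17 : (c * ((q - 1) * l) ^ d) * (8 * n ^ e) ≤ 1 * (8 * n ^ (e + 3)) := by
            calc (c * ((q - 1) * l) ^ d) * (8 * n ^ e) ≤ n ^ 3 * (8 * n ^ e) :=
                  Nat.mul_le_mul_right _ h13
              _ = 1 * (8 * n ^ (e + 3)) := by ring
          exact_mod_cast h17
  have h18 : 4 * (1 / (8 * (n : ℝ) ^ e) + 1 / (8 * (n : ℝ) ^ e)) = 1 / (n : ℝ) ^ e := by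
    field_simp
    norm_num
  rw [← h18]
  linarith

/-- The number of variables of the majority function. -/
def mmE (e n : ℕ) : ℕ := 2 * (32 * n ^ (2 * e + 6)) + 1

/-- The scheme over the alphabet `ZMod p`, `p` any positive integer, is secure against circuits
with gates modulo any prime `q`, over arbitrary functions of few symbols: explicit bounds. -/
theorem scheme_secureE [NeZero p] (e q : ℕ) (hq : q.Prime) (n d k c : ℕ) (hn : 1 ≤ n)
    (hc : c * (q * (d * (k + 1) + e * (Nat.log 2 n + 1) + 3)) ^ d ≤ n ^ 3) (mA : ℕ)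
    (A : (Fin ((scheme p (mmE e)).pk n) ⊕ Fin ((scheme p (mmE e)).ct n) ⊕ Fin mA → ZMod p) → Bool)
    (hA : A ∈ AC q {f : (Fin ((scheme p (mmE e)).pk n) ⊕ Fin ((scheme p (mmE e)).ct n) ⊕
      Fin mA → ZMod p) → Bool | Dep c f} (2 ^ k) d) (b b' : ZMod p) :
    |(scheme p (mmE e)).pr n mA A b - (scheme p (mmE e)).pr n mA A b'| ≤ 1 / (n : ℝ) ^ e := by
  have : Fact q.Prime := ⟨hq⟩
  have hnum := numE q d e n k c hn hc
  set l := d * (k + 1) + e * (Nat.log 2 n + 1) + 3 with hl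
  have hl1 : 1 ≤ l := by omega
  set h := 32 * n ^ (2 * e + 6) with hh
  rw [pr_eq, pr_eq, rel_eq, rel_eq, ← sub_div, abs_div]
  set F : (PKi (2 * h + 1) ⊕ CTi (2 * h + 1) → ZMod p) → ℝ :=
    fun z => ∑ u : Fin mA → ZMod p, if A (inp z u) = true then (1 : ℝ) else 0 with hF
  set O : ℝ := hyb (m := 2 * h + 1) (0 : ZMod p) 0 (fun _ => ∑ _u : Fin mA → ZMod p, (1 : ℝ))
    with hO
  have hOpos : 0 < O := by
    rw [hO, hyb_card]
    have : 0 < Fintype.card (Om p (2 * h + 1) mA) := Fintype.card_pos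
    exact_mod_cast this
  have e1 : |hyb 0 b F - hyb 1 b F| ≤ 2 * (((c * ((q - 1) * l) ^ d : ℕ) : ℝ) *
      ((2 * h + 1).choose h : ℝ) / 2 ^ (2 * h + 1) + (((2 ^ k + 1) ^ d : ℕ) : ℝ) / 2 ^ l) * O :=
    embJ h mA (2 ^ k) d l c hl1 b inp inp_coord A hA
  have e2 : |hyb 0 b' F - hyb 1 b' F| ≤ 2 * (((c * ((q - 1) * l) ^ d : ℕ) : ℝ) *
      ((2 * h + 1).choose h : ℝ) / 2 ^ (2 * h + 1) + (((2 ^ k + 1) ^ d : ℕ) : ℝ) / 2 ^ l) * O :=
    embJ h mA (2 ^ k) d l c hl1 b' inp inp_coord A hA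
  rw [hyb_one b b' F] at e1
  change |hyb 0 b F - hyb 0 b' F| / |O| ≤ 1 / (n : ℝ) ^ e
  rw [abs_of_pos hOpos, div_le_iff₀ hOpos]
  refine le_trans ?_ (mul_le_mul_of_nonneg_right hnum hOpos.le)
  have hmid := mid_le h
  have hD : (0 : ℝ) ≤ ((c * ((q - 1) * l) ^ d : ℕ) : ℝ) := Nat.cast_nonneg _
  have hmul := mul_le_mul_of_nonneg_left hmid hD
  rw [← mul_div_assoc, ← mul_div_assoc, mul_one] at hmul
  have htri : |hyb 0 b F - hyb 0 b' F| ≤ |hyb 0 b F - hyb 1 b' F| + |hyb 0 b' F - hyb 1 b' F| := by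
    have := abs_sub_le (hyb 0 b F) (hyb 1 b' F) (hyb 0 b' F)
    rwa [abs_sub_comm (hyb 1 b' F) (hyb 0 b' F)] at this
  refine htri.trans ((add_le_add e1 e2).trans ?_)
  have := mul_le_mul_of_nonneg_right hmul hOpos.le
  nlinarith

end Pool.Agent.PKEp
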