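import Pool.Agent.PKEp.Emb

/-!
# The embedding of majority is a projection

For fixed coins every symbol of the view depends on one bit of the input of majority.
-/

namespace Pool.Agent.PKEp

open Finset

variable {p m : ℕ}

/-! ### The view with shares of a natural form -/

/-- The view made from a matrix `W` and shares `v'` of the last column. -/
noncomputable def viewG (W v' : Row m → St m → ZMod p) (ρ : Row m → St m → ZMod p)
    (r : Row m → ZMod p) (σ : St m → Row m → ZMod p) (τ : Option (Row m × St m) → ZMod p)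
    (b : ZMod p) : PKi m ⊕ CTi m → ZMod p :=
  pub W (fun i => sh (v' i) (ρ i)) (fun j => sh (fun i => r i * W i j) (σ j))
    (sh (cB (fun i => sh (v' i) (ρ i)) r b) τ)

private lemma sum_conc' {T : Type} [Fintype T] [DecidableEq T] (x₀ : T) (a : ZMod p) :
    ∑ x, conc x₀ a x = a := by
  unfold conc
  rw [sum_ite_eq' univ x₀ fun _ => a, if_pos (mem_univ _)]

private lemma sum_cB' (v' : Row m → St m → ZMod p) (ρ : Row m → St m → ZMod p)
    (r : Row m → ZMod p) (b : ZMod p) :
    ∑ x, cB (fun i => sh (v' i) (ρ i)) r b x = ∑ i, r i * (∑ j, v' i j) + b := by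
  rw [Fintype.sum_option, Fintype.sum_prod_type, add_comm]
  have : ∀ i, ∑ j, cB (fun i => sh (v' i) (ρ i)) r b (some (i, j)) = r i * ∑ j, v' i j := by
    intro i
    simp only [cB]
    rw [← mul_sum, sum_sh]
  simp only [this]
  rfl

/-- The distribution of the view depends only on the sums of the shares. -/
theorem viewG_eq [NeZero p] (W v' : Row m → St m → ZMod p) (y : Row m → ZMod p)
    (hy : ∀ i, ∑ j, v' i j = y i) (b : ZMod p) (f : (PKi m ⊕ CTi m → ZMod p) → ℝ) :
    (∑ ρ : Row m → St m → ZMod p, ∑ r : Row m → ZMod p, ∑ σ : St m → Row m → ZMod p,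
      ∑ τ : Option (Row m × St m) → ZMod p, f (viewG W v' ρ r σ τ b)) =
    ∑ ρ : Row m → St m → ZMod p, ∑ r : Row m → ZMod p, ∑ σ : St m → Row m → ZMod p,
      ∑ τ : Option (Row m × St m) → ZMod p, f (view W y ρ r σ τ b) := by
  classical
  have h1 : ∀ (ρ : Row m → St m → ZMod p) (r : Row m → ZMod p) (σ : St m → Row m → ZMod p),
      ∑ τ : Option (Row m × St m) → ZMod p, f (viewG W v' ρ r σ τ b) =
      ∑ τ : Option (Row m × St m) → ZMod p, f (pub W (fun i => sh (v' i) (ρ i))
        (fun j => sh (fun i => r i * W i j) (σ j))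
        (sh (conc none (∑ i, r i * y i + b)) τ)) := by
    intro ρ r σ
    exact sum_sh_eq (cB (fun i => sh (v' i) (ρ i)) r b) (conc none (∑ i, r i * y i + b))
      (by rw [sum_cB', sum_conc']; simp only [hy])
      (fun B => f (pub W (fun i => sh (v' i) (ρ i)) (fun j => sh (fun i => r i * W i j) (σ j)) B))
  have h2 : ∀ (ρ : Row m → St m → ZMod p) (r : Row m → ZMod p),
      ∑ σ : St m → Row m → ZMod p, ∑ τ : Option (Row m × St m) → ZMod p,
        f (pub W (fun i => sh (v' i) (ρ i)) (fun j => sh (fun i => r i * W i j) (σ j))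
          (sh (conc none (∑ i, r i * y i + b)) τ)) =
      ∑ σ : St m → Row m → ZMod p, ∑ τ : Option (Row m × St m) → ZMod p,
        f (pub W (fun i => sh (v' i) (ρ i)) (fun j => sh (conc none (∑ i, r i * W i j)) (σ j))
          (sh (conc none (∑ i, r i * y i + b)) τ)) := by
    intro ρ r
    exact sum_sh_fam (fun j i => r i * W i j) (fun j => conc none (∑ i, r i * W i j))
      (fun j => by rw [sum_conc'])
      (fun A => ∑ τ : Option (Row m × St m) → ZMod p,
        f (pub W (fun i => sh (v' i) (ρ i)) A (sh (conc none (∑ i, r i * y i + b)) τ)))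
  have h3 : ∑ ρ : Row m → St m → ZMod p, ∑ r : Row m → ZMod p,
      ∑ σ : St m → Row m → ZMod p, ∑ τ : Option (Row m × St m) → ZMod p,
        f (pub W (fun i => sh (v' i) (ρ i)) (fun j => sh (conc none (∑ i, r i * W i j)) (σ j))
          (sh (conc none (∑ i, r i * y i + b)) τ)) =
      ∑ ρ : Row m → St m → ZMod p, ∑ r : Row m → ZMod p,
      ∑ σ : St m → Row m → ZMod p, ∑ τ : Option (Row m × St m) → ZMod p,
        f (pub W (fun i => sh (conc (0, 0) (y i)) (ρ i))
          (fun j => sh (conc none (∑ i, r i * W i j)) (σ j))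
          (sh (conc none (∑ i, r i * y i + b)) τ)) :=
    sum_sh_fam v' (fun i => conc (0, 0) (y i))
      (fun i => by rw [sum_conc', hy])
      (fun P => ∑ r : Row m → ZMod p,
        ∑ σ : St m → Row m → ZMod p, ∑ τ : Option (Row m × St m) → ZMod p,
        f (pub W P (fun j => sh (conc none (∑ i, r i * W i j)) (σ j))
          (sh (conc none (∑ i, r i * y i + b)) τ)))
  simp only [h1]
  simp only [h2]
  exact h3

/-- The additional shares. -/
def cXs (h : ℕ) (s : St m → ZMod p) (v : St m → St m → ZMod p) : Row m → St m → ZMod p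
  | none, j => s j * acc p h j
  | some q, j => Vv v q j * acc p h j

/-- The shares of the last column made from the program. -/
def vP (h : ℕ) (x : Finset (Fin m)) (s : St m → ZMod p) (v : St m → St m → ZMod p)
    (t : St m → ZMod p) (i : Row m) (j : St m) : ZMod p :=
  WX x s v i j * t j + cXs h s v i j

lemma sum_vP (h : ℕ) (x : Finset (Fin m)) (s : St m → ZMod p) (v : St m → St m → ZMod p)
    (t : St m → ZMod p) (i : Row m) : ∑ j, vP h x s v t i j = yX h x s v t i := by
  unfold vP yX
  rw [sum_add_distrib]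
  congr 1
  cases i <;> rfl

/-- For every input `x` the key with `β = Maj x` can be made from the program with shares which
depend on one bit each. -/
theorem hyb_P [NeZero p] (h : ℕ) (hm : h < m) (x : Finset (Fin m)) (b : ZMod p)
    (f : (PKi m ⊕ CTi m → ZMod p) → ℝ) :
    hyb (if h < x.card then 1 else 0) b f =
      ∑ s : St m → ZMod p, ∑ v : St m → St m → ZMod p, ∑ t : St m → ZMod p,
        ∑ ρ : Row m → St m → ZMod p, ∑ r : Row m → ZMod p, ∑ σ : St m → Row m → ZMod p,
          ∑ τ : Option (Row m × St m) → ZMod p,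
            f (viewG (WX x s v) (vP h x s v t) ρ r σ τ b) := by
  rw [hyb_X h hm x b f]
  refine sum_congr rfl fun s _ => sum_congr rfl fun v _ => sum_congr rfl fun t _ => ?_
  exact (viewG_eq (WX x s v) (vP h x s v t) (yX h x s v t) (sum_vP h x s v t) b f).symm

/-! ### Functions of one bit -/

/-- The function depends only on the bit with number `k`. -/
def OB {α : Type} (k : ℕ) (g : Finset (Fin m) → α) : Prop :=
  ∀ x x', (bit x k ↔ bit x' k) → g x = g x'

lemma OB.const {α : Type} (k : ℕ) (c : α) : OB k (fun _ : Finset (Fin m) => c) :=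
  fun _ _ _ => rfl

lemma OB.comp {α β : Type} {k : ℕ} {g : Finset (Fin m) → α} (hg : OB k g) (F : α → β) :
    OB k fun x => F (g x) := fun x x' h => congrArg F (hg x x' h)

lemma OB.comp₂ {α β γ : Type} {k : ℕ} {g : Finset (Fin m) → α} {g' : Finset (Fin m) → β}
    (hg : OB k g) (hg' : OB k g') (F : α → β → γ) :
    OB k fun x => F (g x) (g' x) := fun x x' h => congrArg₂ F (hg x x' h) (hg' x x' h)

lemma OB.sum {k : ℕ} {J : Type} (S : Finset J) (g : J → Finset (Fin m) → ZMod p)
    (hg : ∀ j ∈ S, OB k (g j)) : OB k fun x => ∑ j ∈ S, g j x :=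
  fun x x' h => sum_congr rfl fun j hj => hg j hj x x' h

/-- The number of the bit which is read in a column. -/
def col (j : St m) : ℕ := j.1.1 - 1

lemma U_OB (q j : St m) : OB (col j) fun x : Finset (Fin m) => U p x q j := by
  intro x x' h
  change U p x q j = U p x' q j
  by_cases h1 : j.1.1 = q.1.1 + 1
  · have h2 : col j = q.1.1 := by unfold col; omega
    rw [h2] at h
    unfold U
    by_cases h3 : bit x q.1.1
    · rw [if_pos h3, if_pos (h.1 h3)]
    · rw [if_neg h3, if_neg (fun h4 => h3 (h.2 h4))]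
  · have h3 : ∀ y : Finset (Fin m), U p y q j = (if q = j then 1 else 0) - 0 := by
      intro y
      unfold U
      congr 1
      exact if_neg fun h2 => h1 h2.1
    rw [h3, h3]

lemma WX_OB (s : St m → ZMod p) (v : St m → St m → ZMod p) (i : Row m) (j : St m) :
    OB (col j) fun x => WX x s v i j := by
  cases i with
  | none =>
    exact (OB.const _ _).comp₂ (OB.sum _ _ fun q _ => (U_OB q j).comp (fun y => s q * y))
      (fun a b => a + b)
  | some q => exact OB.sum _ _ fun k _ => (U_OB k j).comp (fun y => Vv v q k * y)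

lemma vP_OB (h : ℕ) (s : St m → ZMod p) (v : St m → St m → ZMod p) (t : St m → ZMod p)
    (i : Row m) (j : St m) : OB (col j) fun x => vP h x s v t i j :=
  (WX_OB s v i j).comp fun y => y * t j + cXs h s v i j

/-- The number of the bit on which a symbol of the view depends. -/
def bitOf : PKi m ⊕ CTi m → ℕ
  | Sum.inl (Sum.inl x) => col x.2
  | Sum.inl (Sum.inr x) => col x.2
  | Sum.inr (Sum.inl x) => col x.1
  | Sum.inr (Sum.inr none) => 0
  | Sum.inr (Sum.inr (some x)) => col x.2

/-- Every symbol of the view depends on one bit of the input. -/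
theorem viewG_OB (h : ℕ) (s : St m → ZMod p) (v : St m → St m → ZMod p) (t : St m → ZMod p)
    (ρ : Row m → St m → ZMod p) (r : Row m → ZMod p) (σ : St m → Row m → ZMod p)
    (τ : Option (Row m × St m) → ZMod p) (b : ZMod p) (i : PKi m ⊕ CTi m) :
    OB (bitOf i) fun x => viewG (WX x s v) (vP h x s v t) ρ r σ τ b i := by
  rcases i with (i | i) | (i | i)
  · exact WX_OB s v i.1 i.2
  · exact (vP_OB h s v t i.1 i.2).comp fun y => y + ρ i.1 i.2 - ρ i.1 (nx (St m) i.2)
  · exact (WX_OB s v i.2 i.1).comp fun y => r i.2 * y + σ i.1 i.2 - σ i.1 (nx (Row m) i.2)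
  · rcases i with _ | i
    · intro x x' _
      rfl
    · exact (vP_OB h s v t i.1 i.2).comp fun y =>
        r i.1 * (y + ρ i.1 i.2 - ρ i.1 (nx (St m) i.2)) + τ (some i) -
          τ (nx (Option (Row m × St m)) (some i))

/-- Functions of one bit are affine, over every field. -/
theorem OB.mem_Aff {q k : ℕ} {g : Finset (Fin m) → ZMod q} (hg : OB k g) : g ∈ Aff q m := by
  by_cases hk : k < m
  · have h1 : bit ({⟨k, hk⟩} : Finset (Fin m)) k := ⟨⟨k, hk⟩, mem_singleton_self _, rfl⟩
    have h0 : ¬ bit (∅ : Finset (Fin m)) k := fun ⟨j, hj, _⟩ => absurd hj (notMem_empty j)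
    have : g = (fun _ => g ∅) + (g {⟨k, hk⟩} - g ∅) •
        (fun x : Finset (Fin m) => if bit x k then (1 : ZMod q) else 0) := by
      funext x
      rw [Pi.add_apply, Pi.smul_apply, smul_eq_mul]
      by_cases hx : bit x k
      · rw [if_pos hx, hg x {⟨k, hk⟩} (iff_of_true hx h1)]
        ring
      · rw [if_neg hx, hg x ∅ (iff_of_false hx h0)]
        ring
    rw [this]
    exact Submodule.add_mem _ (const_mem_Aff q _) (Submodule.smul_mem _ _ (bit_mem_Aff q _))
  · have hb : ∀ x : Finset (Fin m), ¬ bit x k := by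
      rintro x ⟨j, -, hj⟩
      have := j.2
      omega
    have : g = fun _ => g ∅ := by
      funext x
      exact hg x ∅ (iff_of_false (hb x) (hb ∅))
    rw [this]
    exact const_mem_Aff q _

end Pool.Agent.PKEp
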