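import Pool.Agent.PKEp.EmbC
import Pool.Agent.PKEp.Proj

/-!
# The distance of the real and the lossy hybrid, gates modulo any prime
-/

namespace Pool.Agent.PKEp

open Finset

set_option synthInstance.maxSize 5000

variable {p m : ℕ}

/-- The numerical bound for the number of agreements, times `2 ^ l`. -/
def bdQ (q h s d l : ℕ) : ℕ :=
  (2 ^ (2 * h) + (((q - 1) * l) ^ d) * (2 * h + 1).choose h) * 2 ^ l +
    (s + 1) ^ d * 2 ^ (2 * h + 1)

theorem count_boundQ {q : ℕ} [Fact q.Prime] {Ω X : Type} [Fintype Ω] (h s d l : ℕ) (hl : 1 ≤ l)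
    (Ψ : Finset (Fin (2 * h + 1)) × Ω → X) (B : Set (X → Bool))
    (hB : ∀ f ∈ B, ∀ ω, (fun x => if f (Ψ (x, ω)) = true then (1 : ZMod q) else 0) ∈
      Aff q (2 * h + 1)) (f : X → Bool) (hf : f ∈ AC q B s d) :
    (univ.filter fun z : Finset (Fin (2 * h + 1)) × Ω =>
      (f (Ψ z) = true ↔ h < z.1.card)).card * 2 ^ l ≤ Fintype.card Ω * bdQ q h s d l ∧
    (univ.filter fun z : Finset (Fin (2 * h + 1)) × Ω =>
      ¬ (f (Ψ z) = true ↔ h < z.1.card)).card * 2 ^ l ≤ Fintype.card Ω * bdQ q h s d l := by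
  classical
  obtain ⟨g, hg, hgf⟩ := approx_gen (fib q (2 * h + 1) Ω) (one_mem_fib Ω) Ψ B
    (fun f hf ω => hB f hf ω) s d l hl f hf
  set D := ((q - 1) * l) ^ d with hD
  rw [Fintype.card_prod, Fintype.card_finset, Fintype.card_fin] at hgf
  have hone : (1 : Finset (Fin (2 * h + 1)) × Ω → ZMod q) ∈ fib q (2 * h + 1) Ω ^ D := by
    have : (1 : Submodule (ZMod q) (Finset (Fin (2 * h + 1)) × Ω → ZMod q)) ≤
        fib q (2 * h + 1) Ω := by
      rw [Submodule.one_le]
      exact one_mem_fib Ω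
    have h2 := pow_le_pow_left' this D
    rw [one_pow] at h2
    exact Submodule.one_le.1 h2
  have hg' : 1 - g ∈ fib q (2 * h + 1) Ω ^ D := Submodule.sub_mem _ hone hg
  have a1 := agree_le h D g hg
  have a2 := agree_le h D (1 - g) hg'
  set E := (univ.filter fun z : Finset (Fin (2 * h + 1)) × Ω =>
    g z ≠ if f (Ψ z) = true then 1 else 0) with hE
  have fin : ∀ (N G : Finset (Finset (Fin (2 * h + 1)) × Ω)), N ⊆ G ∪ E →
      G.card ≤ Fintype.card Ω * (2 ^ (2 * h) + D * (2 * h + 1).choose h) →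
      N.card * 2 ^ l ≤ Fintype.card Ω * bdQ q h s d l := by
    intro N G hN hG
    have h1 : N.card ≤ G.card + E.card := (card_le_card hN).trans (card_union_le _ _)
    calc N.card * 2 ^ l ≤ (G.card + E.card) * 2 ^ l := Nat.mul_le_mul_right _ h1
      _ = G.card * 2 ^ l + E.card * 2 ^ l := by ring
      _ ≤ (Fintype.card Ω * (2 ^ (2 * h) + D * (2 * h + 1).choose h)) * 2 ^ l +
          (s + 1) ^ d * (2 ^ (2 * h + 1) * Fintype.card Ω) :=
        Nat.add_le_add (Nat.mul_le_mul_right _ hG) hgf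
      _ = Fintype.card Ω * bdQ q h s d l := by
        unfold bdQ
        rw [← hD]
        ring
  constructor
  · refine fin _ _ (fun z hz => ?_) a1
    rw [mem_filter] at hz
    rw [mem_union, mem_filter, mem_filter]
    by_cases he : g z = if f (Ψ z) = true then 1 else 0
    · left
      refine ⟨mem_univ _, ?_⟩
      rw [he]
      by_cases hm : h < z.1.card
      · rw [if_pos hm, if_pos (hz.2.2 hm)]
      · rw [if_neg hm, if_neg (fun hh => hm (hz.2.1 hh))]
    · exact Or.inr ⟨mem_univ _, he⟩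
  · refine fin _ _ (fun z hz => ?_) a2
    rw [mem_filter] at hz
    rw [mem_union, mem_filter, mem_filter]
    by_cases he : g z = if f (Ψ z) = true then 1 else 0
    · left
      refine ⟨mem_univ _, ?_⟩
      rw [Pi.sub_apply, Pi.one_apply, he]
      by_cases hm : h < z.1.card
      · have : ¬ f (Ψ z) = true := fun hh => hz.2 (iff_of_true hh hm)
        rw [if_pos hm, if_neg this, sub_zero]
      · have : f (Ψ z) = true := by
          by_contra hh
          exact hz.2 (iff_of_false hh hm)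
        rw [if_neg hm, if_pos this, sub_self]
    · exact Or.inr ⟨mem_univ _, he⟩

/-- From the number of agreements to the distance of two averages. -/
theorem two_countsQ {q : ℕ} [Fact q.Prime] {Ω X : Type} [Fintype Ω] (h s d l : ℕ) (hl : 1 ≤ l)
    (Ψ : Finset (Fin (2 * h + 1)) × Ω → X) (B : Set (X → Bool))
    (hB : ∀ f ∈ B, ∀ ω, (fun x => if f (Ψ (x, ω)) = true then (1 : ZMod q) else 0) ∈
      Aff q (2 * h + 1)) (f : X → Bool) (hf : f ∈ AC q B s d) (H0 H1 : ℝ)
    (hx : ∀ x : Finset (Fin (2 * h + 1)),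
      (∑ ω : Ω, if f (Ψ (x, ω)) = true then (1 : ℝ) else 0) = if h < x.card then H1 else H0) :
    |H0 - H1| ≤ 2 * (((((q - 1) * l) ^ d : ℕ) : ℝ) * ((2 * h + 1).choose h : ℝ) /
      2 ^ (2 * h + 1) + (((s + 1) ^ d : ℕ) : ℝ) / 2 ^ l) * Fintype.card Ω := by
  classical
  obtain ⟨c1, c2⟩ := count_boundQ h s d l hl Ψ B hB f hf
  have hn : ∀ x : Finset (Fin (2 * h + 1)),
      (∑ ω : Ω, if ¬ f (Ψ (x, ω)) = true then (1 : ℝ) else 0) =
      Fintype.card Ω - ∑ ω : Ω, if f (Ψ (x, ω)) = true then (1 : ℝ) else 0 := by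
    intro x
    rw [eq_sub_iff_add_eq, ← sum_add_distrib]
    have : (Fintype.card Ω : ℝ) = ∑ _ω : Ω, (1 : ℝ) := by
      rw [sum_const, card_univ, nsmul_eq_mul, mul_one]
    rw [this]
    refine sum_congr rfl fun ω _ => ?_
    by_cases hc : f (Ψ (x, ω)) = true
    · rw [if_neg (not_not.2 hc), if_pos hc, zero_add]
    · rw [if_pos hc, if_neg hc, add_zero]
  have hmaj := maj_half h
  have hmaj' : (univ.filter fun x : Finset (Fin (2 * h + 1)) => ¬ h < x.card).card =
      2 ^ (2 * h) := by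
    have h2 := card_filter_add_card_filter_not (s := (univ : Finset (Finset (Fin (2 * h + 1)))))
      (fun x => h < x.card)
    rw [card_univ, Fintype.card_finset, Fintype.card_fin, hmaj, pow_succ] at h2
    omega
  have split : ∀ (F G : ℝ) (P : Finset (Fin (2 * h + 1)) × Ω → Prop) [DecidablePred P],
      (∀ x : Finset (Fin (2 * h + 1)), (∑ ω : Ω, if P (x, ω) then (1 : ℝ) else 0) =
        if h < x.card then F else G) →
      ((univ.filter fun z : Finset (Fin (2 * h + 1)) × Ω => P z).card : ℝ) =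
        2 ^ (2 * h) * F + 2 ^ (2 * h) * G := by
    intro F G P _ hP
    rw [← sum_boole, Fintype.sum_prod_type]
    simp only [hP]
    rw [sum_ite, sum_const, sum_const, hmaj, hmaj', nsmul_eq_mul, nsmul_eq_mul]
    push_cast
    ring
  have n1 := split H1 (Fintype.card Ω - H0)
    (fun z => (f (Ψ z) = true ↔ h < z.1.card)) (by
      intro x
      have := hx x
      by_cases hmx : h < x.card
      · rw [if_pos hmx] at this ⊢
        rw [← this]
        exact sum_congr rfl fun ω _ => if_congr (iff_true_right hmx) rfl rfl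
      · rw [if_neg hmx] at this ⊢
        rw [← this, ← hn x]
        exact sum_congr rfl fun ω _ => if_congr (iff_false_right hmx) rfl rfl)
  have n0 := split (Fintype.card Ω - H1) H0
    (fun z => ¬ (f (Ψ z) = true ↔ h < z.1.card)) (by
      intro x
      have := hx x
      by_cases hmx : h < x.card
      · rw [if_pos hmx] at this ⊢
        rw [← this, ← hn x]
        exact sum_congr rfl fun ω _ => if_congr (not_congr (iff_true_right hmx)) rfl rfl
      · rw [if_neg hmx] at this ⊢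
        rw [← this]
        exact sum_congr rfl fun ω _ => if_congr
          ((not_congr (iff_false_right hmx)).trans not_not) rfl rfl)
  have b1 : ((univ.filter fun z : Finset (Fin (2 * h + 1)) × Ω =>
      (f (Ψ z) = true ↔ h < z.1.card)).card : ℝ) * 2 ^ l ≤
      Fintype.card Ω * (bdQ q h s d l : ℝ) := by
    exact_mod_cast c1
  have b0 : ((univ.filter fun z : Finset (Fin (2 * h + 1)) × Ω =>
      ¬ (f (Ψ z) = true ↔ h < z.1.card)).card : ℝ) * 2 ^ l ≤
      Fintype.card Ω * (bdQ q h s d l : ℝ) := by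
    exact_mod_cast c2
  rw [n1] at b1
  rw [n0] at b0
  have hbd : (bdQ q h s d l : ℝ) = (2 ^ (2 * h) + ((((q - 1) * l) ^ d : ℕ) : ℝ) *
      ((2 * h + 1).choose h : ℝ)) * 2 ^ l + (((s + 1) ^ d : ℕ) : ℝ) * 2 ^ (2 * h + 1) := by
    unfold bdQ
    push_cast
    ring
  rw [hbd] at b1 b0
  generalize ((((q - 1) * l) ^ d : ℕ) : ℝ) = DD at *
  generalize ((2 * h + 1).choose h : ℝ) = CC at *
  generalize (((s + 1) ^ d : ℕ) : ℝ) = SS at *
  generalize (Fintype.card Ω : ℝ) = O at *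
  have hp1 : (0 : ℝ) < 2 ^ (2 * h) := by positivity
  have hp2 : (0 : ℝ) < 2 ^ l := by positivity
  have key : ∀ y : ℝ, 2 ^ (2 * h) * y * 2 ^ l ≤
      O * (DD * CC * 2 ^ l + SS * 2 ^ (2 * h + 1)) →
      y ≤ 2 * (DD * CC / 2 ^ (2 * h + 1) + SS / 2 ^ l) * O := by
    intro y hy
    have e1 : 2 * (DD * CC / 2 ^ (2 * h + 1) + SS / 2 ^ l) * O =
        O * (DD * CC * 2 ^ l + SS * 2 ^ (2 * h + 1)) / (2 ^ (2 * h) * 2 ^ l) := by
      rw [pow_succ]
      field_simp
    rw [e1, le_div_iff₀ (by positivity)]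
    linarith
  rw [abs_le]
  constructor
  · have := key (H1 - H0) (by linear_combination b1)
    linarith
  · have := key (H0 - H1) (by linear_combination b0)
    linarith

/-- The view made from the program, with shares which depend on one bit. -/
noncomputable def vwG {mA : ℕ} (h : ℕ) (b : ZMod p) (z : Finset (Fin m) × Om p m mA) :
    PKi m ⊕ CTi m → ZMod p :=
  viewG (WX z.1 z.2.1 z.2.2.1) (vP h z.1 z.2.1 z.2.2.1 z.2.2.2.1) z.2.2.2.2.1 z.2.2.2.2.2.1
    z.2.2.2.2.2.2.1 z.2.2.2.2.2.2.2.1 b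

lemma vwG_OB {mA : ℕ} (h : ℕ) (b : ZMod p) (ω : Om p m mA) (i : PKi m ⊕ CTi m) :
    OB (bitOf i) fun x => vwG h b (x, ω) i :=
  viewG_OB h ω.1 ω.2.1 ω.2.2.1 ω.2.2.2.1 ω.2.2.2.2.1 ω.2.2.2.2.2.1 ω.2.2.2.2.2.2.1 b i

lemma hyb_vwG [NeZero p] (h : ℕ) (hm : h < m) (mA : ℕ) (b : ZMod p) (x : Finset (Fin m))
    (G : (PKi m ⊕ CTi m → ZMod p) → (Fin mA → ZMod p) → ℝ) :
    hyb (if h < x.card then 1 else 0) b (fun z => ∑ u, G z u) =
      ∑ ω : Om p m mA, G (vwG h b (x, ω)) ω.2.2.2.2.2.2.2 := by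
  rw [hyb_P h hm x b]
  simp only [Fintype.sum_prod_type]
  rfl

theorem embQ {q : ℕ} [Fact q.Prime] [NeZero p] {ι : Type} (h mA s d l : ℕ) (hl : 1 ≤ l)
    (b : ZMod p)
    (inp : (PKi (2 * h + 1) ⊕ CTi (2 * h + 1) → ZMod p) → (Fin mA → ZMod p) → ι → ZMod p)
    (hinp : ∀ i, (∃ j, ∀ z u, inp z u i = z j) ∨ ∃ j, ∀ z u, inp z u i = u j)
    (f : (ι → ZMod p) → Bool) (hf : f ∈ AC q (lits p ι) s d) :
    |hyb 0 b (fun z => ∑ u : Fin mA → ZMod p, if f (inp z u) = true then (1 : ℝ) else 0) -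
      hyb 1 b (fun z => ∑ u : Fin mA → ZMod p, if f (inp z u) = true then (1 : ℝ) else 0)| ≤
    2 * (((((q - 1) * l) ^ d : ℕ) : ℝ) * ((2 * h + 1).choose h : ℝ) /
      2 ^ (2 * h + 1) + (((s + 1) ^ d : ℕ) : ℝ) / 2 ^ l) *
      hyb (m := 2 * h + 1) (0 : ZMod p) 0 (fun _ => ∑ _u : Fin mA → ZMod p, (1 : ℝ)) := by
  classical
  rw [hyb_card]
  refine two_countsQ (Ω := Om p (2 * h + 1) mA) h s d l hl
    (fun z => inp (vwG h b z) z.2.2.2.2.2.2.2.2) (lits p ι) ?_ f hf _ _ ?_
  · rintro f (⟨i, T, rfl⟩ | ⟨c, rfl⟩) ω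
    · rcases hinp i with ⟨j, hj⟩ | ⟨j, hj⟩
      · simp only [hj]
        exact ((vwG_OB h b ω j).comp fun y => if T y = true then (1 : ZMod q) else 0).mem_Aff
      · simp only [hj]
        exact const_mem_Aff q _
    · exact const_mem_Aff q _
  · intro x
    have := hyb_vwG h (by omega) mA b x (fun z u => if f (inp z u) = true then (1 : ℝ) else 0)
    rw [← this]
    by_cases hmx : h < x.card
    · rw [if_pos hmx, if_pos hmx]
    · rw [if_neg hmx, if_neg hmx]

end Pool.Agent.PKEp
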