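import Pool.Agent.PKEp.Scheme

/-!
# The hybrids
-/

namespace Pool.Agent.PKEp

open Finset

variable {p m : ℕ} [NeZero p]

omit [NeZero p] in
private lemma sum_conc {T : Type} [Fintype T] [DecidableEq T] (x₀ : T) (a : ZMod p) :
    ∑ x, conc x₀ a x = a := by
  unfold conc
  rw [sum_ite_eq' univ x₀ fun _ => a, if_pos (mem_univ _)]

omit [NeZero p] in
private lemma sum_cB (W : Row m → St m → ZMod p) (t : St m → ZMod p) (ρ : Row m → St m → ZMod p)
    (r : Row m → ZMod p) (b : ZMod p) :
    ∑ x, cB (pkP W t ρ) r b x = ∑ i, r i * (∑ j, W i j * t j) + b := by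
  rw [Fintype.sum_option, Fintype.sum_prod_type, add_comm]
  have : ∀ i, ∑ j, cB (pkP W t ρ) r b (some (i, j)) = r i * ∑ j, W i j * t j := by
    intro i
    simp only [cB, pkP]
    rw [← mul_sum, sum_sh]
  simp only [this]
  rfl

/-- The real view has the distribution of the hybrid view with `β = 0`. -/
theorem rel_eq (b : ZMod p) (f : (PKi m ⊕ CTi m → ZMod p) → ℝ) : rel b f = hyb 0 b f := by
  classical
  unfold rel hyb
  refine sum_congr rfl fun s _ => sum_congr rfl fun v _ => sum_congr rfl fun t _ => ?_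
  set W := WW s v with hW
  have hy : ∀ i, yy W t 0 i = ∑ j, W i j * t j := by
    intro i
    unfold yy
    rw [ite_self, sub_zero]
  -- the shares of the second part of the ciphertext
  have h1 : ∀ (ρ : Row m → St m → ZMod p) (r : Row m → ZMod p) (σ : St m → Row m → ZMod p),
      ∑ τ : Option (Row m × St m) → ZMod p, f (real s v t ρ r σ τ b) =
      ∑ τ : Option (Row m × St m) → ZMod p, f (pub W (pkP W t ρ) (ctA W r σ)
        (sh (conc none (∑ i, r i * yy W t 0 i + b)) τ)) := by
    intro ρ r σ
    have := sum_sh_eq (cB (pkP W t ρ) r b) (conc none (∑ i, r i * yy W t 0 i + b))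
      (by rw [sum_cB, sum_conc]; simp only [hy])
      (fun B => f (pub W (pkP W t ρ) (ctA W r σ) B))
    exact this
  -- the shares of the first part of the ciphertext
  have h2 : ∀ (ρ : Row m → St m → ZMod p) (r : Row m → ZMod p),
      ∑ σ : St m → Row m → ZMod p, ∑ τ : Option (Row m × St m) → ZMod p,
        f (pub W (pkP W t ρ) (ctA W r σ) (sh (conc none (∑ i, r i * yy W t 0 i + b)) τ)) =
      ∑ σ : St m → Row m → ZMod p, ∑ τ : Option (Row m × St m) → ZMod p,
        f (pub W (pkP W t ρ) (fun j => sh (conc none (∑ i, r i * W i j)) (σ j))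
          (sh (conc none (∑ i, r i * yy W t 0 i + b)) τ)) := by
    intro ρ r
    exact sum_sh_fam (fun j i => r i * W i j) (fun j => conc none (∑ i, r i * W i j))
      (fun j => by rw [sum_conc])
      (fun A => ∑ τ : Option (Row m × St m) → ZMod p,
        f (pub W (pkP W t ρ) A (sh (conc none (∑ i, r i * yy W t 0 i + b)) τ)))
  -- the shares of the last column
  have h3 : ∑ ρ : Row m → St m → ZMod p, ∑ r : Row m → ZMod p,
      ∑ σ : St m → Row m → ZMod p, ∑ τ : Option (Row m × St m) → ZMod p,
        f (pub W (pkP W t ρ) (fun j => sh (conc none (∑ i, r i * W i j)) (σ j))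
          (sh (conc none (∑ i, r i * yy W t 0 i + b)) τ)) =
      ∑ ρ : Row m → St m → ZMod p, ∑ r : Row m → ZMod p,
      ∑ σ : St m → Row m → ZMod p, ∑ τ : Option (Row m × St m) → ZMod p,
        f (pub W (fun i => sh (conc (0, 0) (yy W t 0 i)) (ρ i))
          (fun j => sh (conc none (∑ i, r i * W i j)) (σ j))
          (sh (conc none (∑ i, r i * yy W t 0 i + b)) τ)) :=
    sum_sh_fam (fun i j => W i j * t j) (fun i => conc (0, 0) (yy W t 0 i))
      (fun i => by rw [sum_conc, hy])
      (fun P => ∑ r : Row m → ZMod p,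
        ∑ σ : St m → Row m → ZMod p, ∑ τ : Option (Row m × St m) → ZMod p,
        f (pub W P (fun j => sh (conc none (∑ i, r i * W i j)) (σ j))
          (sh (conc none (∑ i, r i * yy W t 0 i + b)) τ)))
  simp only [h1]
  simp only [h2]
  exact h3

/-- In the lossy hybrid the message is perfectly hidden. -/
theorem hyb_one (b b' : ZMod p) (f : (PKi m ⊕ CTi m → ZMod p) → ℝ) :
    hyb 1 b f = hyb 1 b' f := by
  classical
  unfold hyb
  refine sum_congr rfl fun s _ => sum_congr rfl fun v _ => sum_congr rfl fun t _ =>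
    sum_congr rfl fun ρ _ => ?_
  obtain ⟨z, hz⟩ := (Vv_tri v).surj s
  set W := WW s v with hW
  set u : Row m → ZMod p := fun i => Option.elim i 1 fun q => -z q with hu
  have huW : ∀ j, ∑ i, u i * W i j = 0 := by
    intro j
    rw [Fintype.sum_option]
    have e1 : u none * W none j = s j := by
      rw [hu, hW]; simp [WW]
    have e2 : ∀ q : St m, u (some q) * W (some q) j = -(z q * Vv v q j) := by
      intro q
      rw [hu, hW]; simp [WW]
    rw [e1, sum_congr rfl fun q _ => e2 q, sum_neg_distrib, hz j, add_neg_cancel]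
  have huy : ∑ i, u i * yy W t 1 i = -1 := by
    unfold yy
    simp only [mul_sub, sum_sub_distrib]
    have e1 : ∑ i, u i * ∑ j, W i j * t j = 0 := by
      simp only [mul_sum, ← mul_assoc]
      rw [sum_comm]
      simp only [← sum_mul, huW, zero_mul, sum_const_zero]
    have e2 : ∑ i : Row m, u i * (if i = none then (1 : ZMod p) else 0) = 1 := by
      simp only [mul_ite, mul_one, mul_zero]
      rw [sum_ite_eq' univ none u, if_pos (mem_univ _)]
      rfl
    rw [e1, e2, zero_sub]
  rw [← Equiv.sum_comp (Equiv.addRight ((b - b') • u))]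
  refine sum_congr rfl fun r _ => sum_congr rfl fun σ _ => sum_congr rfl fun τ _ => ?_
  congr 1
  have k1 : ∀ j, ∑ i, (Equiv.addRight ((b - b') • u)) r i * W i j = ∑ i, r i * W i j := by
    intro j
    simp only [Equiv.coe_addRight, Pi.add_apply, Pi.smul_apply, smul_eq_mul, add_mul,
      sum_add_distrib, mul_assoc, ← mul_sum, huW, mul_zero, add_zero]
  have k2 : ∑ i, (Equiv.addRight ((b - b') • u)) r i * yy W t 1 i + b =
      ∑ i, r i * yy W t 1 i + b' := by
    simp only [Equiv.coe_addRight, Pi.add_apply, Pi.smul_apply, smul_eq_mul, add_mul,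
      sum_add_distrib, mul_assoc, ← mul_sum, huy]
    ring
  unfold view
  rw [k2]
  simp only [k1]

end Pool.Agent.PKEp
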