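import Pool.Agent.PKEp.EmbC
import Pool.Agent.PKEp.Hyb
import Pool.Agent.PKEp.Alg
import Pool.Agent.PKEp.Num

/-!
# The theorem
-/

namespace Pool.Agent.PKEp

set_option synthInstance.maxSize 5000

open Finset

variable {p : ℕ}

/-- The number of variables of the majority function. -/
def mm (e n : ℕ) : ℕ := 2 * n ^ (2 * e + 2) + 1

lemma inp_coord {m mA : ℕ} (i : Fin (Fintype.card (PKi m)) ⊕ Fin (Fintype.card (CTi m)) ⊕ Fin mA) :
    (∃ j, ∀ (z : PKi m ⊕ CTi m → ZMod p) (u : Fin mA → ZMod p), inp z u i = z j) ∨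
      ∃ j, ∀ (z : PKi m ⊕ CTi m → ZMod p) (u : Fin mA → ZMod p), inp z u i = u j := by
  rcases i with i | i | i
  · exact Or.inl ⟨_, fun z u => rfl⟩
  · exact Or.inl ⟨_, fun z u => rfl⟩
  · exact Or.inr ⟨_, fun z u => rfl⟩

lemma mid_le (h : ℕ) : ((2 * h + 1).choose h : ℝ) / 2 ^ (2 * h + 1) ≤
    1 / Real.sqrt (2 * (h : ℕ) + 3) := by
  have h1 : ((2 * h + 3 : ℕ) : ℝ) * ((2 * h + 1).choose h : ℝ) ^ 2 ≤ ((2 : ℝ) ^ (2 * h + 1)) ^ 2 := by
    exact_mod_cast choose_mid h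
  have hs : (0 : ℝ) < 2 * (h : ℕ) + 3 := by positivity
  rw [div_le_div_iff₀ (by positivity) (Real.sqrt_pos.2 hs), one_mul]
  refine le_of_sq_le_sq ?_ (by positivity)
  rw [mul_pow, Real.sq_sqrt hs.le]
  push_cast at h1
  linarith

theorem scheme_secure [Fact p.Prime] (e : ℕ) : (scheme p (mm e)).Secure e := by
  intro d
  obtain ⟨n₀, hn₀⟩ := num p d e (Fact.out : p.Prime).two_le
  refine ⟨n₀, fun n hn k hk mA A hA b b' => ?_⟩
  obtain ⟨l, hl, hnum⟩ := hn₀ n hn k hk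
  set h := n ^ (2 * e + 2) with hh
  rw [pr_eq, pr_eq, rel_eq, rel_eq, ← sub_div, abs_div]
  set F : (PKi (2 * h + 1) ⊕ CTi (2 * h + 1) → ZMod p) → ℝ :=
    fun z => ∑ u : Fin mA → ZMod p, if A (inp z u) = true then (1 : ℝ) else 0 with hF
  set O : ℝ := hyb (m := 2 * h + 1) (0 : ZMod p) 0 (fun _ => ∑ _u : Fin mA → ZMod p, (1 : ℝ))
    with hO
  have hOpos : 0 < O := by
    rw [hO, hyb_card]
    have : 0 < Fintype.card (Om p (2 * h + 1) mA) := Fintype.card_pos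
    exact_mod_cast this
  have e1 : |hyb 0 b F - hyb 1 b F| ≤ 2 * ((((p - 1) * ((p - 1) * l) ^ d : ℕ) : ℝ) *
      ((2 * h + 1).choose h : ℝ) / 2 ^ (2 * h + 1) + (((2 ^ k + 1) ^ d : ℕ) : ℝ) / 2 ^ l) * O :=
    emb h mA (2 ^ k) d l hl b inp inp_coord A hA
  have e2 : |hyb 0 b' F - hyb 1 b' F| ≤ 2 * ((((p - 1) * ((p - 1) * l) ^ d : ℕ) : ℝ) *
      ((2 * h + 1).choose h : ℝ) / 2 ^ (2 * h + 1) + (((2 ^ k + 1) ^ d : ℕ) : ℝ) / 2 ^ l) * O :=
    emb h mA (2 ^ k) d l hl b' inp inp_coord A hA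
  rw [hyb_one b b' F] at e1
  change |hyb 0 b F - hyb 0 b' F| / |O| ≤ 1 / (n : ℝ) ^ e
  rw [abs_of_pos hOpos, div_le_iff₀ hOpos]
  refine le_trans ?_ (mul_le_mul_of_nonneg_right hnum hOpos.le)
  have hmid := mid_le h
  have hD : (0 : ℝ) ≤ (((p - 1) * ((p - 1) * l) ^ d : ℕ) : ℝ) := Nat.cast_nonneg _
  have hmul := mul_le_mul_of_nonneg_left hmid hD
  rw [← mul_div_assoc, ← mul_div_assoc, mul_one] at hmul
  have htri : |hyb 0 b F - hyb 0 b' F| ≤ |hyb 0 b F - hyb 1 b' F| + |hyb 0 b' F - hyb 1 b' F| := by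
    have := abs_sub_le (hyb 0 b F) (hyb 1 b' F) (hyb 0 b' F)
    rwa [abs_sub_comm (hyb 1 b' F) (hyb 0 b' F)] at this
  refine htri.trans ((add_le_add e1 e2).trans ?_)
  have := mul_le_mul_of_nonneg_right hmul hOpos.le
  nlinarith

/-- For every prime `p` and every `e` there is a public-key encryption scheme over the alphabet
`ZMod p` with local key generation and encryption, perfectly correct, whose decryption is an inner
product, secure against constant-depth circuits with gates modulo `p`. -/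
theorem main (p : ℕ) (hp : p.Prime) (e : ℕ) :
    ∃ S : PKE p, S.Poly ∧ S.Local ∧ S.DecInner ∧ S.Perfect ∧ S.Secure e := by
  have : Fact p.Prime := ⟨hp⟩
  refine ⟨scheme p (mm e), scheme_poly _ ⟨2 * e + 5, fun n => ?_⟩, scheme_local _,
    scheme_decInner _, scheme_perfect _, scheme_secure e⟩
  unfold mm
  rcases Nat.lt_or_ge n 2 with hn | hn
  · interval_cases n
    · simp; try omega
    · simp; try omega
  · have h1 : n ^ (2 * e + 2) * n ≤ n ^ (2 * e + 5) := by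
      rw [← pow_succ]
      exact Nat.pow_le_pow_right (by omega) (by omega)
    have h2 : 2 * n ^ (2 * e + 2) ≤ n ^ (2 * e + 2) * n := by
      rw [mul_comm]
      exact Nat.mul_le_mul_left _ hn
    omega

end Pool.Agent.PKEp
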