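import Pool.Agent.PKEp.Maj
import Pool.Agent.PKEp.NumJ
import Pool.Agent.PKEp.EmbQ
import Pool.Agent.PKEp.Final

/-!
# Security against circuits over arbitrary functions of few symbols
-/

namespace Pool.Agent.PKEp

set_option synthInstance.maxSize 5000

open Finset

variable {p : ℕ}

private lemma ob_junta {m c : ℕ} {ι : Type} (Φ : Finset (Fin m) → ι → ZMod p) (β : ι → ℕ)
    (hβ : ∀ i, OB (β i) fun x => Φ x i) (f : (ι → ZMod p) → Bool) (hf : Dep c f) (q : ℕ) :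
    (fun x => if f (Φ x) = true then (1 : ZMod q) else 0) ∈ Aff q m ^ c := by
  classical
  obtain ⟨J, hJ, hJf⟩ := hf
  refine junta_mem q (fun x => f (Φ x)) (univ.filter fun k : Fin m => (k : ℕ) ∈ J.image β)
    ?_ ?_
  · refine le_trans ?_ ((card_image_le (s := J) (f := β)).trans hJ)
    refine card_le_card_of_injOn (fun k : Fin m => (k : ℕ)) ?_ (Fin.val_injective.injOn)
    intro k hk
    exact (mem_filter.1 (mem_coe.1 hk)).2
  · intro x x' hx
    refine hJf _ _ fun j hj => hβ j x x' ?_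
    by_cases hk : β j < m
    · have h1 := hx ⟨β j, hk⟩ (mem_filter.2 ⟨mem_univ _, mem_image_of_mem β hj⟩)
      have h2 : ∀ y : Finset (Fin m), bit y (β j) ↔ (⟨β j, hk⟩ : Fin m) ∈ y := by
        intro y
        constructor
        · rintro ⟨k, hky, hkb⟩
          have : k = ⟨β j, hk⟩ := Fin.ext hkb
          rwa [this] at hky
        · intro hy; exact ⟨_, hy, rfl⟩
      rw [h2, h2]
      exact h1
    · have hb : ∀ y : Finset (Fin m), ¬ bit y (β j) := by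
        rintro y ⟨k, -, hkb⟩
        have := k.2
        omega
      exact iff_of_false (hb x) (hb x')

theorem embJ {q : ℕ} [Fact q.Prime] [NeZero p] {ι : Type} (h mA s d l c : ℕ) (hl : 1 ≤ l)
    (b : ZMod p)
    (inp : (PKi (2 * h + 1) ⊕ CTi (2 * h + 1) → ZMod p) → (Fin mA → ZMod p) → ι → ZMod p)
    (hinp : ∀ i, (∃ j, ∀ z u, inp z u i = z j) ∨ ∃ j, ∀ z u, inp z u i = u j)
    (f : (ι → ZMod p) → Bool) (hf : f ∈ AC q {f | Dep c f} s d) :
    |hyb 0 b (fun z => ∑ u : Fin mA → ZMod p, if f (inp z u) = true then (1 : ℝ) else 0) -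
      hyb 1 b (fun z => ∑ u : Fin mA → ZMod p, if f (inp z u) = true then (1 : ℝ) else 0)| ≤
    2 * (((c * ((q - 1) * l) ^ d : ℕ) : ℝ) * ((2 * h + 1).choose h : ℝ) /
      2 ^ (2 * h + 1) + (((s + 1) ^ d : ℕ) : ℝ) / 2 ^ l) *
      hyb (m := 2 * h + 1) (0 : ZMod p) 0 (fun _ => ∑ _u : Fin mA → ZMod p, (1 : ℝ)) := by
  classical
  rw [hyb_card]
  refine two_countsJ (Ω := Om p (2 * h + 1) mA) h s d l c hl
    (fun z => inp (vwG h b z) z.2.2.2.2.2.2.2.2) {f | Dep c f} ?_ f hf _ _ ?_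
  · intro f hf ω
    have hob : ∀ i, ∃ k : ℕ, OB k fun x : Finset (Fin (2 * h + 1)) =>
        inp (vwG h b (x, ω)) ω.2.2.2.2.2.2.2 i := by
      intro i
      rcases hinp i with ⟨j, hj⟩ | ⟨j, hj⟩
      · refine ⟨bitOf j, ?_⟩
        simp only [hj]
        exact vwG_OB h b ω j
      · refine ⟨0, ?_⟩
        simp only [hj]
        exact OB.const _ _
    choose β hβ using hob
    exact ob_junta (fun x => inp (vwG h b (x, ω)) ω.2.2.2.2.2.2.2) β hβ f hf q
  · intro x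
    have := hyb_vwG h (by omega) mA b x (fun z u => if f (inp z u) = true then (1 : ℝ) else 0)
    rw [← this]
    by_cases hmx : h < x.card
    · rw [if_pos hmx, if_pos hmx]
    · rw [if_neg hmx, if_neg hmx]

/-- The number of variables of the majority function. -/
def mmJ (e n : ℕ) : ℕ := 2 * n ^ (2 * e + 6) + 1

/-- The scheme over the alphabet `ZMod p`, `p` any positive integer, is secure against circuits
with gates modulo any prime `q`, over arbitrary functions of at most `n` symbols. -/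
theorem scheme_secureJ [NeZero p] (e q : ℕ) (hq : q.Prime) (d : ℕ) :
    ∃ n₀, ∀ n ≥ n₀, ∀ k : ℕ, k ^ d ≤ n → ∀ mA : ℕ,
      ∀ A ∈ AC q {f : (Fin ((scheme p (mmJ e)).pk n) ⊕ Fin ((scheme p (mmJ e)).ct n) ⊕ Fin mA →
        ZMod p) → Bool | Dep n f} (2 ^ k) d,
        ∀ b b' : ZMod p, |(scheme p (mmJ e)).pr n mA A b - (scheme p (mmJ e)).pr n mA A b'| ≤
          1 / (n : ℝ) ^ e := by
  have : Fact q.Prime := ⟨hq⟩
  obtain ⟨n₀, hn₀⟩ := numJ q d e
  refine ⟨n₀, fun n hn k hk mA A hA b b' => ?_⟩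
  obtain ⟨l, hl, hnum⟩ := hn₀ n hn k n hk le_rfl
  set h := n ^ (2 * e + 6) with hh
  rw [pr_eq, pr_eq, rel_eq, rel_eq, ← sub_div, abs_div]
  set F : (PKi (2 * h + 1) ⊕ CTi (2 * h + 1) → ZMod p) → ℝ :=
    fun z => ∑ u : Fin mA → ZMod p, if A (inp z u) = true then (1 : ℝ) else 0 with hF
  set O : ℝ := hyb (m := 2 * h + 1) (0 : ZMod p) 0 (fun _ => ∑ _u : Fin mA → ZMod p, (1 : ℝ))
    with hO
  have hOpos : 0 < O := by
    rw [hO, hyb_card]
    have : 0 < Fintype.card (Om p (2 * h + 1) mA) := Fintype.card_pos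
    exact_mod_cast this
  have e1 : |hyb 0 b F - hyb 1 b F| ≤ 2 * (((n * ((q - 1) * l) ^ d : ℕ) : ℝ) *
      ((2 * h + 1).choose h : ℝ) / 2 ^ (2 * h + 1) + (((2 ^ k + 1) ^ d : ℕ) : ℝ) / 2 ^ l) * O :=
    embJ h mA (2 ^ k) d l n hl b inp inp_coord A hA
  have e2 : |hyb 0 b' F - hyb 1 b' F| ≤ 2 * (((n * ((q - 1) * l) ^ d : ℕ) : ℝ) *
      ((2 * h + 1).choose h : ℝ) / 2 ^ (2 * h + 1) + (((2 ^ k + 1) ^ d : ℕ) : ℝ) / 2 ^ l) * O :=
    embJ h mA (2 ^ k) d l n hl b' inp inp_coord A hA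
  rw [hyb_one b b' F] at e1
  change |hyb 0 b F - hyb 0 b' F| / |O| ≤ 1 / (n : ℝ) ^ e
  rw [abs_of_pos hOpos, div_le_iff₀ hOpos]
  refine le_trans ?_ (mul_le_mul_of_nonneg_right hnum hOpos.le)
  have hmid := mid_le h
  have hD : (0 : ℝ) ≤ ((n * ((q - 1) * l) ^ d : ℕ) : ℝ) := Nat.cast_nonneg _
  have hmul := mul_le_mul_of_nonneg_left hmid hD
  rw [← mul_div_assoc, ← mul_div_assoc, mul_one] at hmul
  have htri : |hyb 0 b F - hyb 0 b' F| ≤ |hyb 0 b F - hyb 1 b' F| + |hyb 0 b' F - hyb 1 b' F| := by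
    have := abs_sub_le (hyb 0 b F) (hyb 1 b' F) (hyb 0 b' F)
    rwa [abs_sub_comm (hyb 1 b' F) (hyb 0 b' F)] at this
  refine htri.trans ((add_le_add e1 e2).trans ?_)
  have := mul_le_mul_of_nonneg_right hmul hOpos.le
  nlinarith

end Pool.Agent.PKEp
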