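import Pool.Agent.PKEp.AlgB
import Pool.Agent.PKEp.EmbE

/-!
# The theorem for Boolean words, with explicit bounds
-/

namespace Pool.Agent.PKEp

open Finset

/-- Security against circuits with gates modulo `q`, for every prime `q`, over arbitrary functions
of few bits: every randomised adversary of depth `d`, with fan-in at most `2 ^ k`, over functions
which depend on at most `c` bits, has advantage at most `1 / n ^ e`, provided that
`c * (q * (d * (k + 1) + e * (log n + 1) + 3)) ^ d ≤ n ^ 3`. -/
def SecureAll (S : ACP.PKE) (e : ℕ) : Prop :=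
  ∀ n q d k c : ℕ, 1 ≤ n → q.Prime →
    c * (q * (d * (k + 1) + e * (Nat.log 2 n + 1) + 3)) ^ d ≤ n ^ 3 → ∀ m : ℕ,
      ∀ A ∈ AC q {f : (Fin (S.pk n) ⊕ Fin (S.ct n) ⊕ Fin m → Bool) → Bool | DepB c f} (2 ^ k) d,
        |S.pr n m A false - S.pr n m A true| ≤ 1 / (n : ℝ) ^ e

/-- Substitution in a circuit. -/
theorem AC_comp {q s d : ℕ} {X Y : Type} {B : Set (X → Bool)} {B' : Set (Y → Bool)} (φ : Y → X)
    (hB : ∀ g ∈ B, (fun y => g (φ y)) ∈ B') (f : X → Bool) (hf : f ∈ AC q B s d) :
    (fun y => f (φ y)) ∈ AC q B' s d := by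
  induction d generalizing f with
  | zero => exact hB f hf
  | succ d ih =>
    obtain ⟨t, g, ht, hg, hcase⟩ := hf
    refine ⟨t, fun i y => g i (φ y), ht, fun i => ih (g i) (hg i), ?_⟩
    rcases hcase with h | h | ⟨a, h⟩
    · exact Or.inl fun y => h (φ y)
    · exact Or.inr (Or.inl fun y => h (φ y))
    · exact Or.inr (Or.inr ⟨a, fun y => h (φ y)⟩)

lemma dep_of_depB {ι : Type} {c : ℕ} {f : (ι → Bool) → Bool} (h : DepB c f) :
    Dep c (fun z : ι → ZMod 2 => f (fun i => zb (z i))) := by
  obtain ⟨J, hJ, h⟩ := h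
  exact ⟨J, hJ, fun x x' hx => h _ _ fun j hj => by rw [hx j hj]⟩

theorem toB_secureAll (e : ℕ) : SecureAll (toB (scheme 2 (mmE e))) e := by
  intro n q d k c hn hq hc m A hA
  rw [toB_pr, toB_pr]
  refine scheme_secureE e q hq n d k c hn hc m _ ?_ _ _
  exact AC_comp (fun (z : Fin ((scheme 2 (mmE e)).pk n) ⊕ Fin ((scheme 2 (mmE e)).ct n) ⊕
    Fin m → ZMod 2) i => zb (z i)) (fun g hg => dep_of_depB hg) A hA

/-- For every `e` there is a public-key encryption scheme for bits with local key generation and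
encryption, perfectly correct, whose decryption is a parity of ANDs, and which is secure against
constant-depth circuits with gates modulo `q` for every prime `q`. -/
theorem main_all (e : ℕ) : ∃ S : ACP.PKE, PolyB S ∧ LocalB S ∧ DecParity S ∧ S.Perfect ∧
    SecureAll S e := by
  refine ⟨toB (scheme 2 (mmE e)), toB_poly _ (scheme_poly _ ⟨2 * e + 64, fun n => ?_⟩),
    toB_local _ (scheme_local _), toB_decParity _ (scheme_decInner _),
    toB_perfect _ (scheme_perfect _), toB_secureAll e⟩
  unfold mmE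
  rcases Nat.lt_or_ge n 2 with hn | hn
  · interval_cases n
    · simp
    · simp; try omega
  · have h1 : 64 * n ^ (2 * e + 6) ≤ n ^ (2 * e + 64) := by
      calc 64 * n ^ (2 * e + 6) ≤ n ^ 6 * n ^ (2 * e + 6) :=
            Nat.mul_le_mul_right _ (le_trans (by norm_num) (Nat.pow_le_pow_left hn 6))
        _ = n ^ (2 * e + 12) := by rw [← pow_add]; congr 1; ring
        _ ≤ n ^ (2 * e + 64) := Nat.pow_le_pow_right (by omega) (by omega)
    omega

end Pool.Agent.PKEp
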