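import Pool.Agent.PKEp.ChiB
import Pool.Agent.PKEp.Final

/-!
# Part (B): circuits with few symmetric gates
-/

namespace Pool.Agent.PKEp

open Finset

set_option synthInstance.maxSize 5000

/-- The scheme over bits is secure against constant-depth circuits with `c * log n` arbitrary
symmetric gates. -/
theorem secureSym_of (M : ℕ → ℕ) (hM : ∀ n, n ≤ M n) : ACS.SecureSym (toB (scheme 2 M)) := by
  intro c d e
  obtain ⟨n₀, hn₀⟩ := embS c d (e + 1)
  refine ⟨n₀ + 2, fun n hn mA A hA => ?_⟩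
  have hn2 : 2 ≤ n := by omega
  have key := fun b : ZMod 2 => hn₀ n (by omega) (M n) (hM n) mA b inp inp_coord A hA
  rw [toB_pr, toB_pr, pr_eq, pr_eq, rel_eq, rel_eq, ← sub_div, abs_div]
  set F : (PKi (M n) ⊕ CTi (M n) → ZMod 2) → ℝ := fun z => ∑ u : Fin mA → ZMod 2,
    if A (fun i => zb (inp z u i)) = true then (1 : ℝ) else 0 with hF
  set O : ℝ := hyb (m := M n) (0 : ZMod 2) 0 (fun _ => ∑ _u : Fin mA → ZMod 2, (1 : ℝ)) with hO
  have hOpos : 0 < O := by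
    rw [hO, hyb_card]
    have : 0 < Fintype.card (Om 2 (M n) mA) := Fintype.card_pos
    exact_mod_cast this
  have e1 : |hyb 0 (bz false) F - hyb 1 (bz false) F| ≤ 1 / (n : ℝ) ^ (e + 1) * O := key _
  have e2 : |hyb 0 (bz true) F - hyb 1 (bz true) F| ≤ 1 / (n : ℝ) ^ (e + 1) * O := key _
  rw [hyb_one (bz false) (bz true) F] at e1
  change |hyb 0 (bz false) F - hyb 0 (bz true) F| / |O| ≤ 1 / (n : ℝ) ^ e
  rw [abs_of_pos hOpos, div_le_iff₀ hOpos]
  have htri : |hyb 0 (bz false) F - hyb 0 (bz true) F| ≤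
      |hyb 0 (bz false) F - hyb 1 (bz true) F| + |hyb 0 (bz true) F - hyb 1 (bz true) F| := by
    have := abs_sub_le (hyb 0 (bz false) F) (hyb 1 (bz true) F) (hyb 0 (bz true) F)
    rwa [abs_sub_comm (hyb 1 (bz true) F) (hyb 0 (bz true) F)] at this
  refine htri.trans ((add_le_add e1 e2).trans ?_)
  have hnR : (2 : ℝ) ≤ n := by exact_mod_cast hn2
  have hne : (0 : ℝ) < (n : ℝ) ^ e := by positivity
  have h1 : 1 / (n : ℝ) ^ (e + 1) + 1 / (n : ℝ) ^ (e + 1) ≤ 1 / (n : ℝ) ^ e := by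
    rw [← add_div, div_le_div_iff₀ (by positivity) hne, pow_succ]
    nlinarith
  calc 1 / (n : ℝ) ^ (e + 1) * O + 1 / (n : ℝ) ^ (e + 1) * O
      = (1 / (n : ℝ) ^ (e + 1) + 1 / (n : ℝ) ^ (e + 1)) * O := by ring
    _ ≤ 1 / (n : ℝ) ^ e * O := mul_le_mul_of_nonneg_right h1 hOpos.le

end Pool.Agent.PKEp
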