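import Pool.Agent.PKEp.Proj

/-!
# Every layered program can be embedded into the key
-/

namespace Pool.Agent.PKEp

open Finset

variable {p m : ℕ}

/-- The matrix made from a program (`a`: start, `U`: unitriangular matrix). -/
def WP (a : St m → ZMod p) (U : St m → St m → ZMod p) (s : St m → ZMod p)
    (v : St m → St m → ZMod p) : Row m → St m → ZMod p
  | none, j => a j + ∑ q, s q * U q j
  | some q, j => ∑ k, Vv v q k * U k j

/-- The shares of the last column (`u`: right hand side). -/
def BP (a : St m → ZMod p) (U : St m → St m → ZMod p) (u : St m → ZMod p) (s : St m → ZMod p)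
    (v : St m → St m → ZMod p) (t : St m → ZMod p) (i : Row m) (j : St m) : ZMod p :=
  WP a U s v i j * t j + WW s v i j * u j

/-- The view made from a program. -/
noncomputable def lview (a : St m → ZMod p) (U : St m → St m → ZMod p) (u : St m → ZMod p)
    (s : St m → ZMod p) (v : St m → St m → ZMod p) (t : St m → ZMod p)
    (ρ : Row m → St m → ZMod p) (r : Row m → ZMod p) (σ : St m → Row m → ZMod p)
    (τ : Option (Row m × St m) → ZMod p) (b : ZMod p) : PKi m ⊕ CTi m → ZMod p :=
  viewG (WP a U s v) (BP a U u s v t) ρ r σ τ b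

/-- Change of the coins `s`. -/
def sP (a : St m → ZMod p) (U : St m → St m → ZMod p) (s : St m → ZMod p) (j : St m) : ZMod p :=
  a j + ∑ q, s q * U q j

/-- Change of the coins `v`. -/
def vv (U : St m → St m → ZMod p) (v : St m → St m → ZMod p) (q j : St m) : ZMod p :=
  if q.1 < j.1 then ∑ k, Vv v q k * U k j else v q j

lemma WW_P (a : St m → ZMod p) {U : St m → St m → ZMod p} (hU : Tri U) (s : St m → ZMod p)
    (v : St m → St m → ZMod p) : WW (sP a U s) (vv U v) = WP a U s v := by
  funext i j
  cases i with
  | none => rfl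
  | some q =>
    change Vv (vv U v) q j = ∑ k, Vv v q k * U k j
    have hT := (Vv_tri v).mul hU
    unfold Vv vv
    by_cases h : q.1 < j.1
    · rw [if_pos h, if_pos h]; rfl
    · rw [if_neg h]
      by_cases hq : q = j
      · rw [if_pos hq, ← hq]; exact (hT.1 q).symm
      · rw [if_neg hq]; exact (hT.2 q j h hq).symm

lemma yy_P (a : St m → ZMod p) (U : St m → St m → ZMod p) (u w : St m → ZMod p)
    (hw : ∀ q, ∑ j, U q j * w j = u q) (s : St m → ZMod p) (v : St m → St m → ZMod p)
    (t : St m → ZMod p) (i : Row m) :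
    ∑ j, BP a U u s v t i j = yy (WP a U s v) (fun j => t j + w j) (∑ j, a j * w j) i := by
  unfold yy BP
  simp only [mul_add, sum_add_distrib]
  rw [add_sub_assoc]
  congr 1
  cases i with
  | none =>
    rw [if_pos rfl]
    simp only [WP, WW, add_mul, sum_add_distrib]
    rw [add_sub_right_comm, sub_self, zero_add]
    simp only [sum_mul]
    rw [sum_comm]
    refine sum_congr rfl fun q _ => ?_
    rw [← hw q, mul_sum]
    exact sum_congr rfl fun j _ => by ring
  | some q =>
    rw [if_neg (by simp), sub_zero]
    simp only [WP, WW, sum_mul]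
    rw [sum_comm]
    refine sum_congr rfl fun k _ => ?_
    rw [← hw k, mul_sum]
    exact sum_congr rfl fun j _ => by ring

lemma sP_bij [NeZero p] (a : St m → ZMod p) {U : St m → St m → ZMod p} (hU : Tri U) :
    Function.Bijective (sP a U : (St m → ZMod p) → St m → ZMod p) := by
  rw [← Finite.injective_iff_bijective]
  intro s s' h
  refine hU.inj ?_
  funext j
  have := congrFun h j
  exact add_left_cancel this

lemma vv_bij [NeZero p] {U : St m → St m → ZMod p} (hU : Tri U) :
    Function.Bijective (vv U : (St m → St m → ZMod p) → St m → St m → ZMod p) := by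
  rw [← Finite.injective_iff_bijective]
  intro v v' h
  funext q j
  by_cases hq : q.1 < j.1
  · have hrow : Vv v q = Vv v' q := by
      refine hU.inj ?_
      funext j
      by_cases hj : q.1 < j.1
      · have := congrFun (congrFun h q) j
        simp only [vv, if_pos hj] at this
        exact this
      · have h1 := (Vv_tri v).mul hU
        have h2 := (Vv_tri v').mul hU
        by_cases hqj : q = j
        · subst hqj
          exact (h1.1 q).trans (h2.1 q).symm
        · exact (h1.2 q j hj hqj).trans (h2.2 q j hj hqj).symm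
    have := congrFun hrow j
    simp only [Vv, if_pos hq] at this
    exact this
  · have := congrFun (congrFun h q) j
    simp only [vv, if_neg hq] at this
    exact this

/-- For every program the key with `β` = the value of the program has the distribution of the
view made from the program. -/
theorem hyb_lview [NeZero p] (a : St m → ZMod p) (U : St m → St m → ZMod p) (u w : St m → ZMod p)
    (hU : Tri U) (hw : ∀ q, ∑ j, U q j * w j = u q) (b : ZMod p)
    (f : (PKi m ⊕ CTi m → ZMod p) → ℝ) :
    hyb (∑ j, a j * w j) b f =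
      ∑ s : St m → ZMod p, ∑ v : St m → St m → ZMod p, ∑ t : St m → ZMod p,
        ∑ ρ : Row m → St m → ZMod p, ∑ r : Row m → ZMod p, ∑ σ : St m → Row m → ZMod p,
          ∑ τ : Option (Row m × St m) → ZMod p, f (lview a U u s v t ρ r σ τ b) := by
  unfold hyb lview
  rw [← (sP_bij a hU).sum_comp]
  refine sum_congr rfl fun s _ => ?_
  rw [← (vv_bij hU).sum_comp]
  refine sum_congr rfl fun v _ => ?_
  rw [← (Equiv.bijective (Equiv.addRight w)).sum_comp]
  refine sum_congr rfl fun t _ => ?_
  rw [WW_P a hU, viewG_eq (WP a U s v) (BP a U u s v t) _ (yy_P a U u w hw s v t)]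
  rfl

/-- The column of a position of the view. -/
def colOf : PKi m ⊕ CTi m → Option (St m)
  | Sum.inl (Sum.inl x) => some x.2
  | Sum.inl (Sum.inr x) => some x.2
  | Sum.inr (Sum.inl x) => some x.1
  | Sum.inr (Sum.inr none) => none
  | Sum.inr (Sum.inr (some x)) => some x.2

/-- A symbol of the view depends only on one column of the program. -/
theorem lview_congr {a a' : St m → ZMod p} {U U' : St m → St m → ZMod p} {u u' : St m → ZMod p}
    (i : PKi m ⊕ CTi m)
    (h : ∀ j ∈ colOf i, a j = a' j ∧ u j = u' j ∧ ∀ q, U q j = U' q j) (s : St m → ZMod p)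
    (v : St m → St m → ZMod p) (t : St m → ZMod p)
    (ρ : Row m → St m → ZMod p) (r : Row m → ZMod p) (σ : St m → Row m → ZMod p)
    (τ : Option (Row m × St m) → ZMod p) (b : ZMod p) :
    lview a U u s v t ρ r σ τ b i = lview a' U' u' s v t ρ r σ τ b i := by
  have hW : ∀ j ∈ colOf i, ∀ k, WP a U s v k j = WP a' U' s v k j := by
    intro j hj k
    obtain ⟨h1, -, h3⟩ := h j hj
    cases k with
    | none => simp only [WP, h1, h3]
    | some q => simp only [WP, h3]
  have hB : ∀ j ∈ colOf i, ∀ k, BP a U u s v t k j = BP a' U' u' s v t k j := by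
    intro j hj k
    obtain ⟨-, h2, -⟩ := h j hj
    unfold BP
    rw [hW j hj k, h2]
  rcases i with (x | x) | (x | (_ | x))
  · exact hW _ rfl _
  · change sh (BP a U u s v t x.1) (ρ x.1) x.2 = sh (BP a' U' u' s v t x.1) (ρ x.1) x.2
    unfold sh
    rw [hB x.2 rfl x.1]
  · change sh (fun i => r i * WP a U s v i x.1) (σ x.1) x.2 =
      sh (fun i => r i * WP a' U' s v i x.1) (σ x.1) x.2
    unfold sh
    simp only [hW x.1 rfl]
  · rfl
  · change sh (cB (fun i => sh (BP a U u s v t i) (ρ i)) r b) τ (some x) =
      sh (cB (fun i => sh (BP a' U' u' s v t i) (ρ i)) r b) τ (some x)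
    unfold sh cB
    change r x.1 * (BP a U u s v t x.1 x.2 + ρ x.1 x.2 - ρ x.1 (nx (St m) x.2)) + _ - _ =
      r x.1 * (BP a' U' u' s v t x.1 x.2 + ρ x.1 x.2 - ρ x.1 (nx (St m) x.2)) + _ - _
    rw [hB x.2 rfl x.1]

end Pool.Agent.PKEp
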