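import Pool.Agent.PKEp.EmbB

/-!
# Constant-depth circuits over functions of few bits, against majority
-/

namespace Pool.Agent.PKEp

open Finset

/-! ### Functions of few bits -/

private lemma prod_mem_pw' {R : Type} [CommRing R] {Z κ : Type} {A : Submodule R (Z → R)}
    (s : Finset κ) (x : κ → Z → R) (hx : ∀ i ∈ s, x i ∈ A) : ∏ i ∈ s, x i ∈ A ^ s.card := by
  classical
  induction s using Finset.induction_on with
  | empty => simp [Submodule.mem_one]; exact ⟨1, by simp⟩
  | insert i s hi ih =>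
    rw [Finset.prod_insert hi, Finset.card_insert_of_notMem hi, pow_succ']
    exact Submodule.mul_mem_mul (hx i (mem_insert_self i s))
      (ih fun j hj => hx j (mem_insert_of_mem hj))

/-- A function of at most `c` bits is a polynomial of degree at most `c`. -/
theorem junta_mem (q : ℕ) {m c : ℕ} (f : Finset (Fin m) → Bool) (J : Finset (Fin m))
    (hJ : J.card ≤ c) (h : ∀ x x' : Finset (Fin m), (∀ i ∈ J, (i ∈ x ↔ i ∈ x')) → f x = f x') :
    (fun x => if f x = true then (1 : ZMod q) else 0) ∈ Aff q m ^ c := by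
  classical
  set P : Finset (Fin m) → Finset (Fin m) → ZMod q := fun S =>
    ∏ i ∈ J, (if i ∈ S then smXv q m i else 1 - smXv q m i) with hP
  have hPmem : ∀ S, P S ∈ Aff q m ^ c := by
    intro S
    refine sm_pow_mono q m hJ (prod_mem_pw' J _ fun i _ => ?_)
    by_cases hi : i ∈ S
    · rw [if_pos hi]; exact sm_xv_mem q m i
    · rw [if_neg hi]; exact Submodule.sub_mem _ (sm_one_mem q m) (sm_xv_mem q m i)
  have hPx : ∀ S ∈ J.powerset, ∀ x, P S x = if x ∩ J = S then 1 else 0 := by
    intro S hS x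
    rw [mem_powerset] at hS
    rw [hP]
    simp only
    rw [Finset.prod_apply]
    by_cases he : x ∩ J = S
    · rw [if_pos he]
      refine prod_eq_one fun i hi => ?_
      by_cases hiS : i ∈ S
      · rw [if_pos hiS, smXv, if_pos]
        rw [← he] at hiS
        exact (mem_inter.1 hiS).1
      · rw [if_neg hiS, Pi.sub_apply, Pi.one_apply, smXv, if_neg, sub_zero]
        intro hx
        apply hiS
        rw [← he]
        exact mem_inter.2 ⟨hx, hi⟩
    · rw [if_neg he]
      have : ∃ i ∈ J, ¬ (i ∈ x ↔ i ∈ S) := by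
        by_contra hno
        push Not at hno
        apply he
        ext i
        rw [mem_inter]
        constructor
        · rintro ⟨h1, h2⟩; exact (hno i h2).1 h1
        · intro h1; exact ⟨(hno i (hS h1)).2 h1, hS h1⟩
      obtain ⟨i, hiJ, hi⟩ := this
      refine prod_eq_zero hiJ ?_
      by_cases hiS : i ∈ S
      · rw [if_pos hiS, smXv, if_neg]
        exact fun hx => hi (iff_of_true hx hiS)
      · rw [if_neg hiS, Pi.sub_apply, Pi.one_apply, smXv, if_pos, sub_self]
        by_contra hx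
        exact hi (iff_of_false hx hiS)
  have e : (fun x => if f x = true then (1 : ZMod q) else 0) =
      ∑ S ∈ J.powerset, (if f S = true then (1 : ZMod q) else 0) • P S := by
    funext x
    rw [Finset.sum_apply, sum_eq_single (x ∩ J)]
    · rw [Pi.smul_apply, hPx _ (mem_powerset.2 inter_subset_right), if_pos rfl, smul_eq_mul,
        mul_one]
      rw [h x (x ∩ J) fun i hi => by rw [mem_inter]; exact ⟨fun hx => ⟨hx, hi⟩, fun hx => hx.1⟩]
    · intro S hS hne
      rw [Pi.smul_apply, hPx S hS, if_neg (Ne.symm hne), smul_zero]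
    · intro hno
      exact absurd (mem_powerset.2 inter_subset_right) hno
  rw [e]
  exact Submodule.sum_mem _ fun S _ => Submodule.smul_mem _ _ (hPmem S)

/-! ### The count -/

variable {q m : ℕ}

/-- Functions on `X × Ω` all of whose fibres are in `A`. -/
def fibA {m : ℕ} (A : Submodule (ZMod q) (Finset (Fin m) → ZMod q)) (Ω : Type) :
    Submodule (ZMod q) (Finset (Fin m) × Ω → ZMod q) where
  carrier := {g | ∀ ω, (fun x => g (x, ω)) ∈ A}
  add_mem' := fun ha hb ω => Submodule.add_mem _ (ha ω) (hb ω)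
  zero_mem' := fun _ => Submodule.zero_mem _
  smul_mem' := fun c _ ha ω => Submodule.smul_mem _ c (ha ω)

lemma fibA_pow {A : Submodule (ZMod q) (Finset (Fin m) → ZMod q)} {Ω : Type} {D : ℕ}
    {g : Finset (Fin m) × Ω → ZMod q} (hg : g ∈ fibA A Ω ^ D) (ω : Ω) :
    (fun x => g (x, ω)) ∈ A ^ D := by
  have h1 : (fibA A Ω).map (res q m ω).toLinearMap ≤ A := by
    rintro _ ⟨a, ha, rfl⟩
    exact ha ω
  have h2 : (fibA A Ω ^ D).map (res q m ω).toLinearMap ≤ A ^ D := by
    rw [Submodule.map_pow]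
    exact pow_le_pow_left' h1 D
  exact h2 ⟨g, hg, rfl⟩

/-- The numerical bound for the number of agreements with a function of degree `D`, times
`2 ^ l`. -/
def bdD (D h s d l : ℕ) : ℕ :=
  (2 ^ (2 * h) + D * (2 * h + 1).choose h) * 2 ^ l + (s + 1) ^ d * 2 ^ (2 * h + 1)

theorem count_boundJ [Fact q.Prime] {Ω X : Type} [Fintype Ω] (h s d l c : ℕ) (hl : 1 ≤ l)
    (Ψ : Finset (Fin (2 * h + 1)) × Ω → X) (B : Set (X → Bool))
    (hB : ∀ f ∈ B, ∀ ω, (fun x => if f (Ψ (x, ω)) = true then (1 : ZMod q) else 0) ∈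
      Aff q (2 * h + 1) ^ c) (f : X → Bool) (hf : f ∈ AC q B s d) :
    (univ.filter fun z : Finset (Fin (2 * h + 1)) × Ω =>
      (f (Ψ z) = true ↔ h < z.1.card)).card * 2 ^ l ≤
        Fintype.card Ω * bdD (c * ((q - 1) * l) ^ d) h s d l ∧
    (univ.filter fun z : Finset (Fin (2 * h + 1)) × Ω =>
      ¬ (f (Ψ z) = true ↔ h < z.1.card)).card * 2 ^ l ≤
        Fintype.card Ω * bdD (c * ((q - 1) * l) ^ d) h s d l := by
  classical
  have hA1 : (1 : Finset (Fin (2 * h + 1)) → ZMod q) ∈ Aff q (2 * h + 1) ^ c := by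
    have := sm_pow_mono q (2 * h + 1) (Nat.zero_le c)
    rw [pow_zero] at this
    exact Submodule.one_le.1 this
  have h1 : (1 : Finset (Fin (2 * h + 1)) × Ω → ZMod q) ∈
      fibA (Aff q (2 * h + 1) ^ c) Ω := fun _ => hA1
  obtain ⟨g, hg, hgf⟩ := approx_gen (fibA (Aff q (2 * h + 1) ^ c) Ω) h1 Ψ B
    (fun f hf ω => hB f hf ω) s d l hl f hf
  set D := ((q - 1) * l) ^ d with hD
  rw [Fintype.card_prod, Fintype.card_finset, Fintype.card_fin] at hgf
  have hone : (1 : Finset (Fin (2 * h + 1)) × Ω → ZMod q) ∈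
      fibA (Aff q (2 * h + 1) ^ c) Ω ^ D := by
    have h2 := pow_le_pow_left' (Submodule.one_le.2 h1) D
    rw [one_pow] at h2
    exact Submodule.one_le.1 h2
  have hg' : 1 - g ∈ fibA (Aff q (2 * h + 1) ^ c) Ω ^ D := Submodule.sub_mem _ hone hg
  have agree : ∀ g' : Finset (Fin (2 * h + 1)) × Ω → ZMod q,
      g' ∈ fibA (Aff q (2 * h + 1) ^ c) Ω ^ D →
      (univ.filter fun z : Finset (Fin (2 * h + 1)) × Ω =>
        g' z = if h < z.1.card then 1 else 0).card ≤
        Fintype.card Ω * (2 ^ (2 * h) + c * D * (2 * h + 1).choose h) := by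
    intro g' hg'
    rw [card_filter, Fintype.sum_prod_type_right]
    refine (sum_le_card_nsmul univ _ (2 ^ (2 * h) + c * D * (2 * h + 1).choose h) ?_).trans ?_
    · intro ω _
      rw [← card_filter]
      refine smolensky h (c * D) (fun x => g' (x, ω)) ?_
      rw [pow_mul]
      exact fibA_pow hg' ω
    · rw [card_univ, smul_eq_mul]
  have a1 := agree g hg
  have a2 := agree (1 - g) hg'
  set E := (univ.filter fun z : Finset (Fin (2 * h + 1)) × Ω =>
    g z ≠ if f (Ψ z) = true then 1 else 0) with hE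
  have fin : ∀ (N G : Finset (Finset (Fin (2 * h + 1)) × Ω)), N ⊆ G ∪ E →
      G.card ≤ Fintype.card Ω * (2 ^ (2 * h) + c * D * (2 * h + 1).choose h) →
      N.card * 2 ^ l ≤ Fintype.card Ω * bdD (c * D) h s d l := by
    intro N G hN hG
    have h1 : N.card ≤ G.card + E.card := (card_le_card hN).trans (card_union_le _ _)
    calc N.card * 2 ^ l ≤ (G.card + E.card) * 2 ^ l := Nat.mul_le_mul_right _ h1
      _ = G.card * 2 ^ l + E.card * 2 ^ l := by ring
      _ ≤ (Fintype.card Ω * (2 ^ (2 * h) + c * D * (2 * h + 1).choose h)) * 2 ^ l +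
          (s + 1) ^ d * (2 ^ (2 * h + 1) * Fintype.card Ω) :=
        Nat.add_le_add (Nat.mul_le_mul_right _ hG) hgf
      _ = Fintype.card Ω * bdD (c * D) h s d l := by
        unfold bdD
        ring
  constructor
  · refine fin _ _ (fun z hz => ?_) a1
    rw [mem_filter] at hz
    rw [mem_union, mem_filter, mem_filter]
    by_cases he : g z = if f (Ψ z) = true then 1 else 0
    · left
      refine ⟨mem_univ _, ?_⟩
      rw [he]
      by_cases hm : h < z.1.card
      · rw [if_pos hm, if_pos (hz.2.2 hm)]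
      · rw [if_neg hm, if_neg (fun hh => hm (hz.2.1 hh))]
    · exact Or.inr ⟨mem_univ _, he⟩
  · refine fin _ _ (fun z hz => ?_) a2
    rw [mem_filter] at hz
    rw [mem_union, mem_filter, mem_filter]
    by_cases he : g z = if f (Ψ z) = true then 1 else 0
    · left
      refine ⟨mem_univ _, ?_⟩
      rw [Pi.sub_apply, Pi.one_apply, he]
      by_cases hm : h < z.1.card
      · have : ¬ f (Ψ z) = true := fun hh => hz.2 (iff_of_true hh hm)
        rw [if_pos hm, if_neg this, sub_zero]
      · have : f (Ψ z) = true := by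
          by_contra hh
          exact hz.2 (iff_of_false hh hm)
        rw [if_neg hm, if_pos this, sub_self]
    · exact Or.inr ⟨mem_univ _, he⟩

/-- From the number of agreements to the distance of two averages: circuits over functions of
degree at most `c`. -/
theorem two_countsJ [Fact q.Prime] {Ω X : Type} [Fintype Ω] (h s d l c : ℕ) (hl : 1 ≤ l)
    (Ψ : Finset (Fin (2 * h + 1)) × Ω → X) (B : Set (X → Bool))
    (hB : ∀ f ∈ B, ∀ ω, (fun x => if f (Ψ (x, ω)) = true then (1 : ZMod q) else 0) ∈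
      Aff q (2 * h + 1) ^ c) (f : X → Bool) (hf : f ∈ AC q B s d) (H0 H1 : ℝ)
    (hx : ∀ x : Finset (Fin (2 * h + 1)),
      (∑ ω : Ω, if f (Ψ (x, ω)) = true then (1 : ℝ) else 0) = if h < x.card then H1 else H0) :
    |H0 - H1| ≤ 2 * (((c * ((q - 1) * l) ^ d : ℕ) : ℝ) * ((2 * h + 1).choose h : ℝ) /
      2 ^ (2 * h + 1) + (((s + 1) ^ d : ℕ) : ℝ) / 2 ^ l) * Fintype.card Ω := by
  classical
  obtain ⟨c1, c2⟩ := count_boundJ h s d l c hl Ψ B hB f hf
  have hn : ∀ x : Finset (Fin (2 * h + 1)),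
      (∑ ω : Ω, if ¬ f (Ψ (x, ω)) = true then (1 : ℝ) else 0) =
      Fintype.card Ω - ∑ ω : Ω, if f (Ψ (x, ω)) = true then (1 : ℝ) else 0 := by
    intro x
    rw [eq_sub_iff_add_eq, ← sum_add_distrib]
    have : (Fintype.card Ω : ℝ) = ∑ _ω : Ω, (1 : ℝ) := by
      rw [sum_const, card_univ, nsmul_eq_mul, mul_one]
    rw [this]
    refine sum_congr rfl fun ω _ => ?_
    by_cases hc : f (Ψ (x, ω)) = true
    · rw [if_neg (not_not.2 hc), if_pos hc, zero_add]
    · rw [if_pos hc, if_neg hc, add_zero]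
  have hmaj := maj_half h
  have hmaj' : (univ.filter fun x : Finset (Fin (2 * h + 1)) => ¬ h < x.card).card =
      2 ^ (2 * h) := by
    have h2 := card_filter_add_card_filter_not (s := (univ : Finset (Finset (Fin (2 * h + 1)))))
      (fun x => h < x.card)
    rw [card_univ, Fintype.card_finset, Fintype.card_fin, hmaj, pow_succ] at h2
    omega
  have split : ∀ (F G : ℝ) (P : Finset (Fin (2 * h + 1)) × Ω → Prop) [DecidablePred P],
      (∀ x : Finset (Fin (2 * h + 1)), (∑ ω : Ω, if P (x, ω) then (1 : ℝ) else 0) =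
        if h < x.card then F else G) →
      ((univ.filter fun z : Finset (Fin (2 * h + 1)) × Ω => P z).card : ℝ) =
        2 ^ (2 * h) * F + 2 ^ (2 * h) * G := by
    intro F G P _ hP
    rw [← sum_boole, Fintype.sum_prod_type]
    simp only [hP]
    rw [sum_ite, sum_const, sum_const, hmaj, hmaj', nsmul_eq_mul, nsmul_eq_mul]
    push_cast
    ring
  have n1 := split H1 (Fintype.card Ω - H0)
    (fun z => (f (Ψ z) = true ↔ h < z.1.card)) (by
      intro x
      have := hx x
      by_cases hmx : h < x.card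
      · rw [if_pos hmx] at this ⊢
        rw [← this]
        exact sum_congr rfl fun ω _ => if_congr (iff_true_right hmx) rfl rfl
      · rw [if_neg hmx] at this ⊢
        rw [← this, ← hn x]
        exact sum_congr rfl fun ω _ => if_congr (iff_false_right hmx) rfl rfl)
  have n0 := split (Fintype.card Ω - H1) H0
    (fun z => ¬ (f (Ψ z) = true ↔ h < z.1.card)) (by
      intro x
      have := hx x
      by_cases hmx : h < x.card
      · rw [if_pos hmx] at this ⊢
        rw [← this, ← hn x]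
        exact sum_congr rfl fun ω _ => if_congr (not_congr (iff_true_right hmx)) rfl rfl
      · rw [if_neg hmx] at this ⊢
        rw [← this]
        exact sum_congr rfl fun ω _ => if_congr
          ((not_congr (iff_false_right hmx)).trans not_not) rfl rfl)
  have b1 : ((univ.filter fun z : Finset (Fin (2 * h + 1)) × Ω =>
      (f (Ψ z) = true ↔ h < z.1.card)).card : ℝ) * 2 ^ l ≤
      Fintype.card Ω * (bdD (c * ((q - 1) * l) ^ d) h s d l : ℝ) := by
    exact_mod_cast c1
  have b0 : ((univ.filter fun z : Finset (Fin (2 * h + 1)) × Ω =>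
      ¬ (f (Ψ z) = true ↔ h < z.1.card)).card : ℝ) * 2 ^ l ≤
      Fintype.card Ω * (bdD (c * ((q - 1) * l) ^ d) h s d l : ℝ) := by
    exact_mod_cast c2
  rw [n1] at b1
  rw [n0] at b0
  have hbd : (bdD (c * ((q - 1) * l) ^ d) h s d l : ℝ) =
      (2 ^ (2 * h) + ((c * ((q - 1) * l) ^ d : ℕ) : ℝ) *
      ((2 * h + 1).choose h : ℝ)) * 2 ^ l + (((s + 1) ^ d : ℕ) : ℝ) * 2 ^ (2 * h + 1) := by
    unfold bdD
    push_cast
    ring
  rw [hbd] at b1 b0
  generalize ((c * ((q - 1) * l) ^ d : ℕ) : ℝ) = DD at *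
  generalize ((2 * h + 1).choose h : ℝ) = CC at *
  generalize (((s + 1) ^ d : ℕ) : ℝ) = SS at *
  generalize (Fintype.card Ω : ℝ) = O at *
  have hp1 : (0 : ℝ) < 2 ^ (2 * h) := by positivity
  have hp2 : (0 : ℝ) < 2 ^ l := by positivity
  have key : ∀ y : ℝ, 2 ^ (2 * h) * y * 2 ^ l ≤
      O * (DD * CC * 2 ^ l + SS * 2 ^ (2 * h + 1)) →
      y ≤ 2 * (DD * CC / 2 ^ (2 * h + 1) + SS / 2 ^ l) * O := by
    intro y hy
    have e1 : 2 * (DD * CC / 2 ^ (2 * h + 1) + SS / 2 ^ l) * O =
        O * (DD * CC * 2 ^ l + SS * 2 ^ (2 * h + 1)) / (2 ^ (2 * h) * 2 ^ l) := by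
      rw [pow_succ]
      field_simp
    rw [e1, le_div_iff₀ (by positivity)]
    linarith
  rw [abs_le]
  constructor
  · have := key (H1 - H0) (by linear_combination b1)
    linarith
  · have := key (H0 - H1) (by linear_combination b0)
    linarith

end Pool.Agent.PKEp
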