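import Pool.Agent.PKEp.Num

/-!
# The final numbers, second form
-/

namespace Pool.Agent.PKEp

/-- The choice of the number `l` of rounds. Here `h = n ^ (2 e + 4)`, the fan-in is `2 ^ k`. -/
theorem numQ (q d e : ℕ) : ∃ n₀ : ℕ, ∀ n ≥ n₀, ∀ k : ℕ, k ^ d ≤ n →
    ∃ l : ℕ, 1 ≤ l ∧
      4 * (((((q - 1) * l) ^ d : ℕ) : ℝ) / Real.sqrt (2 * (n ^ (2 * e + 4) : ℕ) + 3) +
        (((2 ^ k + 1) ^ d : ℕ) : ℝ) / 2 ^ l) ≤ 1 / (n : ℝ) ^ e := by
  set P := (q - 1) ^ d with hP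
  obtain ⟨n₁, hn₁⟩ := num_polylog (16 * P * 2 ^ d) (d + 3 + e) e d
  refine ⟨n₁ + 16 * P * 2 ^ d * d ^ d + 1, fun n hn k hk => ?_⟩
  have hna : n₁ ≤ n := by omega
  have hnb : 16 * P * 2 ^ d * d ^ d ≤ n := by omega
  have hnc : 1 ≤ n := by omega
  set L := 3 + e * (Nat.log 2 n + 1) with hL
  refine ⟨(k + 1) * d + L, by omega, ?_⟩
  set l := (k + 1) * d + L with hl
  have hnpos : (0 : ℝ) < n := by exact_mod_cast hnc
  have h1 : (2 ^ k + 1) ^ d ≤ 2 ^ ((k + 1) * d) := by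
    rw [pow_mul]
    apply Nat.pow_le_pow_left
    have : 1 ≤ 2 ^ k := Nat.one_le_two_pow
    rw [pow_succ]
    omega
  have h2 : 8 * n ^ e ≤ 2 ^ L := by
    have h3 : n ≤ 2 ^ (Nat.log 2 n + 1) := (Nat.lt_pow_succ_log_self (by norm_num) n).le
    calc 8 * n ^ e ≤ 2 ^ 3 * (2 ^ (Nat.log 2 n + 1)) ^ e :=
          Nat.mul_le_mul (by norm_num) (Nat.pow_le_pow_left h3 e)
      _ = 2 ^ L := by
          rw [hL, pow_add 2 3, ← pow_mul 2 (Nat.log 2 n + 1) e, mul_comm e]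
  have h3 : (((2 ^ k + 1) ^ d : ℕ) : ℝ) / 2 ^ l ≤ 1 / (8 * (n : ℝ) ^ e) := by
    rw [div_le_div_iff₀ (by positivity) (by positivity)]
    have : (2 ^ k + 1) ^ d * (8 * n ^ e) ≤ 1 * 2 ^ l := by
      rw [one_mul, hl, pow_add]
      exact Nat.mul_le_mul h1 h2
    exact_mod_cast this
  have h4 : l ^ d ≤ 2 ^ d * ((d * k) ^ d + (d + 3 + e + e * Nat.log 2 n) ^ d) := by
    have h5 : l = d * k + (d + 3 + e + e * Nat.log 2 n) := by
      rw [hl, hL]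
      ring
    rw [h5]
    set a := d * k
    set b := d + 3 + e + e * Nat.log 2 n
    rcases le_total a b with h6 | h6
    · calc (a + b) ^ d ≤ (2 * b) ^ d := Nat.pow_le_pow_left (by omega) d
        _ = 2 ^ d * b ^ d := mul_pow _ _ _
        _ ≤ _ := Nat.mul_le_mul_left _ (Nat.le_add_left _ _)
    · calc (a + b) ^ d ≤ (2 * a) ^ d := Nat.pow_le_pow_left (by omega) d
        _ = 2 ^ d * a ^ d := mul_pow _ _ _
        _ ≤ _ := Nat.mul_le_mul_left _ (Nat.le_add_right _ _)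
  have h10 : 16 * P * 2 ^ d * (d * k) ^ d ≤ n * n := by
    calc 16 * P * 2 ^ d * (d * k) ^ d = (16 * P * 2 ^ d * d ^ d) * k ^ d := by
          rw [mul_pow]; ring
      _ ≤ n * n := Nat.mul_le_mul hnb hk
  have h11 : 16 * P * 2 ^ d * (d + 3 + e + e * Nat.log 2 n) ^ d ≤ n * n :=
    (hn₁ n hna).trans (Nat.le_mul_of_pos_left n hnc)
  have h12 : 8 * P * l ^ d ≤ n ^ 2 := by
    have h13 : 8 * P * l ^ d ≤ 8 * P * (2 ^ d * ((d * k) ^ d +
        (d + 3 + e + e * Nat.log 2 n) ^ d)) := Nat.mul_le_mul_left _ h4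
    nlinarith
  have h14 : (n : ℝ) ^ (e + 2) ≤ Real.sqrt (2 * (n ^ (2 * e + 4) : ℕ) + 3) := by
    apply Real.le_sqrt_of_sq_le
    push_cast
    rw [← pow_mul, show (e + 2) * 2 = 2 * e + 4 by ring]
    have : (0 : ℝ) ≤ (n : ℝ) ^ (2 * e + 4) := by positivity
    linarith
  have h15 : ((((q - 1) * l) ^ d : ℕ) : ℝ) / Real.sqrt (2 * (n ^ (2 * e + 4) : ℕ) + 3)
      ≤ 1 / (8 * (n : ℝ) ^ e) := by
    have h16 : ((q - 1) * l) ^ d = P * l ^ d := by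
      rw [hP, mul_pow]
    rw [h16]
    calc ((P * l ^ d : ℕ) : ℝ) / Real.sqrt (2 * (n ^ (2 * e + 4) : ℕ) + 3)
        ≤ ((P * l ^ d : ℕ) : ℝ) / (n : ℝ) ^ (e + 2) :=
          div_le_div_of_nonneg_left (by positivity) (by positivity) h14
      _ ≤ 1 / (8 * (n : ℝ) ^ e) := by
          rw [div_le_div_iff₀ (by positivity) (by positivity)]
          have h17 : (P * l ^ d) * (8 * n ^ e) ≤ 1 * n ^ (e + 2) := by
            calc (P * l ^ d) * (8 * n ^ e) = (8 * P * l ^ d) * n ^ e := by ring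
              _ ≤ n ^ 2 * n ^ e := Nat.mul_le_mul_right _ h12
              _ = 1 * n ^ (e + 2) := by ring
          exact_mod_cast h17
  have h18 : 4 * (1 / (8 * (n : ℝ) ^ e) + 1 / (8 * (n : ℝ) ^ e)) = 1 / (n : ℝ) ^ e := by
    field_simp
    norm_num
  rw [← h18]
  linarith

end Pool.Agent.PKEp
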