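import Pool.Agent.PKEp.Smol

/-!
# The counting program for majority as a unitriangular system
-/

namespace Pool.Agent.PKEp

open Finset

/-- States of the counting program: position and count. -/
abbrev St (m : ℕ) : Type := Fin (m + 1) × Fin (m + 1)

variable {m : ℕ}

/-- The bit read at position `i` (zero at the end). -/
def bit (x : Finset (Fin m)) (i : ℕ) : Prop := ∃ j ∈ x, (j : ℕ) = i

instance (x : Finset (Fin m)) (i : ℕ) : Decidable (bit x i) := by
  unfold bit; infer_instance

/-- The matrix of the program. -/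
def U (p : ℕ) (x : Finset (Fin m)) (q q' : St m) : ZMod p :=
  (if q = q' then 1 else 0) -
    (if q'.1.1 = q.1.1 + 1 ∧ q'.2.1 = (if bit x q.1.1 then min (q.2.1 + 1) m else q.2.1)
      then 1 else 0)

/-- The accepting states. -/
def acc (p h : ℕ) (q : St m) : ZMod p := if q.1.1 = m ∧ h < q.2.1 then 1 else 0

/-- The starting state. -/
def a0 (p : ℕ) (q : St m) : ZMod p := if q = (0, 0) then 1 else 0

/-- The solution of the system. -/
def w (p h : ℕ) (x : Finset (Fin m)) (q : St m) : ZMod p :=
  if h < q.2.1 + (x.filter fun i => q.1.1 ≤ i.1).card then 1 else 0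

lemma card_filter_succ (x : Finset (Fin m)) (i : ℕ) :
    (x.filter fun j => i ≤ j.1).card =
      (x.filter fun j => i + 1 ≤ j.1).card + if bit x i then 1 else 0 := by
  by_cases hb : bit x i
  · rw [if_pos hb]
    obtain ⟨j, hj, hji⟩ := hb
    have : (x.filter fun j => i ≤ j.1) = insert j (x.filter fun j => i + 1 ≤ j.1) := by
      ext k
      simp only [mem_filter, mem_insert]
      constructor
      · rintro ⟨h1, h2⟩
        rcases Nat.eq_or_lt_of_le h2 with h | h
        · left; exact Fin.ext (by omega)
        · exact Or.inr ⟨h1, h⟩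
      · rintro (rfl | ⟨h1, h2⟩)
        · exact ⟨hj, by omega⟩
        · exact ⟨h1, by omega⟩
    rw [this, card_insert_of_notMem]
    rw [mem_filter]
    rintro ⟨-, h⟩
    omega
  · rw [if_neg hb, add_zero]
    congr 1
    ext k
    simp only [mem_filter]
    constructor
    · rintro ⟨h1, h2⟩
      refine ⟨h1, ?_⟩
      rcases Nat.eq_or_lt_of_le h2 with h | h
      · exact absurd ⟨k, h1, h.symm⟩ hb
      · exact h
    · rintro ⟨h1, h2⟩
      exact ⟨h1, by omega⟩

theorem U_w (p h : ℕ) (hm : h < m) (x : Finset (Fin m)) (q : St m) :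
    ∑ q', U p x q q' * w p h x q' = acc p h q := by
  unfold U
  simp only [sub_mul, sum_sub_distrib, ite_mul, one_mul, zero_mul, sum_ite_eq, mem_univ, if_true]
  by_cases hq : q.1.1 = m
  · have h0 : ∀ q' : St m, ¬ (q'.1.1 = q.1.1 + 1 ∧
        q'.2.1 = (if bit x q.1.1 then min (q.2.1 + 1) m else q.2.1)) := by
      intro q' h'
      have := q'.1.2
      omega
    rw [sum_eq_zero (fun q' _ => if_neg (h0 q')), sub_zero]
    unfold w acc
    have : (x.filter fun i => q.1.1 ≤ i.1) = ∅ := by
      rw [filter_eq_empty_iff]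
      intro i _
      have := i.2
      omega
    rw [this, card_empty, add_zero]
    simp [hq]
  · have hlt : q.1.1 < m := by have := q.1.2; omega
    set c : ℕ := if bit x q.1.1 then min (q.2.1 + 1) m else q.2.1 with hc
    have hcm : c < m + 1 := by
      rw [hc]
      split_ifs
      · have := min_le_right (q.2.1 + 1) m; omega
      · exact q.2.2
    set q1 : St m := (⟨q.1.1 + 1, by omega⟩, ⟨c, hcm⟩) with hq1
    have hs : ∑ q' : St m, (if q'.1.1 = q.1.1 + 1 ∧ q'.2.1 = c then w p h x q' else 0) =
        w p h x q1 := by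
      rw [sum_eq_single q1]
      · exact if_pos ⟨rfl, rfl⟩
      · intro q' _ hne
        refine if_neg fun h' => hne ?_
        exact Prod.ext (Fin.ext h'.1) (Fin.ext h'.2)
      · intro h'; exact absurd (mem_univ _) h'
    rw [hs]
    have hacc : acc p h q = 0 := if_neg fun h' => hq h'.1
    rw [hacc, sub_eq_zero]
    unfold w
    have hcard := card_filter_succ x q.1.1
    have hiff : h < q.2.1 + (x.filter fun i => q.1.1 ≤ i.1).card ↔
        h < q1.2.1 + (x.filter fun i => q1.1.1 ≤ i.1).card := by
      have e1 : q1.2.1 = c := rfl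
      have e2 : q1.1.1 = q.1.1 + 1 := rfl
      rw [e1, e2, hcard]
      by_cases hb : bit x q.1.1
      · rw [hc, if_pos hb, if_pos hb]
        have := q.2.2
        rcases le_total (q.2.1 + 1) m with h1 | h1
        · rw [min_eq_left h1]; omega
        · rw [min_eq_right h1]; omega
      · rw [hc, if_neg hb, if_neg hb]; omega
    by_cases hh : h < q.2.1 + (x.filter fun i => q.1.1 ≤ i.1).card
    · rw [if_pos hh, if_pos (hiff.1 hh)]
    · rw [if_neg hh, if_neg (fun h' => hh (hiff.2 h'))]

theorem a0_w (p h : ℕ) (x : Finset (Fin m)) :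
    ∑ q, a0 p q * w p h x q = if h < x.card then 1 else 0 := by
  unfold a0
  simp only [ite_mul, one_mul, zero_mul, sum_ite_eq', mem_univ, if_true]
  unfold w
  have : (x.filter fun i => ((0, 0) : St m).1.1 ≤ i.1) = x := by
    rw [filter_eq_self]
    intro i _
    exact Nat.zero_le _
  rw [this]
  simp

theorem U_self (p : ℕ) (x : Finset (Fin m)) (q : St m) : U p x q q = 1 := by
  unfold U
  rw [if_pos rfl, if_neg (by omega), sub_zero]

theorem U_lower (p : ℕ) (x : Finset (Fin m)) {q q' : St m} (h : ¬ q.1 < q'.1) (hne : q ≠ q') :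
    U p x q q' = 0 := by
  unfold U
  rw [if_neg hne, if_neg, sub_zero]
  rintro ⟨h1, -⟩
  apply h
  rw [Fin.lt_def]
  omega

theorem one_mem_Aff (p : ℕ) : (1 : Finset (Fin m) → ZMod p) ∈ Aff p m :=
  Submodule.subset_span (Set.mem_insert _ _)

theorem const_mem_Aff (p : ℕ) (c : ZMod p) : (fun _ : Finset (Fin m) => c) ∈ Aff p m := by
  have : (fun _ : Finset (Fin m) => c) = c • (1 : Finset (Fin m) → ZMod p) := by
    funext x; simp
  rw [this]
  exact Submodule.smul_mem _ _ (one_mem_Aff p)

theorem bit_mem_Aff (p : ℕ) (i : ℕ) :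
    (fun x : Finset (Fin m) => if bit x i then (1 : ZMod p) else 0) ∈ Aff p m := by
  by_cases hi : i < m
  · refine Submodule.subset_span (Set.mem_insert_of_mem _ ⟨⟨i, hi⟩, ?_⟩)
    funext x
    have : bit x i ↔ (⟨i, hi⟩ : Fin m) ∈ x := by
      constructor
      · rintro ⟨j, hj, hji⟩
        have : j = ⟨i, hi⟩ := Fin.ext hji
        rwa [this] at hj
      · intro h; exact ⟨_, h, rfl⟩
    simp only [this]
  · have : (fun x : Finset (Fin m) => if bit x i then (1 : ZMod p) else 0) = 0 := by
      funext x
      rw [if_neg, Pi.zero_apply]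
      rintro ⟨j, -, hj⟩
      have := j.2
      omega
    rw [this]
    exact Submodule.zero_mem _

theorem U_mem_Aff (p : ℕ) (q q' : St m) :
    (fun x : Finset (Fin m) => U p x q q') ∈ Aff p m := by
  by_cases hq : q'.1.1 = q.1.1 + 1
  · have : (fun x : Finset (Fin m) => U p x q q') =
        (fun _ => (if q = q' then 1 else 0) - (if q'.2.1 = q.2.1 then 1 else 0)) -
        ((if q'.2.1 = min (q.2.1 + 1) m then (1 : ZMod p) else 0) -
          (if q'.2.1 = q.2.1 then 1 else 0)) •
          (fun x : Finset (Fin m) => if bit x q.1.1 then (1 : ZMod p) else 0) := by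
      funext x
      simp only [U, hq, true_and, Pi.sub_apply, Pi.smul_apply, smul_eq_mul]
      by_cases hb : bit x q.1.1
      · simp only [if_pos hb]; ring
      · simp only [if_neg hb]; ring
    rw [this]
    exact Submodule.sub_mem _ (const_mem_Aff p _) (Submodule.smul_mem _ _ (bit_mem_Aff p _))
  · have : (fun x : Finset (Fin m) => U p x q q') = fun _ => (if q = q' then 1 else 0) := by
      funext x
      simp only [U, hq, false_and, if_false, sub_zero]
    rw [this]
    exact const_mem_Aff p _

end Pool.Agent.PKEp
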