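import Pool.Agent.PKEp.Proj

/-!
# The key made from an arbitrary layered program

Every position of the view depends on one column of the program.
-/

namespace Pool.Agent.PKEp

open Finset

variable {p m : ℕ}

/-- The matrix made from a program. -/
def WP (a : St m → ZMod p) (U : St m → St m → ZMod p) (s : St m → ZMod p)
    (v : St m → St m → ZMod p) : Row m → St m → ZMod p
  | none, j => a j + ∑ q, s q * U q j
  | some q, j => ∑ k, Vv v q k * U k j

/-- The shares of the last column made from a program. -/
def BP (a : St m → ZMod p) (U : St m → St m → ZMod p) (u : St m → ZMod p) (s : St m → ZMod p)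
    (v : St m → St m → ZMod p) (t : St m → ZMod p) (i : Row m) (j : St m) : ZMod p :=
  WP a U s v i j * t j + WW s v i j * u j

/-- The view made from a program. -/
noncomputable def lview (a : St m → ZMod p) (U : St m → St m → ZMod p) (u : St m → ZMod p)
    (s : St m → ZMod p) (v : St m → St m → ZMod p) (t : St m → ZMod p)
    (ρ : Row m → St m → ZMod p) (r : Row m → ZMod p) (σ : St m → Row m → ZMod p)
    (τ : Option (Row m × St m) → ZMod p) (b : ZMod p) : PKi m ⊕ CTi m → ZMod p :=
  pub (WP a U s v) (fun i => sh (BP a U u s v t i) (ρ i))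
    (fun j => sh (fun i => r i * WP a U s v i j) (σ j))
    (sh (cB (fun i => sh (BP a U u s v t i) (ρ i)) r b) τ)

/-- Change of the coins `s`. -/
def sG (a : St m → ZMod p) (U : St m → St m → ZMod p) (s : St m → ZMod p) (j : St m) : ZMod p :=
  a j + ∑ q, s q * U q j

/-- Change of the coins `v`. -/
def vG (U : St m → St m → ZMod p) (v : St m → St m → ZMod p) (q j : St m) : ZMod p :=
  if q.1 < j.1 then ∑ k, Vv v q k * U k j else v q j

lemma WW_G (a : St m → ZMod p) {U : St m → St m → ZMod p} (hU : Tri U) (s : St m → ZMod p)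
    (v : St m → St m → ZMod p) : WW (sG a U s) (vG U v) = WP a U s v := by
  funext i j
  cases i with
  | none => rfl
  | some q =>
    change Vv (vG U v) q j = ∑ k, Vv v q k * U k j
    have hT := (Vv_tri v).mul hU
    unfold Vv vG
    by_cases h : q.1 < j.1
    · rw [if_pos h, if_pos h]; rfl
    · rw [if_neg h]
      by_cases hq : q = j
      · rw [if_pos hq, ← hq]; exact (hT.1 q).symm
      · rw [if_neg hq]; exact (hT.2 q j h hq).symm

lemma yy_G (a : St m → ZMod p) (U : St m → St m → ZMod p) (u w : St m → ZMod p)
    (hw : ∀ q, ∑ j, U q j * w j = u q) (s : St m → ZMod p) (v : St m → St m → ZMod p)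
    (t : St m → ZMod p) (i : Row m) :
    ∑ j, BP a U u s v t i j = yy (WP a U s v) (fun j => t j + w j) (∑ j, a j * w j) i := by
  unfold yy BP
  simp only [mul_add, sum_add_distrib]
  rw [add_sub_assoc]
  congr 1
  cases i with
  | none =>
    rw [if_pos rfl]
    simp only [WP, WW, add_mul, sum_add_distrib]
    rw [add_sub_right_comm, sub_self, zero_add]
    simp only [sum_mul]
    rw [sum_comm]
    refine sum_congr rfl fun q _ => ?_
    rw [← hw q, mul_sum]
    exact sum_congr rfl fun j _ => by ring
  | some q =>
    rw [if_neg (by simp), sub_zero]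
    simp only [WP, WW, sum_mul]
    rw [sum_comm]
    refine sum_congr rfl fun k _ => ?_
    rw [← hw k, mul_sum]
    exact sum_congr rfl fun j _ => by ring

lemma sG_bij [NeZero p] (a : St m → ZMod p) {U : St m → St m → ZMod p} (hU : Tri U) :
    Function.Bijective (sG a U) := by
  rw [← Finite.injective_iff_bijective]
  intro s s' h
  refine hU.inj ?_
  funext j
  have := congrFun h j
  exact add_left_cancel this

lemma vG_bij [NeZero p] {U : St m → St m → ZMod p} (hU : Tri U) :
    Function.Bijective (vG U) := by
  rw [← Finite.injective_iff_bijective]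
  intro v v' h
  funext q j
  by_cases hq : q.1 < j.1
  · have hrow : Vv v q = Vv v' q := by
      refine hU.inj ?_
      funext j
      by_cases hj : q.1 < j.1
      · have := congrFun (congrFun h q) j
        simp only [vG, if_pos hj] at this
        exact this
      · have h1 := (Vv_tri v).mul hU
        have h2 := (Vv_tri v').mul hU
        by_cases hqj : q = j
        · subst hqj
          exact (h1.1 q).trans (h2.1 q).symm
        · exact (h1.2 q j hj hqj).trans (h2.2 q j hj hqj).symm
    have := congrFun hrow j
    simp only [Vv, if_pos hq] at this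
    exact this
  · have := congrFun (congrFun h q) j
    simp only [vG, if_neg hq] at this
    exact this

/-- The key with `β` the value of the program can be made from the program, with shares each of
which depends on one column. -/
theorem hyb_lview [NeZero p] (a : St m → ZMod p) (U : St m → St m → ZMod p) (u w : St m → ZMod p)
    (hU : Tri U) (hw : ∀ q, ∑ j, U q j * w j = u q) (b : ZMod p)
    (f : (PKi m ⊕ CTi m → ZMod p) → ℝ) :
    hyb (∑ j, a j * w j) b f =
      ∑ s : St m → ZMod p, ∑ v : St m → St m → ZMod p, ∑ t : St m → ZMod p,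
        ∑ ρ : Row m → St m → ZMod p, ∑ r : Row m → ZMod p, ∑ σ : St m → Row m → ZMod p,
          ∑ τ : Option (Row m × St m) → ZMod p, f (lview a U u s v t ρ r σ τ b) := by
  unfold hyb
  rw [← (sG_bij a hU).sum_comp]
  refine sum_congr rfl fun s _ => ?_
  rw [← (vG_bij hU).sum_comp]
  refine sum_congr rfl fun v _ => ?_
  have ht : Function.Bijective fun (t : St m → ZMod p) (j : St m) => t j + w j := by
    have : (fun (t : St m → ZMod p) (j : St m) => t j + w j) = Equiv.addRight w := by
      funext t j; rfl
    rw [this]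
    exact Equiv.bijective _
  rw [← ht.sum_comp]
  refine sum_congr rfl fun t _ => ?_
  rw [WW_G a hU]
  exact (viewG_eq (WP a U s v) (BP a U u s v t)
    (yy (WP a U s v) (fun j => t j + w j) (∑ j, a j * w j)) (yy_G a U u w hw s v t) b f).symm

/-- The column on which a position of the view depends. -/
def colOf : PKi m ⊕ CTi m → Option (St m)
  | Sum.inl (Sum.inl x) => some x.2
  | Sum.inl (Sum.inr x) => some x.2
  | Sum.inr (Sum.inl x) => some x.1
  | Sum.inr (Sum.inr none) => none
  | Sum.inr (Sum.inr (some x)) => some x.2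

lemma WP_congr {a a' : St m → ZMod p} {U U' : St m → St m → ZMod p} (s : St m → ZMod p)
    (v : St m → St m → ZMod p) {j : St m} (ha : a j = a' j) (hU : ∀ q, U q j = U' q j)
    (i : Row m) : WP a U s v i j = WP a' U' s v i j := by
  cases i with
  | none =>
    change a j + ∑ q, s q * U q j = a' j + ∑ q, s q * U' q j
    rw [ha]
    congr 1
    exact sum_congr rfl fun q _ => by rw [hU q]
  | some q =>
    change ∑ k, Vv v q k * U k j = ∑ k, Vv v q k * U' k j
    exact sum_congr rfl fun k _ => by rw [hU k]

lemma BP_congr {a a' : St m → ZMod p} {U U' : St m → St m → ZMod p} {u u' : St m → ZMod p}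
    (s : St m → ZMod p) (v : St m → St m → ZMod p) (t : St m → ZMod p) {j : St m}
    (ha : a j = a' j) (hU : ∀ q, U q j = U' q j) (hu : u j = u' j) (i : Row m) :
    BP a U u s v t i j = BP a' U' u' s v t i j := by
  unfold BP
  rw [WP_congr s v ha hU i, hu]

/-- Programs which agree in the column of a position give the same symbol there. -/
theorem lview_congr {a a' : St m → ZMod p} {U U' : St m → St m → ZMod p} {u u' : St m → ZMod p}
    (i : PKi m ⊕ CTi m) (h : ∀ j, colOf i = some j → a j = a' j ∧ (∀ q, U q j = U' q j) ∧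
      u j = u' j) (s : St m → ZMod p) (v : St m → St m → ZMod p) (t : St m → ZMod p)
    (ρ : Row m → St m → ZMod p) (r : Row m → ZMod p) (σ : St m → Row m → ZMod p)
    (τ : Option (Row m × St m) → ZMod p) (b : ZMod p) :
    lview a U u s v t ρ r σ τ b i = lview a' U' u' s v t ρ r σ τ b i := by
  rcases i with (i | i) | (i | i)
  · obtain ⟨h1, h2, -⟩ := h i.2 rfl
    exact WP_congr s v h1 h2 i.1
  · obtain ⟨h1, h2, h3⟩ := h i.2 rfl
    change BP a U u s v t i.1 i.2 + ρ i.1 i.2 - ρ i.1 (nx (St m) i.2) =
      BP a' U' u' s v t i.1 i.2 + ρ i.1 i.2 - ρ i.1 (nx (St m) i.2)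
    rw [BP_congr s v t h1 h2 h3]
  · obtain ⟨h1, h2, -⟩ := h i.1 rfl
    change r i.2 * WP a U s v i.2 i.1 + σ i.1 i.2 - σ i.1 (nx (Row m) i.2) =
      r i.2 * WP a' U' s v i.2 i.1 + σ i.1 i.2 - σ i.1 (nx (Row m) i.2)
    rw [WP_congr s v h1 h2]
  · rcases i with _ | i
    · rfl
    · obtain ⟨h1, h2, h3⟩ := h i.2 rfl
      change r i.1 * (BP a U u s v t i.1 i.2 + ρ i.1 i.2 - ρ i.1 (nx (St m) i.2)) + τ (some i) -
          τ (nx (Option (Row m × St m)) (some i)) =
        r i.1 * (BP a' U' u' s v t i.1 i.2 + ρ i.1 i.2 - ρ i.1 (nx (St m) i.2)) + τ (some i) -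
          τ (nx (Option (Row m × St m)) (some i))
      rw [BP_congr s v t h1 h2 h3]

end Pool.Agent.PKEp
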