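import Mathlib

/-!
# Public-key encryption against constant-depth circuits with modular gates: the definitions
-/

namespace Pool.Agent.PKEp

/-- `AC p B s d`: the Boolean functions obtained from functions in `B` by `d` rounds of gates of
fan-in at most `s`, where a gate is an OR, an AND, or tells whether the number of true inputs is
congruent to `a` modulo `p`, for some `a`. -/
def AC (p : ℕ) {X : Type} (B : Set (X → Bool)) (s : ℕ) : ℕ → Set (X → Bool)
  | 0 => B
  | d + 1 => {f | ∃ (t : ℕ) (g : Fin t → X → Bool), t ≤ s ∧ (∀ i, g i ∈ AC p B s d) ∧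
      ((∀ x, f x = true ↔ ∃ i, g i x = true) ∨ (∀ x, f x = true ↔ ∀ i, g i x = true) ∨
        ∃ a : ZMod p, ∀ x, f x = true ↔
          ((Finset.univ.filter fun i => g i x = true).card : ZMod p) = a)}

/-- Boolean functions of one symbol, and constants, on words over the alphabet `ZMod p` whose
positions are the elements of `ι` (for `p = 2`: bits, negated bits and constants). -/
def lits (p : ℕ) (ι : Type) : Set ((ι → ZMod p) → Bool) :=
  {f | (∃ (i : ι) (T : ZMod p → Bool), f = fun x => T (x i)) ∨ ∃ b, f = fun _ => b}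

/-- A public-key encryption scheme with all words over the alphabet `ZMod p`, for every security
parameter `n`: the numbers of coins of key generation (`cg`) and encryption (`ce`), the lengths of
the public key, the secret key and the ciphertext, and the algorithms. A coin is a uniform element
of `ZMod p`. -/
structure PKE (p : ℕ) where
  cg : ℕ → ℕ
  ce : ℕ → ℕ
  pk : ℕ → ℕ
  sk : ℕ → ℕ
  ct : ℕ → ℕ
  genPk : ∀ n, (Fin (cg n) → ZMod p) → Fin (pk n) → ZMod p
  genSk : ∀ n, (Fin (cg n) → ZMod p) → Fin (sk n) → ZMod p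
  enc : ∀ n, (Fin (pk n) ⊕ Unit ⊕ Fin (ce n) → ZMod p) → Fin (ct n) → ZMod p
  dec : ∀ n, (Fin (sk n) ⊕ Fin (ct n) → ZMod p) → ZMod p

variable {p : ℕ}

/-- The ciphertext of `b` under the public key made from the coins `g`, with coins `r`. -/
def PKE.ctx (S : PKE p) (n : ℕ) (g : Fin (S.cg n) → ZMod p) (b : ZMod p)
    (r : Fin (S.ce n) → ZMod p) : Fin (S.ct n) → ZMod p :=
  S.enc n (Sum.elim (S.genPk n g) (Sum.elim (fun _ => b) r))

/-- All lengths are polynomial. -/
def PKE.Poly (S : PKE p) : Prop :=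
  ∃ c : ℕ, ∀ n, S.cg n ≤ n ^ c + c ∧ S.ce n ≤ n ^ c + c ∧ S.pk n ≤ n ^ c + c ∧
    S.sk n ≤ n ^ c + c ∧ S.ct n ≤ n ^ c + c

/-- A function of a word depends on at most `k` symbols. -/
def Dep {ι α : Type} (k : ℕ) (f : (ι → ZMod p) → α) : Prop :=
  ∃ J : Finset ι, J.card ≤ k ∧ ∀ x x', (∀ j ∈ J, x j = x' j) → f x = f x'

/-- Every symbol of the public key depends on at most four coins, every symbol of the secret key
on at most one, and every symbol of the ciphertext depends on at most four symbols of the public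
key, the message and the coins. -/
def PKE.Local (S : PKE p) : Prop :=
  ∀ n, (∀ i, Dep 4 (fun x => S.genPk n x i)) ∧ (∀ i, Dep 1 (fun x => S.genSk n x i)) ∧
    ∀ i, Dep 4 (fun x => S.enc n x i)

/-- Decryption is the inner product of the ciphertext and a word whose symbols are symbols of the
secret key. -/
def PKE.DecInner (S : PKE p) : Prop :=
  ∀ n, ∃ a : Fin (S.ct n) → Fin (S.sk n), ∀ x,
    S.dec n x = ∑ i, x (Sum.inl (a i)) * x (Sum.inr i)

/-- Decryption always gives back the message. -/
def PKE.Perfect (S : PKE p) : Prop :=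
  ∀ n g b r, S.dec n (Sum.elim (S.genSk n g) (S.ctx n g b r)) = b

/-- The probability that the adversary `A`, which has `m` coins, outputs 1 on the public key and
an encryption of `b`. -/
noncomputable def PKE.pr (S : PKE p) (n m : ℕ)
    (A : (Fin (S.pk n) ⊕ Fin (S.ct n) ⊕ Fin m → ZMod p) → Bool) (b : ZMod p) : ℝ :=
  (Nat.card {t : (Fin (S.cg n) → ZMod p) × (Fin (S.ce n) → ZMod p) × (Fin m → ZMod p) //
    A (Sum.elim (S.genPk n t.1) (Sum.elim (S.ctx n t.1 b t.2.1) t.2.2)) = true}) /
    (p : ℝ) ^ (S.cg n + S.ce n + m)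

/-- For every `d` and all large `n`, every randomised adversary of depth `d` and fan-in at most
`2 ^ k`, where `k ^ (2 * d) ≤ n`, has advantage at most `1 / n ^ e` for every two messages. -/
def PKE.Secure (S : PKE p) (e : ℕ) : Prop :=
  ∀ d : ℕ, ∃ n₀, ∀ n ≥ n₀, ∀ k : ℕ, k ^ (2 * d) ≤ n → ∀ m : ℕ,
    ∀ A ∈ AC p (lits p (Fin (S.pk n) ⊕ Fin (S.ct n) ⊕ Fin m)) (2 ^ k) d,
      ∀ b b' : ZMod p, |S.pr n m A b - S.pr n m A b'| ≤ 1 / (n : ℝ) ^ e

end Pool.Agent.PKEp
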