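import Pool.Agent.PKEp.Pub
import Pool.Agent.ACS.Pub

/-!
# The definitions of the final statement (words over `Bool`)

Public-key encryption schemes (`ACP.PKE`), perfect correctness (`ACP.PKE.Perfect`), bits, negated
bits and constants (`ACP.lits`) and security against circuits with few symmetric gates
(`ACS.SecureSym`) are those of `Pool/Agent/ACP/Pub.lean` and `Pool/Agent/ACS/Pub.lean`; circuits with
gates modulo `q` are in `Pool/Agent/PKEp/Pub.lean` (`AC q`).
-/

namespace Pool.Agent.PKEp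



/-- All lengths are polynomial. -/
def PolyB (S : ACP.PKE) : Prop :=
  ∃ c : ℕ, ∀ n, S.cg n ≤ n ^ c + c ∧ S.ce n ≤ n ^ c + c ∧ S.pk n ≤ n ^ c + c ∧
    S.sk n ≤ n ^ c + c ∧ S.ct n ≤ n ^ c + c

/-- `f` depends on at most `k` bits. -/
def DepB {ι : Type} (k : ℕ) (f : (ι → Bool) → Bool) : Prop :=
  ∃ J : Finset ι, J.card ≤ k ∧ ∀ x x', (∀ j ∈ J, x j = x' j) → f x = f x'

/-- Every bit of the public key depends on at most four coins, every bit of the secret key on at
most one, and every bit of the ciphertext on at most four bits of the public key, the message and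
the coins. -/
def LocalB (S : ACP.PKE) : Prop :=
  ∀ n, (∀ i, DepB 4 (fun x => S.genPk n x i)) ∧ (∀ i, DepB 1 (fun x => S.genSk n x i)) ∧
    ∀ i, DepB 4 (fun x => S.enc n x i)

/-- Decryption is the parity of the ANDs of the bits of the ciphertext with bits of the secret
key. -/
def DecParity (S : ACP.PKE) : Prop :=
  ∀ n, ∃ a : Fin (S.ct n) → Fin (S.sk n), ∀ x, S.dec n x = true ↔
    Odd (Finset.univ.filter fun i => x (Sum.inl (a i)) = true ∧ x (Sum.inr i) = true).card

/-- For every prime `q`, every `d` and all large `n`, every randomised adversary with gates modulo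
`q`, depth `d` and fan-in at most `2 ^ k`, where `k ^ (2 * d) ≤ n`, has advantage at most
`1 / n ^ e`. -/
def SecureMod (S : ACP.PKE) (e : ℕ) : Prop :=
  ∀ q : ℕ, q.Prime → ∀ d : ℕ, ∃ n₀, ∀ n ≥ n₀, ∀ k : ℕ, k ^ (2 * d) ≤ n → ∀ m : ℕ,
    ∀ A ∈ AC q (ACP.lits (Fin (S.pk n) ⊕ Fin (S.ct n) ⊕ Fin m)) (2 ^ k) d,
      |S.pr n m A false - S.pr n m A true| ≤ 1 / (n : ℝ) ^ e

end Pool.Agent.PKEp
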