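import Mathlib

/-!
# Additive sharing along a cycle
-/

namespace Pool.Agent.PKEp

open Finset

variable {T : Type} [Fintype T]

/-- The cyclic successor. -/
noncomputable def nx (T : Type) [Fintype T] : Equiv.Perm T :=
  ((Fintype.equivFin T).trans (finRotate _)).trans (Fintype.equivFin T).symm

/-- The share of `v` with coins `τ`. -/
noncomputable def sh {F : Type} [CommRing F] (v τ : T → F) (x : T) : F := v x + τ x - τ (nx T x)

lemma sum_sh {F : Type} [CommRing F] (v τ : T → F) : ∑ x, sh v τ x = ∑ x, v x := by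
  unfold sh
  rw [sum_sub_distrib, sum_add_distrib, Equiv.sum_comp (nx T) τ, add_sub_cancel_right]

omit [Fintype T] in
lemma exists_cob_aux {F : Type} [CommRing F] (N : ℕ) (e : T ≃ Fin N) (w : T → F)
    (hw : ∑ i, w (e.symm i) = 0) :
    ∃ τ : T → F, ∀ x, w x = τ (e.symm (finRotate N (e x))) - τ x := by
  set f : ℕ → F := fun i => if h : i < N then w (e.symm ⟨i, h⟩) else 0 with hf
  have hsum : ∑ i ∈ range N, f i = 0 := by
    rw [← hw, ← Fin.sum_univ_eq_sum_range]
    refine sum_congr rfl fun i _ => ?_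
    simp only [hf]
    rw [dif_pos i.2]
  refine ⟨fun x => ∑ i ∈ range (e x).1, f i, fun x => ?_⟩
  have hfx : f (e x).1 = w x := by
    simp only [hf]
    rw [dif_pos (e x).2]
    simp
  have hval : ((finRotate N (e x)).1 = (e x).1 + 1) ∨
      ((finRotate N (e x)).1 = 0 ∧ (e x).1 + 1 = N) := by
    have hx := (e x).2
    obtain ⟨M, rfl⟩ : ∃ M, N = M + 1 := ⟨N - 1, by omega⟩
    by_cases hy : (e x).1 = M
    · right
      have : e x = Fin.last M := Fin.ext hy
      rw [this, finRotate_last]
      exact ⟨rfl, by simp⟩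
    · left
      rw [finRotate_of_lt (by omega)]
  simp only [Equiv.apply_symm_apply]
  rcases hval with h1 | ⟨h1, h2⟩
  · rw [h1, sum_range_succ, hfx]; ring
  · rw [h1, range_zero, sum_empty, zero_sub]
    have := hsum
    rw [← h2, sum_range_succ, hfx] at this
    linear_combination this

/-- A vector with sum zero is a coboundary. -/
lemma exists_cob {F : Type} [CommRing F] (w : T → F) (hw : ∑ x, w x = 0) :
    ∃ τ : T → F, ∀ x, w x = τ (nx T x) - τ x :=
  exists_cob_aux _ (Fintype.equivFin T) w
    (by rw [Equiv.sum_comp (Fintype.equivFin T).symm w, hw])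

/-- Two vectors with the same sum have the same shares, up to a shift of the coins. -/
lemma exists_shift {F : Type} [CommRing F] (v v' : T → F) (h : ∑ x, v x = ∑ x, v' x) :
    ∃ τ₀ : T → F, ∀ τ, sh v τ = sh v' (τ - τ₀) := by
  obtain ⟨τ₀, h0⟩ := exists_cob (fun x => v x - v' x) (by rw [sum_sub_distrib, h, sub_self])
  refine ⟨τ₀, fun τ => ?_⟩
  funext x
  have := h0 x
  simp only [sh, Pi.sub_apply]
  linear_combination this

/-- The shares depend only on the sum. -/
lemma sum_sh_eq {F β : Type} [CommRing F] [Fintype F] [AddCommMonoid β] (v v' : T → F)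
    (h : ∑ x, v x = ∑ x, v' x) (f : (T → F) → β) [DecidableEq T] :
    ∑ τ : T → F, f (sh v τ) = ∑ τ : T → F, f (sh v' τ) := by
  obtain ⟨τ₀, h0⟩ := exists_shift v v' h
  rw [← (Equiv.subRight τ₀).sum_comp (fun τ => f (sh v' τ))]
  exact sum_congr rfl fun τ _ => by rw [h0 τ]; rfl

/-- The same for a family of vectors. -/
lemma sum_sh_fam {F β J : Type} [CommRing F] [Fintype F] [AddCommMonoid β] [Fintype J]
    [DecidableEq J] [DecidableEq T] (v v' : J → T → F) (h : ∀ j, ∑ x, v j x = ∑ x, v' j x)
    (f : (J → T → F) → β) :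
    ∑ τ : J → T → F, f (fun j => sh (v j) (τ j)) = ∑ τ : J → T → F, f (fun j => sh (v' j) (τ j)) := by
  choose τ₀ h0 using fun j => exists_shift (v j) (v' j) (h j)
  rw [← (Equiv.subRight τ₀).sum_comp (fun τ => f (fun j => sh (v' j) (τ j)))]
  refine sum_congr rfl fun τ _ => ?_
  congr 1
  funext j
  exact h0 j (τ j)

/-- Words on a sum type are pairs of words. -/
lemma sum_arrow {α β F M : Type} [Fintype α] [Fintype β] [Fintype F] [DecidableEq α]
    [DecidableEq β] [AddCommMonoid M] (f : (α ⊕ β → F) → M) :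
    ∑ g : α ⊕ β → F, f g = ∑ a : α → F, ∑ b : β → F, f (Sum.elim a b) := by
  rw [← Fintype.sum_prod_type']
  exact Fintype.sum_equiv (Equiv.sumArrowEquivProdArrow α β F) _ _ fun g => by
    congr 1
    funext x
    cases x <;> rfl

/-- Words on a product type are families of words. -/
lemma sum_curry {α β F M : Type} [Fintype α] [Fintype β] [Fintype F] [DecidableEq α]
    [DecidableEq β] [AddCommMonoid M] (f : (α × β → F) → M) :
    ∑ g : α × β → F, f g = ∑ g : α → β → F, f (fun x => g x.1 x.2) :=
  Fintype.sum_equiv (Equiv.curry α β F) _ _ fun _ => rfl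

end Pool.Agent.PKEp
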