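import Pool.Agent.PKEp.Tri
import Pool.Agent.PKEp.Share
import Pool.Agent.PKEp.Pub

/-!
# The scheme, with words indexed by natural finite types
-/

namespace Pool.Agent.PKEp

open Finset

/-- Row indices: one extra row. -/
abbrev Row (m : ℕ) : Type := Option (St m)

/-- Positions of the coins of key generation: `s`, `v`, `t`, `ρ`. -/
abbrev GCi (m : ℕ) : Type := St m ⊕ (St m × St m) ⊕ St m ⊕ (Row m × St m)

/-- Positions of the coins of encryption: `r`, `σ`, `τ`. -/
abbrev ECi (m : ℕ) : Type := Row m ⊕ (St m × Row m) ⊕ Option (Row m × St m)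

/-- Positions of the public key: the matrix, the shares of the last column. -/
abbrev PKi (m : ℕ) : Type := (Row m × St m) ⊕ (Row m × St m)

/-- Positions of the secret key. -/
abbrev SKi (m : ℕ) : Type := Option (St m)

/-- Positions of the ciphertext. -/
abbrev CTi (m : ℕ) : Type := (St m × Row m) ⊕ Option (Row m × St m)

variable {p m : ℕ}

/-- The matrix: first row `s`, below it a unitriangular matrix. -/
def WW (s : St m → ZMod p) (v : St m → St m → ZMod p) : Row m → St m → ZMod p
  | none, j => s j
  | some q, j => Vv v q j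

/-- The public key, from `W`, `t`, `ρ`. -/
noncomputable def pkP (W : Row m → St m → ZMod p) (t : St m → ZMod p)
    (ρ : Row m → St m → ZMod p) : Row m → St m → ZMod p :=
  fun i => sh (fun j => W i j * t j) (ρ i)

/-- The first part of the ciphertext. -/
noncomputable def ctA (W : Row m → St m → ZMod p) (r : Row m → ZMod p)
    (σ : St m → Row m → ZMod p) : St m → Row m → ZMod p :=
  fun j => sh (fun i => r i * W i j) (σ j)

/-- The products of the second part of the ciphertext. -/
def cB (P : Row m → St m → ZMod p) (r : Row m → ZMod p) (b : ZMod p) :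
    Option (Row m × St m) → ZMod p
  | none => b
  | some (i, j) => r i * P i j

/-- The second part of the ciphertext. -/
noncomputable def ctB (P : Row m → St m → ZMod p) (r : Row m → ZMod p) (b : ZMod p)
    (τ : Option (Row m × St m) → ZMod p) : Option (Row m × St m) → ZMod p :=
  sh (cB P r b) τ

/-- Public key and ciphertext as one word. -/
def pub (W P : Row m → St m → ZMod p) (A : St m → Row m → ZMod p)
    (B : Option (Row m × St m) → ZMod p) : PKi m ⊕ CTi m → ZMod p :=
  Sum.elim (Sum.elim (fun x => W x.1 x.2) (fun x => P x.1 x.2))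
    (Sum.elim (fun x => A x.1 x.2) B)

/-- What the adversary sees. -/
noncomputable def real (s : St m → ZMod p) (v : St m → St m → ZMod p) (t : St m → ZMod p)
    (ρ : Row m → St m → ZMod p) (r : Row m → ZMod p) (σ : St m → Row m → ZMod p)
    (τ : Option (Row m × St m) → ZMod p) (b : ZMod p) : PKi m ⊕ CTi m → ZMod p :=
  pub (WW s v) (pkP (WW s v) t ρ) (ctA (WW s v) r σ) (ctB (pkP (WW s v) t ρ) r b τ)

/-- The vector with sum `a` and only one nonzero entry. -/
def conc {T : Type} [DecidableEq T] (x₀ : T) (a : ZMod p) (x : T) : ZMod p :=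
  if x = x₀ then a else 0

/-- What the adversary sees in the hybrids: `W` and `y` are arbitrary. -/
noncomputable def view (W : Row m → St m → ZMod p) (y : Row m → ZMod p)
    (ρ : Row m → St m → ZMod p) (r : Row m → ZMod p) (σ : St m → Row m → ZMod p)
    (τ : Option (Row m × St m) → ZMod p) (b : ZMod p) : PKi m ⊕ CTi m → ZMod p :=
  pub W (fun i => sh (conc (0, 0) (y i)) (ρ i))
    (fun j => sh (conc none (∑ i, r i * W i j)) (σ j)) (sh (conc none (∑ i, r i * y i + b)) τ)

/-- The last column: `W t`, in the first row minus `β`. -/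
def yy (W : Row m → St m → ZMod p) (t : St m → ZMod p) (β : ZMod p) (i : Row m) : ZMod p :=
  ∑ j, W i j * t j - if i = none then β else 0

/-- Sum of a function of the hybrid view over all coins. -/
noncomputable def hyb [NeZero p] (β : ZMod p) (b : ZMod p) (f : (PKi m ⊕ CTi m → ZMod p) → ℝ) :
    ℝ :=
  ∑ s : St m → ZMod p, ∑ v : St m → St m → ZMod p, ∑ t : St m → ZMod p,
    ∑ ρ : Row m → St m → ZMod p, ∑ r : Row m → ZMod p, ∑ σ : St m → Row m → ZMod p,
      ∑ τ : Option (Row m × St m) → ZMod p, f (view (WW s v) (yy (WW s v) t β) ρ r σ τ b)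

/-- Sum of a function of the real view over all coins. -/
noncomputable def rel [NeZero p] (b : ZMod p) (f : (PKi m ⊕ CTi m → ZMod p) → ℝ) : ℝ :=
  ∑ s : St m → ZMod p, ∑ v : St m → St m → ZMod p, ∑ t : St m → ZMod p,
    ∑ ρ : Row m → St m → ZMod p, ∑ r : Row m → ZMod p, ∑ σ : St m → Row m → ZMod p,
      ∑ τ : Option (Row m × St m) → ZMod p, f (real s v t ρ r σ τ b)

/-! ### The algorithms -/

/-- The matrix, from the coins. -/
def gW (g : GCi m → ZMod p) : Row m → St m → ZMod p :=
  WW (fun j => g (Sum.inl j)) (fun q j => g (Sum.inr (Sum.inl (q, j))))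

/-- Public key. -/
noncomputable def genPkT (g : GCi m → ZMod p) : PKi m → ZMod p :=
  Sum.elim (fun x => gW g x.1 x.2)
    (fun x => pkP (gW g) (fun j => g (Sum.inr (Sum.inr (Sum.inl j))))
      (fun i j => g (Sum.inr (Sum.inr (Sum.inr (i, j))))) x.1 x.2)

/-- Secret key. -/
def genSkT (g : GCi m → ZMod p) : SKi m → ZMod p
  | none => 1
  | some j => -g (Sum.inr (Sum.inr (Sum.inl j)))

/-- Encryption. -/
noncomputable def encT (z : PKi m ⊕ Unit ⊕ ECi m → ZMod p) : CTi m → ZMod p :=
  Sum.elim
    (fun x => ctA (fun i j => z (Sum.inl (Sum.inl (i, j))))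
      (fun i => z (Sum.inr (Sum.inr (Sum.inl i))))
      (fun j i => z (Sum.inr (Sum.inr (Sum.inr (Sum.inl (j, i)))))) x.1 x.2)
    (ctB (fun i j => z (Sum.inl (Sum.inr (i, j)))) (fun i => z (Sum.inr (Sum.inr (Sum.inl i))))
      (z (Sum.inr (Sum.inl ()))) (fun x => z (Sum.inr (Sum.inr (Sum.inr (Sum.inr x))))))

/-- The symbol of the secret key by which a symbol of the ciphertext is multiplied. -/
def addr : CTi m → SKi m
  | Sum.inl x => some x.1
  | Sum.inr _ => none

/-- Decryption. -/
def decT (z : SKi m ⊕ CTi m → ZMod p) : ZMod p :=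
  ∑ c, z (Sum.inl (addr c)) * z (Sum.inr c)

end Pool.Agent.PKEp
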