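import Pool.Agent.PKEp.Prog

/-!
# Unitriangular systems
-/

namespace Pool.Agent.PKEp

open Finset

variable {m p : ℕ}

/-- Unitriangular with respect to the position. -/
def Tri (M : St m → St m → ZMod p) : Prop :=
  (∀ q, M q q = 1) ∧ ∀ q j, ¬ q.1 < j.1 → q ≠ j → M q j = 0

lemma Tri.inj {M : St m → St m → ZMod p} (hM : Tri M) :
    Function.Injective fun (z : St m → ZMod p) (j : St m) => ∑ q, z q * M q j := by
  intro z z' hzz
  have key : ∀ k : ℕ, ∀ j : St m, j.1.1 < k → z j = z' j := by
    intro k
    induction k with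
    | zero => intro j hj; exact absurd hj (Nat.not_lt_zero _)
    | succ k ih =>
      intro j hj
      have h := congrFun hzz j
      simp only at h
      rw [← add_sum_erase _ _ (mem_univ j), ← add_sum_erase univ (fun q => z' q * M q j)
        (mem_univ j), hM.1 j, mul_one, mul_one] at h
      have h2 : ∑ q ∈ univ.erase j, z q * M q j = ∑ q ∈ univ.erase j, z' q * M q j := by
        refine sum_congr rfl fun q hq => ?_
        by_cases hlt : q.1 < j.1
        · rw [ih q (by rw [Fin.lt_def] at hlt; omega)]
        · rw [hM.2 q j hlt (ne_of_mem_erase hq), mul_zero, mul_zero]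
      rw [h2] at h
      exact add_right_cancel h
  funext j
  exact key (j.1.1 + 1) j (Nat.lt_succ_self _)

lemma Tri.surj [NeZero p] {M : St m → St m → ZMod p} (hM : Tri M) (s : St m → ZMod p) :
    ∃ z : St m → ZMod p, ∀ j, ∑ q, z q * M q j = s j := by
  obtain ⟨z, hz⟩ := Finite.surjective_of_injective hM.inj s
  exact ⟨z, fun j => congrFun hz j⟩

/-- The unitriangular matrix with the given coins. -/
def Vv (v : St m → St m → ZMod p) (q j : St m) : ZMod p :=
  if q.1 < j.1 then v q j else if q = j then 1 else 0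

lemma Vv_tri (v : St m → St m → ZMod p) : Tri (Vv v) := by
  refine ⟨fun q => ?_, fun q j h hne => ?_⟩
  · unfold Vv; rw [if_neg (lt_irrefl _), if_pos rfl]
  · unfold Vv; rw [if_neg h, if_neg hne]

lemma U_tri (p : ℕ) (x : Finset (Fin m)) : Tri (U p x) :=
  ⟨U_self p x, fun _ _ h hne => U_lower p x h hne⟩

lemma Tri.mul {M M' : St m → St m → ZMod p} (hM : Tri M) (hM' : Tri M') :
    Tri fun q j => ∑ k, M q k * M' k j := by
  constructor
  · intro q
    change ∑ k, M q k * M' k q = 1
    rw [sum_eq_single q, hM.1, hM'.1, one_mul]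
    · intro k _ hk
      by_cases h : q.1 < k.1
      · rw [hM'.2 k q (not_lt.2 h.le) hk, mul_zero]
      · rw [hM.2 q k h (Ne.symm hk), zero_mul]
    · intro h; exact absurd (mem_univ _) h
  · intro q j h hne
    refine sum_eq_zero fun k _ => ?_
    by_cases h1 : q.1 < k.1
    · have h2 : ¬ k.1 < j.1 := fun h2 => h (h1.trans h2)
      have h3 : k ≠ j := by
        rintro rfl
        exact h h1
      rw [hM'.2 k j h2 h3, mul_zero]
    · by_cases h2 : q = k
      · subst h2
        rw [hM'.2 q j h hne, mul_zero]
      · rw [hM.2 q k h1 h2, zero_mul]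

end Pool.Agent.PKEp
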